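import Mathlib

/-!
# BOND project (MP_728309_co): basic definitions

Shared definitions for the proof that every 2-connected triangle-free graph without `K5` minor has
a contractible bond.  Part 1: minors, connectivity, faces (front end = Wagner's theorem).
Part 2: multigraphs, algebraic duality.
-/

set_option autoImplicit false

namespace Pool.Agent.BOND

/-! ## Connected sets and minors -/

/-- The vertex set `S` is connected (and nonempty) in `G`. -/
def Con {V : Type} (G : SimpleGraph V) (S : Set V) : Prop := (G.induce S).Connected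

/-- Some edge joins `S` and `T`. -/
def Nb {V : Type} (G : SimpleGraph V) (S T : Set V) : Prop := ∃ u ∈ S, ∃ v ∈ T, G.Adj u v

/-- `f` is a model of the graph `Q` in `G`: disjoint connected sets, adjacent if the indices are. -/
structure Mdl {ι V : Type} (Q : SimpleGraph ι) (G : SimpleGraph V) (f : ι → Set V) : Prop where
  conn : ∀ i, Con G (f i)
  disj : ∀ i j, i ≠ j → Disjoint (f i) (f j)
  adj : ∀ i j, Q.Adj i j → Nb G (f i) (f j)

/-- `Q` is a minor of `G`. -/
def HasMinor {ι V : Type} (Q : SimpleGraph ι) (G : SimpleGraph V) : Prop := ∃ f, Mdl Q G f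

/-- The complete graph on five vertices. -/
abbrev K5 : SimpleGraph (Fin 5) := ⊤

/-- The complete bipartite graph `K_{3,3}`. -/
abbrev K33 : SimpleGraph (Fin 3 ⊕ Fin 3) := completeBipartiteGraph (Fin 3) (Fin 3)

/-- The Wagner graph: an 8-cycle with its four long diagonals. -/
def V8 : SimpleGraph (Fin 8) := SimpleGraph.fromRel (fun i j : Fin 8 => j = i + 1 ∨ j = i + 4)

/-- The graph `G` with the vertices of `T` made isolated. -/
def dl {V : Type} (G : SimpleGraph V) (T : Set V) : SimpleGraph V where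
  Adj u v := G.Adj u v ∧ u ∉ T ∧ v ∉ T
  symm := ⟨fun _ _ h => ⟨h.1.symm, h.2.2, h.2.1⟩⟩
  loopless := ⟨fun _ h => h.1.ne rfl⟩

/-- 3-connected graph. -/
structure C3 {V : Type} [Fintype V] (G : SimpleGraph V) : Prop where
  card : 4 ≤ Fintype.card V
  conn : ∀ a b : V, Con G {v | v ≠ a ∧ v ≠ b}

/-- No three vertices leave three or more components. -/
def Tame {V : Type} (G : SimpleGraph V) : Prop :=
  ∀ x y z : V, x ≠ y → y ≠ z → x ≠ z → ∀ a b c : V, a ∉ ({x, y, z} : Set V) →
    b ∉ ({x, y, z} : Set V) → c ∉ ({x, y, z} : Set V) →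
    (dl G {x, y, z}).Reachable a b ∨ (dl G {x, y, z}).Reachable b c ∨
      (dl G {x, y, z}).Reachable a c

/-- A separation of order three: `x y z` distinct, the rest is the union of the connected sets `P`
and `Q`, both with at least two vertices, without edges between them. -/
structure Sep3 {V : Type} (G : SimpleGraph V) (x y z : V) (P Q : Set V) : Prop where
  xy : x ≠ y
  yz : y ≠ z
  xz : x ≠ z
  cp : Con G P
  cq : Con G Q
  disj : Disjoint P Q
  cov : P ∪ Q = {v | v ≠ x ∧ v ≠ y ∧ v ≠ z}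
  none : ¬ Nb G P Q
  p2 : ∃ a ∈ P, ∃ b ∈ P, a ≠ b
  q2 : ∃ a ∈ Q, ∃ b ∈ Q, a ≠ b

/-! ## Models of `K33` -/

/-- a covering model of `K33`, with sides `A` and `B` -/
structure KM {V : Type} (G : SimpleGraph V) (A B : Fin 3 → Set V) : Prop where
  ca : ∀ i, Con G (A i)
  cb : ∀ i, Con G (B i)
  da : ∀ i j, i ≠ j → Disjoint (A i) (A j)
  db : ∀ i j, i ≠ j → Disjoint (B i) (B j)
  dab : ∀ i j, Disjoint (A i) (B j)
  cov : ∀ v, (∃ i, v ∈ A i) ∨ ∃ i, v ∈ B i
  ab : ∀ i j, Nb G (A i) (B j)

/-- no edges between different parts -/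
def Ind {V : Type} (G : SimpleGraph V) (B : Fin 3 → Set V) : Prop :=
  ∀ i j, i ≠ j → ¬ Nb G (B i) (B j)

/-- the part `A` has an F-split with respect to the other side `B` -/
def FS {V : Type} (G : SimpleGraph V) (A : Set V) (B : Fin 3 → Set V) : Prop :=
  ∃ C D, Con G C ∧ Con G D ∧ Disjoint C D ∧ C ∪ D = A ∧ ∃ h p q : Fin 3, h ≠ p ∧ h ≠ q ∧ p ≠ q ∧
    Nb G C (B h) ∧ Nb G D (B h) ∧ Nb G C (B p) ∧ Nb G D (B q)

/-- the class of models used in the extremal argument -/
structure NN {V : Type} (G : SimpleGraph V) (A B : Fin 3 → Set V) : Prop where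
  km : KM G A B
  ind : Ind G B
  ff : ∀ i, ¬ FS G (A i) B

/-- size of the first side -/
noncomputable def am {V : Type} (A : Fin 3 → Set V) : ℕ := (⋃ i, A i).ncard

/-! ## Pieces and contractions -/

/-- the piece of a 3-separation: the graph induced on `P ∪ {x,y,z}` plus the triangle `xyz` -/
def pc {V : Type} (G : SimpleGraph V) (x y z : V) (P : Set V) :
    SimpleGraph {v : V // v ∈ P ∨ v = x ∨ v = y ∨ v = z} where
  Adj u v := u ≠ v ∧ (G.Adj u.1 v.1 ∨ (u.1 = x ∨ u.1 = y ∨ u.1 = z) ∧ (v.1 = x ∨ v.1 = y ∨ v.1 = z))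
  symm := ⟨fun _ _ h => ⟨h.1.symm, h.2.elim (fun a => Or.inl a.symm) (fun a => Or.inr ⟨a.2, a.1⟩)⟩⟩
  loopless := ⟨fun _ h => h.1 rfl⟩

/-- the simple graph obtained by contracting `xy` to `x` -/
def ctr {V : Type} (G : SimpleGraph V) (x y : V) : SimpleGraph {v : V // v ≠ y} where
  Adj u v := u ≠ v ∧ (G.Adj u.1 v.1 ∨ (u.1 = x ∧ G.Adj y v.1) ∨ (v.1 = x ∧ G.Adj u.1 y))
  symm := ⟨fun _ _ h => ⟨h.1.symm, by
    rcases h.2 with h | h | h
    · exact Or.inl h.symm
    · exact Or.inr (Or.inr ⟨h.1, h.2.symm⟩)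
    · exact Or.inr (Or.inl ⟨h.1, h.2.symm⟩)⟩⟩
  loopless := ⟨fun _ h => h.1 rfl⟩

/-- the data of a ring of connected sets in `G`, avoiding `x` and `y` -/
structure Ring {V : Type} (G : SimpleGraph V) (x y : V) (d : ℕ) (Q : Fin d → Set V) : Prop where
  nx : ∀ i, x ∉ Q i
  ny : ∀ i, y ∉ Q i
  con : ∀ i, Con G (Q i)
  disj : ∀ i j, i ≠ j → Disjoint (Q i) (Q j)
  nxt : ∀ i, Nb G (Q i) (Q (finRotate d i))

/-! ## Faces -/

/-- A system of faces of the graph `G` (an algebraic dual): every face is an even set of edges, every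
edge is in exactly two faces, and every set of edges that meets all faces evenly is a cut. -/
structure Fcs {V : Type} (G : SimpleGraph V) (W : Type) where
  f : W → Set (Sym2 V)
  sub : ∀ w, f w ⊆ G.edgeSet
  two : ∀ e ∈ G.edgeSet, ∃ w₁ w₂, w₁ ≠ w₂ ∧ ∀ w, e ∈ f w ↔ (w = w₁ ∨ w = w₂)
  ev : ∀ w v, Even {e | e ∈ f w ∧ v ∈ e}.ncard
  cut : ∀ B : Set (Sym2 V), B ⊆ G.edgeSet → (∀ w, Even (f w ∩ B).ncard) →
    ∃ X : Set V, ∀ u v, G.Adj u v → (s(u, v) ∈ B ↔ ¬ (u ∈ X ↔ v ∈ X))

/-- `G` is planar, in the sense that it has a system of faces. -/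
def HasFaces {V : Type} (G : SimpleGraph V) : Prop := ∃ n : ℕ, Nonempty (Fcs G (Fin n))

/-! ## Multigraphs and algebraic duality -/

/-- A multigraph with vertex type `V` and edge type `E`. -/
structure MG (V E : Type) where
  s : E → V
  t : E → V

namespace MG

variable {V W E : Type}

open Classical in
/-- Boundary modulo two of a set of edges (as a function). -/
noncomputable def bd [Fintype E] (D : MG V E) (b : E → ZMod 2) (v : V) : ZMod 2 :=
  ∑ e, ((if D.s e = v then b e else 0) + (if D.t e = v then b e else 0))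

/-- The cut of a set of vertices (as a function). -/
def cb (D : MG V E) (x : V → ZMod 2) (e : E) : ZMod 2 := x (D.s e) + x (D.t e)

/-- `D` is an algebraic dual of `G`: the even sets of `D` are the cuts of `G`. -/
def IsDual [Fintype E] (G : MG V E) (D : MG W E) : Prop :=
  ∀ b : E → ZMod 2, D.bd b = 0 ↔ ∃ x : V → ZMod 2, b = G.cb x

end MG

/-- The multigraph of a simple graph. -/
noncomputable def mg {V : Type} (G : SimpleGraph V) : MG V G.edgeSet where
  s e := (Quot.out e.1).1
  t e := (Quot.out e.1).2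

end Pool.Agent.BOND
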