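import Mathlib
import Pool.Agent.BOND.Defs
import Pool.Agent.Helper19.Wag.LemV

/-! # BOND, module KM5: the nonplanar case of Wagner's theorem

All the work is in `Pool/Agent/Helper19/Wag` (Lemma T, Lemma K, Lemma V). -/

set_option autoImplicit false

namespace Pool.Agent.BOND

variable {V : Type}

open Helper19.Wag in
theorem hasMinor_k5_of_k5m {G : SimpleGraph V} (h : K5M G) : HasMinor K5 G := by
  obtain ⟨f, h1, h2, h3⟩ := h
  exact ⟨f, h1, h2, fun i j hij => h3 i j hij.ne⟩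

open Helper19.Wag in
theorem hasMinor_v8_of_v8m {G : SimpleGraph V} (h : V8M G) : HasMinor V8 G := by
  obtain ⟨f, hf⟩ := h
  refine ⟨f, hf.con, hf.disj, fun i j hij => ?_⟩
  have h1 : ∀ i j : Fin 8, (i ≠ j ∧ ((j = i + 1 ∨ j = i + 4) ∨ (i = j + 1 ∨ i = j + 4))) →
      la L8 i j = true := by decide
  refine hf.la_adj (h1 i j ?_)
  simpa [V8, SimpleGraph.fromRel_adj] using hij

open Helper19.Wag in
theorem v8m_of_hasMinor_v8 {G : SimpleGraph V} (h : HasMinor V8 G) : V8M G := by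
  obtain ⟨f, hf⟩ := h
  refine ⟨f, hf.conn, hf.disj, fun p hp => hf.adj p.1 p.2 ?_⟩
  have h1 : ∀ p ∈ L8, p.1 ≠ p.2 ∧ ((p.2 = p.1 + 1 ∨ p.2 = p.1 + 4) ∨
      (p.1 = p.2 + 1 ∨ p.1 = p.2 + 4)) := by decide
  simpa [V8, SimpleGraph.fromRel_adj] using h1 p hp

open Helper19.Wag in
theorem pm_of_hasMinor_k33 {G : SimpleGraph V} (h : HasMinor K33 G) :
    ∃ f : Fin 6 → Set V, PM G L33 f := by
  obtain ⟨f, hf⟩ := h
  set e : Fin 6 → Fin 3 ⊕ Fin 3 := ![.inl 0, .inl 1, .inl 2, .inr 0, .inr 1, .inr 2] with he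
  have hinj : ∀ a b, a ≠ b → e a ≠ e b := by rw [he]; decide
  refine ⟨fun k => f (e k), fun i => hf.conn _, fun i j hij => hf.disj _ _ (hinj i j hij),
    fun p hp => hf.adj _ _ ?_⟩
  have h1 : ∀ p ∈ L33, ((e p.1).isLeft = true ∧ (e p.2).isRight = true) := by
    rw [he]; decide
  have h2 := h1 p hp
  simp [K33, h2]

theorem con_univ_of_conn {G : SimpleGraph V} (h : ∀ a b : V, Con G {v | v ≠ a ∧ v ≠ b})
    {u v : V} (huv : G.Adj u v) : Helper19.Wag.Con G Set.univ := by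
  have h6 : (Set.univ : Set V) = insert u {x | x ≠ u ∧ x ≠ u} := by
    ext x
    simp only [Set.mem_univ, Set.mem_insert_iff, Set.mem_ofPred_eq, true_iff]
    by_cases hx : x = u
    · exact Or.inl hx
    · exact Or.inr ⟨hx, hx⟩
  rw [h6]
  have h4 : Helper19.Wag.Con G {x | x ≠ u ∧ x ≠ u} := h u u
  exact h4.insert_adj (u := v) ⟨huv.ne', huv.ne'⟩ huv

/-- A hub contradicts tameness. -/
theorem not_tame_of_hub {G : SimpleGraph V} {w : Fin 3 → V} {P : Fin 3 → Set V}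
    (h : Helper19.Wag.Hub G w P) : ¬ Tame G := by
  intro ht
  obtain ⟨a, ha⟩ := (h.con 0).nonempty
  obtain ⟨b, hb⟩ := (h.con 1).nonempty
  obtain ⟨c, hc⟩ := (h.con 2).nonempty
  have hw : ∀ i, ∀ x ∈ P i, x ∉ ({w 0, w 1, w 2} : Set V) := by
    intro i x hx hxw
    simp only [Set.mem_insert_iff, Set.mem_singleton_iff] at hxw
    rcases hxw with rfl | rfl | rfl
    · exact h.nmem i 0 hx
    · exact h.nmem i 1 hx
    · exact h.nmem i 2 hx
  -- `P i` is closed
  have hcl : ∀ (i : Fin 3) (x y : V), (dl G {w 0, w 1, w 2}).Reachable x y → x ∈ P i →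
      y ∈ P i := by
    intro i x y hxy
    obtain ⟨p⟩ := hxy
    induction p with
    | nil => exact id
    | cons hadj p ih =>
      intro hx
      apply ih
      rcases h.nb i _ hx _ hadj.1 with h1 | ⟨j, hj⟩
      · exact h1
      · exfalso
        apply hadj.2.2
        rw [hj]
        fin_cases j <;> simp
  have hne : ∀ i j, i ≠ j → ∀ x y, x ∈ P i → y ∈ P j →
      ¬ (dl G {w 0, w 1, w 2}).Reachable x y := by
    intro i j hij x y hx hy hr
    exact Set.disjoint_left.1 (h.disj i j hij) (hcl i x y hr hx) hy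
  rcases ht (w 0) (w 1) (w 2) (fun e => absurd (h.inj e) (by decide))
    (fun e => absurd (h.inj e) (by decide)) (fun e => absurd (h.inj e) (by decide)) a b c
    (hw 0 a ha) (hw 1 b hb) (hw 2 c hc) with hr | hr | hr
  · exact hne 0 1 (by decide) a b ha hb hr
  · exact hne 1 2 (by decide) b c hb hc hr
  · exact hne 0 2 (by decide) a c ha hc hr

/-- strong form: only tameness is needed -/
theorem no_k33' [Fintype V] {G : SimpleGraph V} (h3 : C3 G) (ht : Tame G)
    (h5 : ¬ HasMinor K5 G) (h8 : ¬ HasMinor V8 G) : ¬ HasMinor K33 G := by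
  intro h
  obtain ⟨f, hf⟩ := pm_of_hasMinor_k33 h
  obtain ⟨u, hu, v, hv, huv⟩ := hf.adj (0, 3) (by decide)
  have hH := con_univ_of_conn h3.conn huv
  rcases Helper19.Wag.wagner_nonplanar (fun hx => h5 (hasMinor_k5_of_k5m hx)) h3.conn hf with
    ⟨w, P, hub⟩ | ⟨w, hw, hadj⟩
  · exact not_tame_of_hub hub ht
  · apply h8
    refine ⟨fun i => {w i}, fun i => Helper19.Wag.con_singleton _, fun i j hij => ?_,
      fun i j hij => ⟨w i, rfl, w j, rfl, ?_⟩⟩
    · rw [Set.disjoint_singleton]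
      exact fun e => hij (hw.1 e)
    · rw [hadj]
      have h1 : ∀ i j : Fin 8, (i ≠ j ∧ ((j = i + 1 ∨ j = i + 4) ∨ (i = j + 1 ∨ i = j + 4))) →
          ∃ k, j = i + Helper19.Wag.dd k := by decide
      refine h1 i j ?_
      simpa [V8, SimpleGraph.fromRel_adj] using hij

theorem no_k33 [Fintype V] {G : SimpleGraph V} (h3 : C3 G) (ht : Tame G)
    (_h4 : ¬ ∃ x y z P Q, Sep3 G x y z P Q) (h5 : ¬ HasMinor K5 G) (h8 : ¬ HasMinor V8 G) :
    ¬ HasMinor K33 G := no_k33' h3 ht h5 h8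

end Pool.Agent.BOND
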