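import Mathlib
import Pool.Agent.BOND.Defs

/-! # BOND, module Conn: API of connected sets -/

set_option autoImplicit false

namespace Pool.Agent.BOND

variable {V : Type}

theorem Con.single (G : SimpleGraph V) (v : V) : Con G {v} := by
  have : Nonempty ({v} : Set V) := ⟨⟨v, rfl⟩⟩
  have : Subsingleton ({v} : Set V) := by
    constructor
    rintro ⟨a, ha⟩ ⟨b, hb⟩
    exact Subtype.ext (ha.trans hb.symm)
  exact SimpleGraph.Connected.of_subsingleton

theorem Con.nonempty {G : SimpleGraph V} {S : Set V} (h : Con G S) : S.Nonempty :=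
  Set.nonempty_coe_sort.1 (SimpleGraph.Connected.nonempty h)

theorem Con.union {G : SimpleGraph V} {S T : Set V} (hS : Con G S) (hT : Con G T)
    (h : (S ∩ T).Nonempty) : Con G (S ∪ T) :=
  SimpleGraph.induce_union_connected hS.preconnected hT.preconnected h

theorem Con.union_nb {G : SimpleGraph V} {S T : Set V} (hS : Con G S) (hT : Con G T)
    (h : Nb G S T) : Con G (S ∪ T) := by
  obtain ⟨u, hu, v, hv, huv⟩ := h
  exact SimpleGraph.connected_induce_union hS.preconnected hT.preconnected hu hv huv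

theorem Nb.symm {G : SimpleGraph V} {S T : Set V} (h : Nb G S T) : Nb G T S := by
  obtain ⟨u, hu, v, hv, huv⟩ := h
  exact ⟨v, hv, u, hu, huv.symm⟩

theorem Nb.mono {G : SimpleGraph V} {S T S' T' : Set V} (h : Nb G S T) (hS : S ⊆ S')
    (hT : T ⊆ T') : Nb G S' T' := by
  obtain ⟨u, hu, v, hv, huv⟩ := h
  exact ⟨u, hS hu, v, hT hv, huv⟩

/-- a connected set is not the union of two nonempty sets without edges between them -/
theorem Con.nb_of_union {G : SimpleGraph V} {A C D : Set V} (h : Con G A) (hA : C ∪ D = A)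
    (hC : C.Nonempty) (hD : D.Nonempty) (hd : Disjoint C D) : Nb G C D := by
  obtain ⟨c, hc⟩ := hC
  obtain ⟨d, hd'⟩ := hD
  by_contra hn
  have hcA : c ∈ A := hA ▸ Or.inl hc
  have hdA : d ∈ A := hA ▸ Or.inr hd'
  have h1 := (SimpleGraph.reachable_iff_reflTransGen _ _).1 (h.preconnected ⟨c, hcA⟩ ⟨d, hdA⟩)
  have h2 : ∀ x : A, Relation.ReflTransGen (G.induce A).Adj ⟨c, hcA⟩ x → x.1 ∈ C := by
    intro x hx
    induction hx with
    | refl => exact hc
    | @tail y z _ hyz ih =>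
      have hz : z.1 ∈ C ∪ D := by rw [hA]; exact z.2
      rcases hz with hz | hz
      · exact hz
      · exact absurd ⟨y.1, ih, z.1, hz, hyz⟩ hn
  exact Set.disjoint_left.1 hd (h2 _ h1) hd'

/-- converse: characterisation of connectedness -/
theorem con_of_nb {G : SimpleGraph V} {A : Set V} (hn : A.Nonempty)
    (h : ∀ C D : Set V, C ∪ D = A → C.Nonempty → D.Nonempty → Disjoint C D → Nb G C D) :
    Con G A := by
  obtain ⟨v, hv⟩ := hn
  refine (SimpleGraph.connected_iff_exists_forall_reachable _).2 ⟨⟨v, hv⟩, ?_⟩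
  by_contra hcon
  push Not at hcon
  obtain ⟨w, hw⟩ := hcon
  set C : Set V := {x | ∃ hx : x ∈ A, (G.induce A).Reachable ⟨v, hv⟩ ⟨x, hx⟩} with hC
  have hCA : C ⊆ A := fun x hx => hx.1
  obtain ⟨a, ha, b, hb, hab⟩ := h C (A \ C) (Set.union_sdiff_cancel hCA)
    ⟨v, hv, SimpleGraph.Reachable.refl _⟩ ⟨w.1, w.2, fun hwC => hw hwC.2⟩ Set.disjoint_sdiff_right
  refine hb.2 ⟨hb.1, ha.2.trans (SimpleGraph.Adj.reachable ?_)⟩
  exact hab

theorem con_univ_iff {G : SimpleGraph V} : Con G Set.univ ↔ G.Connected :=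
  G.induceUnivIso.connected_iff

/-- the component of `y` in the set `A` -/
theorem conn_comp (G : SimpleGraph V) (A : Set V) {y : V} (hy : y ∈ A) :
    ∃ C, Con G C ∧ y ∈ C ∧ C ⊆ A ∧ ¬ Nb G C (A \ C) ∧ ∀ S, Con G S → y ∈ S → S ⊆ A → S ⊆ C := by
  set F : Set (Set V) := {S | Con G S ∧ y ∈ S ∧ S ⊆ A} with hF
  have h0 : ({y} : Set V) ∈ F := ⟨Con.single G y, rfl, Set.singleton_subset_iff.2 hy⟩
  have hC : Con G (⋃₀ F) :=
    SimpleGraph.induce_sUnion_connected_of_pairwise_not_disjoint ⟨_, h0⟩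
      (fun {s t} hs ht => ⟨y, hs.2.1, ht.2.1⟩) (fun {s} hs => hs.1)
  have hyC : y ∈ ⋃₀ F := ⟨_, h0, rfl⟩
  have hCA : ⋃₀ F ⊆ A := Set.sUnion_subset fun S hS => hS.2.2
  refine ⟨⋃₀ F, hC, hyC, hCA, ?_, fun S h1 h2 h3 x hx => ⟨S, ⟨h1, h2, h3⟩, hx⟩⟩
  rintro ⟨u, hu, v, hv, huv⟩
  refine hv.2 ⟨⋃₀ F ∪ {v}, ⟨hC.union_nb (Con.single G v) ⟨u, hu, v, rfl, huv⟩, Or.inl hyC,
    Set.union_subset hCA (Set.singleton_subset_iff.2 hv.1)⟩, Or.inr rfl⟩

/-- the component `C` of `y` in `A` minus the vertex `t`; the rest of `A` is connected -/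
theorem Con.branch {G : SimpleGraph V} {A : Set V} (h : Con G A) {t y : V} (ht : t ∈ A)
    (hy : y ∈ A) (hty : y ≠ t) :
    ∃ C, Con G C ∧ y ∈ C ∧ C ⊆ A \ {t} ∧ Con G (A \ C) ∧ ¬ Nb G C ((A \ C) \ {t}) ∧
      Nb G C {t} := by
  obtain ⟨C, h1, h2, h3, h4, -⟩ := conn_comp G (A \ {t}) (y := y) ⟨hy, hty⟩
  have h5 : (A \ C) \ {t} = (A \ {t}) \ C := by
    ext x
    simp only [Set.mem_sdiff, Set.mem_singleton_iff]
    tauto
  have h6 : ¬ Nb G C ((A \ C) \ {t}) := by rw [h5]; exact h4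
  have hCA : C ⊆ A := fun x hx => (h3 hx).1
  have htC : t ∉ C := fun h => (h3 h).2 rfl
  refine ⟨C, h1, h2, h3, ?_, h6, ?_⟩
  · have key : ∀ P Q : Set V, P ∪ Q = A \ C → P.Nonempty → Q.Nonempty → Disjoint P Q → t ∈ P →
        Nb G P Q := by
      intro P Q hPQ hP hQ hd htP
      have hQsub : Q ⊆ (A \ C) \ {t} := by
        intro x hx
        refine ⟨hPQ ▸ Or.inr hx, ?_⟩
        rintro rfl
        exact Set.disjoint_left.1 hd htP hx
      have hd' : Disjoint (C ∪ P) Q := by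
        rw [Set.disjoint_union_left]
        refine ⟨Set.disjoint_left.2 fun x hx hxQ => (hQsub hxQ).1.2 hx, hd⟩
      obtain ⟨u, hu, x, hx, hux⟩ := h.nb_of_union (C := C ∪ P) (D := Q) (by
        rw [Set.union_assoc, hPQ, Set.union_sdiff_cancel hCA]) (hP.mono Set.subset_union_right) hQ hd'
      rcases hu with hu | hu
      · exact absurd ⟨u, hu, x, hQsub hx, hux⟩ h6
      · exact ⟨u, hu, x, hx, hux⟩
    refine con_of_nb ⟨t, ht, htC⟩ fun P Q hPQ hP hQ hd => ?_
    have : t ∈ P ∪ Q := by rw [hPQ]; exact ⟨ht, htC⟩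
    rcases this with htP | htQ
    · exact key P Q hPQ hP hQ hd htP
    · exact (key Q P (by rw [Set.union_comm]; exact hPQ) hQ hP hd.symm htQ).symm
  · obtain ⟨u, hu, x, hx, hux⟩ := h.nb_of_union (Set.union_sdiff_cancel hCA) ⟨y, h2⟩ ⟨t, ht, htC⟩
      Set.disjoint_sdiff_right
    by_cases hxt : x = t
    · subst hxt
      exact ⟨u, hu, x, rfl, hux⟩
    · exact absurd ⟨u, hu, x, ⟨hx, hxt⟩, hux⟩ h6

/-- a connected set splits into two connected sets separating two given vertices -/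
theorem Con.split {G : SimpleGraph V} {A : Set V} (h : Con G A) {u v : V} (hu : u ∈ A)
    (hv : v ∈ A) (huv : u ≠ v) :
    ∃ C D, Con G C ∧ Con G D ∧ Disjoint C D ∧ C ∪ D = A ∧ u ∈ C ∧ v ∈ D := by
  obtain ⟨C, h1, h2, h3, h4, -, -⟩ := h.branch hu hv huv.symm
  exact ⟨A \ C, C, h4, h1, Set.disjoint_sdiff_left, Set.sdiff_union_of_subset
    (fun x hx => (h3 hx).1), ⟨hu, fun hC => (h3 hC).2 rfl⟩, h2⟩

/-- reachability after deleting a set, in terms of connected sets -/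
theorem reachable_dl_iff {G : SimpleGraph V} {T : Set V} {a b : V} (ha : a ∉ T) (hb : b ∉ T) :
    (dl G T).Reachable a b ↔ ∃ S, Con G S ∧ a ∈ S ∧ b ∈ S ∧ Disjoint S T := by
  constructor
  · intro h
    have key : ∀ x, Relation.ReflTransGen (dl G T).Adj a x →
        ∃ S, Con G S ∧ a ∈ S ∧ x ∈ S ∧ Disjoint S T := by
      intro x hx
      induction hx with
      | refl => exact ⟨{a}, Con.single G a, rfl, rfl, Set.disjoint_singleton_left.2 ha⟩
      | @tail y z _ hyz ih =>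
        obtain ⟨S, h1, h2, h3, h4⟩ := ih
        exact ⟨S ∪ {z}, h1.union_nb (Con.single G z) ⟨y, h3, z, rfl, hyz.1⟩, Or.inl h2, Or.inr rfl,
          Set.disjoint_union_left.2 ⟨h4, Set.disjoint_singleton_left.2 hyz.2.2⟩⟩
    exact key b ((SimpleGraph.reachable_iff_reflTransGen _ _).1 h)
  · rintro ⟨S, h1, h2, h3, h4⟩
    let φ : G.induce S →g dl G T := ⟨fun x => x.1, fun {x y} hxy =>
      ⟨hxy, Set.disjoint_left.1 h4 x.2, Set.disjoint_left.1 h4 y.2⟩⟩
    exact (h1.preconnected ⟨a, h2⟩ ⟨b, h3⟩).map φ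

/-- connectedness is invariant under injective maps which preserve and reflect adjacency on the set -/
theorem Con.image {U : Type} {G : SimpleGraph V} {H : SimpleGraph U} {S : Set V} (h : Con G S)
    (φ : V → U) (hφ : ∀ a ∈ S, ∀ b ∈ S, G.Adj a b → φ a = φ b ∨ H.Adj (φ a) (φ b)) :
    Con H (φ '' S) := by
  obtain ⟨s, hs⟩ := h.nonempty
  refine (SimpleGraph.connected_iff_exists_forall_reachable _).2 ⟨⟨φ s, s, hs, rfl⟩, ?_⟩
  have key : ∀ x : S, Relation.ReflTransGen (G.induce S).Adj ⟨s, hs⟩ x →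
      (H.induce (φ '' S)).Reachable ⟨φ s, s, hs, rfl⟩ ⟨φ x.1, x.1, x.2, rfl⟩ := by
    intro x hx
    induction hx with
    | refl => exact SimpleGraph.Reachable.refl _
    | @tail y z _ hyz ih =>
      refine ih.trans ?_
      rcases hφ y.1 y.2 z.1 z.2 hyz with h' | h'
      · have : (⟨φ y.1, y.1, y.2, rfl⟩ : (φ '' S : Set U)) = ⟨φ z.1, z.1, z.2, rfl⟩ := Subtype.ext h'
        rw [this]
      · exact SimpleGraph.Adj.reachable h'
  rintro ⟨w, x, hx, rfl⟩
  exact key ⟨x, hx⟩ ((SimpleGraph.reachable_iff_reflTransGen _ _).1 (h.preconnected ⟨s, hs⟩ ⟨x, hx⟩))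

/-- a connected set stays connected in a larger graph -/
theorem Con.mono_graph {G G' : SimpleGraph V} {S : Set V} (h : Con G S) (hle : G ≤ G') :
    Con G' S := by
  have := h.image (H := G') id fun a _ b _ hab => Or.inr (hle hab)
  rwa [Set.image_id] at this

end Pool.Agent.BOND
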