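import Mathlib
import Pool.Agent.BOND.Conn

/-! # BOND, module Min: minors -/

set_option autoImplicit false

namespace Pool.Agent.BOND

variable {V : Type}

/-- the union of adjacent connected sets over a connected set of indices is connected -/
theorem min_biUnion {κ : Type} {R : SimpleGraph κ} {G : SimpleGraph V} {S : Set κ} (hS : Con R S)
    (f : κ → Set V) (hf : ∀ k ∈ S, Con G (f k))
    (hadj : ∀ k ∈ S, ∀ l ∈ S, R.Adj k l → Nb G (f k) (f l)) : Con G (⋃ k ∈ S, f k) := by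
  obtain ⟨k0, hk0⟩ := hS.nonempty
  obtain ⟨v0, hv0⟩ := (hf k0 hk0).nonempty
  have hsub : ∀ k ∈ S, f k ⊆ ⋃ k ∈ S, f k := fun k hk => Set.subset_biUnion_of_mem hk
  refine con_of_nb ⟨v0, hsub k0 hk0 hv0⟩ fun C D hCD hC hD hdis => ?_
  by_contra hn
  have hdich : ∀ k ∈ S, f k ⊆ C ∨ f k ⊆ D := by
    intro k hk
    by_contra hcon
    push Not at hcon
    obtain ⟨h1, h2⟩ := hcon
    obtain ⟨a, ha, haC⟩ := Set.not_subset.1 h1
    obtain ⟨b, hb, hbD⟩ := Set.not_subset.1 h2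
    have haD : a ∈ D := by
      have : a ∈ C ∪ D := hCD ▸ hsub k hk ha
      exact this.resolve_left haC
    have hbC : b ∈ C := by
      have : b ∈ C ∪ D := hCD ▸ hsub k hk hb
      exact this.resolve_right hbD
    apply hn
    refine ((hf k hk).nb_of_union (C := f k ∩ C) (D := f k ∩ D) ?_ ⟨b, hb, hbC⟩ ⟨a, ha, haD⟩
      (hdis.mono Set.inter_subset_right Set.inter_subset_right)).mono
      Set.inter_subset_right Set.inter_subset_right
    rw [← Set.inter_union_distrib_left, hCD, Set.inter_eq_left]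
    exact hsub k hk
  obtain ⟨c, hc⟩ := hC
  obtain ⟨d, hd⟩ := hD
  have hcu : c ∈ ⋃ k ∈ S, f k := hCD ▸ Or.inl hc
  have hdu : d ∈ ⋃ k ∈ S, f k := hCD ▸ Or.inr hd
  obtain ⟨k, hk, hck⟩ := Set.mem_iUnion₂.1 hcu
  obtain ⟨l, hl, hdl⟩ := Set.mem_iUnion₂.1 hdu
  have hkC : f k ⊆ C := (hdich k hk).resolve_right fun h => Set.disjoint_left.1 hdis hc (h hck)
  have hlD : f l ⊆ D := (hdich l hl).resolve_left fun h => Set.disjoint_left.1 hdis (h hdl) hd
  obtain ⟨a, ha, b, hb, hab⟩ := hS.nb_of_union (C := {k | k ∈ S ∧ f k ⊆ C})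
    (D := {k | k ∈ S ∧ f k ⊆ D}) (by
      ext x
      constructor
      · rintro (h | h)
        · exact h.1
        · exact h.1
      · intro h
        rcases hdich x h with h' | h'
        · exact Or.inl ⟨h, h'⟩
        · exact Or.inr ⟨h, h'⟩) ⟨k, hk, hkC⟩ ⟨l, hl, hlD⟩ (by
      refine Set.disjoint_left.2 fun x h1 h2 => ?_
      obtain ⟨v, hv⟩ := (hf x h1.1).nonempty
      exact Set.disjoint_left.1 hdis (h1.2 hv) (h2.2 hv))
  exact hn ((hadj a ha.1 b hb.1 hab).mono ha.2 hb.2)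

/-- minors compose -/
theorem HasMinor.trans {ι κ : Type} {Q : SimpleGraph ι} {R : SimpleGraph κ} {G : SimpleGraph V}
    (h : HasMinor Q R) (h' : HasMinor R G) : HasMinor Q G := by
  obtain ⟨f, hf⟩ := h
  obtain ⟨f', hf'⟩ := h'
  refine ⟨fun i => ⋃ k ∈ f i, f' k, ⟨fun i => ?_, fun i j hij => ?_, fun i j hij => ?_⟩⟩
  · exact min_biUnion (hf.conn i) f' (fun k _ => hf'.conn k) fun k _ l _ hkl => hf'.adj k l hkl
  · rw [Set.disjoint_left]
    intro v hv hv'
    obtain ⟨k, hk, hvk⟩ := Set.mem_iUnion₂.1 hv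
    obtain ⟨l, hl, hvl⟩ := Set.mem_iUnion₂.1 hv'
    by_cases hkl : k = l
    · subst hkl
      exact Set.disjoint_left.1 (hf.disj i j hij) hk hl
    · exact Set.disjoint_left.1 (hf'.disj k l hkl) hvk hvl
  · obtain ⟨k, hk, l, hl, hkl⟩ := hf.adj i j hij
    exact (hf'.adj k l hkl).mono (Set.subset_biUnion_of_mem hk) (Set.subset_biUnion_of_mem hl)

/-- fewer edges in `Q`, more edges in `G` -/
theorem HasMinor.mono {ι : Type} {Q Q' : SimpleGraph ι} {G G' : SimpleGraph V} (hQ : Q' ≤ Q)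
    (hG : G ≤ G') (h : HasMinor Q G) : HasMinor Q' G' := by
  obtain ⟨f, hf⟩ := h
  refine ⟨f, ⟨fun i => (hf.conn i).mono_graph hG, hf.disj, fun i j hij => ?_⟩⟩
  obtain ⟨u, hu, v, hv, huv⟩ := hf.adj i j (hQ hij)
  exact ⟨u, hu, v, hv, hG huv⟩

/-- models can be enlarged to models covering a connected graph -/
theorem Mdl.cover [Finite V] {ι : Type} {Q : SimpleGraph ι} {G : SimpleGraph V} (hG : G.Connected)
    [Nonempty ι] {f : ι → Set V} (h : Mdl Q G f) :
    ∃ g : ι → Set V, Mdl Q G g ∧ (∀ i, f i ⊆ g i) ∧ ∀ v, ∃ i, v ∈ g i := by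
  classical
  have hex : ∃ n : ℕ, ∃ g : ι → Set V, Mdl Q G g ∧ (∀ i, f i ⊆ g i) ∧ ((⋃ i, g i)ᶜ).ncard = n :=
    ⟨_, f, h, fun i => subset_rfl, rfl⟩
  obtain ⟨g, hg, hfg, hn⟩ := Nat.find_spec hex
  refine ⟨g, hg, hfg, ?_⟩
  by_contra hcon
  push Not at hcon
  obtain ⟨w, hw⟩ := hcon
  have hU : Con G Set.univ := con_univ_iff.2 hG
  obtain ⟨i0⟩ := ‹Nonempty ι›
  obtain ⟨v0, hv0⟩ := (hg.conn i0).nonempty
  obtain ⟨u, hu, v, hv, huv⟩ := hU.nb_of_union (C := ⋃ i, g i) (D := (⋃ i, g i)ᶜ)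
    (Set.union_compl_self _) ⟨v0, Set.mem_iUnion.2 ⟨i0, hv0⟩⟩
    ⟨w, fun hw' => by
      obtain ⟨i, hi⟩ := Set.mem_iUnion.1 hw'
      exact hw i hi⟩ disjoint_compl_right
  obtain ⟨i, hi⟩ := Set.mem_iUnion.1 hu
  have hvg : ∀ j, v ∉ g j := fun j hj => hv (Set.mem_iUnion.2 ⟨j, hj⟩)
  set g' : ι → Set V := Function.update g i (g i ∪ {v}) with hg'
  have hgi : g' i = g i ∪ {v} := Function.update_self _ _ _
  have hgj : ∀ j, j ≠ i → g' j = g j := fun j hj => Function.update_of_ne hj _ _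
  have hle : ∀ j, g j ⊆ g' j := by
    intro j
    by_cases hj : j = i
    · subst hj
      rw [hgi]
      exact Set.subset_union_left
    · rw [hgj j hj]
  have hmdl : Mdl Q G g' := by
    refine ⟨fun j => ?_, ?_, fun j k hjk => (hg.adj j k hjk).mono (hle j) (hle k)⟩
    · by_cases hj : j = i
      · subst hj
        rw [hgi]
        exact (hg.conn j).union_nb (Con.single G v) ⟨u, hi, v, rfl, huv⟩
      · rw [hgj j hj]
        exact hg.conn j
    · have key : ∀ k, k ≠ i → Disjoint (g' i) (g' k) := by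
        intro k hk
        rw [hgi, hgj k hk, Set.disjoint_union_left]
        exact ⟨hg.disj i k hk.symm, Set.disjoint_singleton_left.2 (hvg k)⟩
      intro j k hjk
      by_cases hj : j = i
      · subst hj
        exact key k hjk.symm
      · by_cases hk : k = i
        · subst hk
          exact (key j hj).symm
        · rw [hgj j hj, hgj k hk]
          exact hg.disj j k hjk
  have hlt : ((⋃ i, g' i)ᶜ).ncard < ((⋃ i, g i)ᶜ).ncard := by
    refine Set.ncard_lt_ncard ?_ (Set.toFinite _)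
    refine ⟨Set.compl_subset_compl.2 (Set.iUnion_mono hle), fun hsub => ?_⟩
    exact (hsub hv) (Set.mem_iUnion.2 ⟨i, by rw [hgi]; exact Or.inr rfl⟩)
  rw [hn] at hlt
  exact Nat.find_min hex hlt ⟨g', hmdl, fun j => (hfg j).trans (hle j), rfl⟩

end Pool.Agent.BOND
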