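import Mathlib
import Pool.Agent.BOND.Min

/-! # BOND, module Ctr1: contractions are minors -/

set_option autoImplicit false

namespace Pool.Agent.BOND

variable {V : Type}

/-- the lift of a set of vertices of the contraction -/
private def ctrLift {x y : V} (hxy : x ≠ y) (S : Set {v : V // v ≠ y}) : Set V :=
  {v | (∃ h : v ≠ y, (⟨v, h⟩ : {v : V // v ≠ y}) ∈ S) ∨
    (v = y ∧ (⟨x, hxy⟩ : {v : V // v ≠ y}) ∈ S)}

private theorem ctrLift_con {G : SimpleGraph V} {x y : V} (h : G.Adj x y)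
    {S : Set {v : V // v ≠ y}} (hS : Con (ctr G x y) S) : Con G (ctrLift h.ne S) := by
  apply con_of_nb
  · obtain ⟨u, hu⟩ := hS.nonempty
    exact ⟨u.1, Or.inl ⟨u.2, hu⟩⟩
  · intro C D hCD hC hD hd
    have hy : ∀ v ∈ C ∪ D, (∃ h : v ≠ y, (⟨v, h⟩ : {v : V // v ≠ y}) ∈ S) ∨
        (v = y ∧ (⟨x, h.ne⟩ : {v : V // v ≠ y}) ∈ S) := by
      intro v hv
      rw [hCD] at hv
      exact hv
    have hmem : ∀ u : {v : V // v ≠ y}, u ∈ S → u.1 ∈ C ∨ u.1 ∈ D := by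
      intro u hu
      have : u.1 ∈ C ∪ D := by
        rw [hCD]
        exact Or.inl ⟨u.2, hu⟩
      exact this
    have hymem : (⟨x, h.ne⟩ : {v : V // v ≠ y}) ∈ S → y ∈ C ∨ y ∈ D := by
      intro hx
      have : y ∈ C ∪ D := by
        rw [hCD]
        exact Or.inr ⟨rfl, hx⟩
      exact this
    by_cases hC' : ∃ u : {v : V // v ≠ y}, u ∈ S ∧ u.1 ∈ C
    · by_cases hD' : ∃ u : {v : V // v ≠ y}, u ∈ S ∧ u.1 ∈ D
      · have hnb : Nb (ctr G x y) {u | u ∈ S ∧ u.1 ∈ C} {u | u ∈ S ∧ u.1 ∈ D} := by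
          apply hS.nb_of_union
          · ext u
            constructor
            · rintro (hu | hu)
              · exact hu.1
              · exact hu.1
            · intro hu
              rcases hmem u hu with h1 | h1
              · exact Or.inl ⟨hu, h1⟩
              · exact Or.inr ⟨hu, h1⟩
          · obtain ⟨u, hu⟩ := hC'
            exact ⟨u, hu⟩
          · obtain ⟨u, hu⟩ := hD'
            exact ⟨u, hu⟩
          · rw [Set.disjoint_left]
            intro u hu hu'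
            exact Set.disjoint_left.1 hd hu.2 hu'.2
        obtain ⟨u, ⟨hu1, hu2⟩, v, ⟨hv1, hv2⟩, hne, hadj⟩ := hnb
        rcases hadj with hadj | ⟨hux, hadj⟩ | ⟨hvx, hadj⟩
        · exact ⟨u.1, hu2, v.1, hv2, hadj⟩
        · have hx : (⟨x, h.ne⟩ : {v : V // v ≠ y}) ∈ S := by
            have : u = ⟨x, h.ne⟩ := Subtype.ext hux
            rwa [← this]
          rcases hymem hx with h1 | h1
          · exact ⟨y, h1, v.1, hv2, hadj⟩
          · exact ⟨u.1, hu2, y, h1, by rw [hux]; exact h⟩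
        · have hx : (⟨x, h.ne⟩ : {v : V // v ≠ y}) ∈ S := by
            have : v = ⟨x, h.ne⟩ := Subtype.ext hvx
            rwa [← this]
          rcases hymem hx with h1 | h1
          · exact ⟨y, h1, v.1, hv2, by rw [hvx]; exact h.symm⟩
          · exact ⟨u.1, hu2, y, h1, hadj⟩
      · obtain ⟨d, hdD⟩ := hD
        rcases hy d (Or.inr hdD) with ⟨h1, h2⟩ | ⟨h1, h2⟩
        · exact absurd ⟨⟨d, h1⟩, h2, hdD⟩ hD'
        · rcases hmem _ h2 with h3 | h3
          · exact ⟨x, h3, d, hdD, by rw [h1]; exact h⟩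
          · exact absurd ⟨_, h2, h3⟩ hD'
    · obtain ⟨c, hcC⟩ := hC
      rcases hy c (Or.inl hcC) with ⟨h1, h2⟩ | ⟨h1, h2⟩
      · exact absurd ⟨⟨c, h1⟩, h2, hcC⟩ hC'
      · rcases hmem _ h2 with h3 | h3
        · exact absurd ⟨_, h2, h3⟩ hC'
        · exact ⟨c, hcC, x, h3, by rw [h1]; exact h.symm⟩

theorem ctr_minor {ι : Type} {Q : SimpleGraph ι} {G : SimpleGraph V} {x y : V} (h : G.Adj x y)
    (hm : HasMinor Q (ctr G x y)) : HasMinor Q G := by
  obtain ⟨f, hf⟩ := hm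
  refine ⟨fun i => ctrLift h.ne (f i), ⟨fun i => ctrLift_con h (hf.conn i), ?_, ?_⟩⟩
  · intro i j hij
    rw [Set.disjoint_left]
    rintro v (⟨h1, h2⟩ | ⟨h1, h2⟩) (⟨h3, h4⟩ | ⟨h3, h4⟩)
    · exact Set.disjoint_left.1 (hf.disj i j hij) h2 h4
    · exact h1 h3
    · exact h3 h1
    · exact Set.disjoint_left.1 (hf.disj i j hij) h2 h4
  · intro i j hij
    obtain ⟨u, hu, v, hv, hne, hadj⟩ := hf.adj i j hij
    rcases hadj with hadj | ⟨hux, hadj⟩ | ⟨hvx, hadj⟩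
    · exact ⟨u.1, Or.inl ⟨u.2, hu⟩, v.1, Or.inl ⟨v.2, hv⟩, hadj⟩
    · have hx : (⟨x, h.ne⟩ : {v : V // v ≠ y}) ∈ f i := by
        have : u = ⟨x, h.ne⟩ := Subtype.ext hux
        rwa [← this]
      exact ⟨y, Or.inr ⟨rfl, hx⟩, v.1, Or.inl ⟨v.2, hv⟩, hadj⟩
    · have hx : (⟨x, h.ne⟩ : {v : V // v ≠ y}) ∈ f j := by
        have : v = ⟨x, h.ne⟩ := Subtype.ext hvx
        rwa [← this]
      exact ⟨u.1, Or.inl ⟨u.2, hu⟩, y, Or.inr ⟨rfl, hx⟩, hadj⟩

end Pool.Agent.BOND
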