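import Mathlib
import Pool.Agent.BOND.Conn

/-! # BOND, module C3A: API of 3-connected graphs -/

set_option autoImplicit false

namespace Pool.Agent.BOND

variable {V : Type}

theorem C3.con1 [Fintype V] {G : SimpleGraph V} (h : C3 G) (a : V) : Con G {v | v ≠ a} := by
  simpa using h.conn a a

/-- in a 3-connected graph there is a vertex different from three given ones -/
theorem c3a_exists_ne3 [Fintype V] {G : SimpleGraph V} (h : C3 G) (a b c : V) :
    ∃ v, v ≠ a ∧ v ≠ b ∧ v ≠ c := by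
  classical
  by_contra hcon
  push Not at hcon
  have h1 : (Finset.univ : Finset V) ⊆ {a, b, c} := by
    intro v _
    by_cases ha : v = a
    · simp [ha]
    · by_cases hb : v = b
      · simp [hb]
      · simp [hcon v ha hb]
  have h2 := Finset.card_le_card h1
  have h3 : ({a, b, c} : Finset V).card ≤ 3 := Finset.card_le_three
  have h4 := h.card
  rw [Finset.card_univ] at h2
  omega

theorem C3.connected [Fintype V] {G : SimpleGraph V} (h : C3 G) : G.Connected := by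
  have hne : Nonempty V := Fintype.card_pos_iff.1 (by have := h.card; omega)
  obtain ⟨a⟩ := hne
  obtain ⟨b, hb, -, -⟩ := c3a_exists_ne3 h a a a
  obtain ⟨c, hc, hc', -⟩ := c3a_exists_ne3 h a b b
  have h1 := (h.con1 a).union (h.con1 b) ⟨c, hc, hc'⟩
  have h2 : ({v | v ≠ a} ∪ {v | v ≠ b} : Set V) = Set.univ := by
    ext v
    simp only [Set.mem_union, Set.mem_ofPred_eq, Set.mem_univ, iff_true]
    by_cases hv : v = a
    · right
      rw [hv]
      exact hb.symm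
    · exact Or.inl hv
  rw [h2] at h1
  exact con_univ_iff.1 h1

theorem C3.mono [Fintype V] {G G' : SimpleGraph V} (h : C3 G) (hle : G ≤ G') : C3 G' :=
  ⟨h.card, fun a b => (h.conn a b).mono_graph hle⟩

/-- the main consequence of 3-connectivity -/
theorem C3.nb [Fintype V] {G : SimpleGraph V} (h : C3 G) {X Y : Set V} {a b : V}
    (hd : Disjoint X Y) (hc : X ∪ Y = {v | v ≠ a ∧ v ≠ b}) (hX : X.Nonempty) (hY : Y.Nonempty) :
    Nb G X Y := (h.conn a b).nb_of_union hc hX hY hd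

/-- a vertex has a neighbour different from two given other vertices -/
theorem c3a_nbr [Fintype V] {G : SimpleGraph V} (h : C3 G) (v a b : V) (ha : a ≠ v) (hb : b ≠ v) :
    ∃ c, c ≠ a ∧ c ≠ b ∧ G.Adj v c := by
  obtain ⟨u, hu, w, hw, huw⟩ := h.nb (X := {v}) (Y := {w | w ≠ v ∧ w ≠ a ∧ w ≠ b}) (a := a) (b := b)
    (Set.disjoint_singleton_left.2 fun h => h.1 rfl) (by
      ext w
      simp only [Set.mem_union, Set.mem_singleton_iff, Set.mem_ofPred_eq]
      constructor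
      · rintro (rfl | h)
        · exact ⟨ha.symm, hb.symm⟩
        · exact h.2
      · intro h
        by_cases hw : w = v
        · exact Or.inl hw
        · exact Or.inr ⟨hw, h⟩) ⟨v, rfl⟩ (by
      obtain ⟨w, hw⟩ := c3a_exists_ne3 h v a b
      exact ⟨w, hw⟩)
  rw [Set.mem_singleton_iff.1 hu] at huw
  exact ⟨w, hw.2.1, hw.2.2, huw⟩

theorem C3.deg [Fintype V] {G : SimpleGraph V} (h : C3 G) (v : V) :
    ∃ a b c, a ≠ b ∧ b ≠ c ∧ a ≠ c ∧ G.Adj v a ∧ G.Adj v b ∧ G.Adj v c := by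
  obtain ⟨w, hw, -, -⟩ := c3a_exists_ne3 h v v v
  obtain ⟨a, -, -, ha⟩ := c3a_nbr h v w w hw hw
  obtain ⟨b, hba, -, hb⟩ := c3a_nbr h v a a ha.ne' ha.ne'
  obtain ⟨c, hca, hcb, hc⟩ := c3a_nbr h v a b ha.ne' hb.ne'
  exact ⟨a, b, c, hba.symm, hcb.symm, hca.symm, ha, hb, hc⟩

/-- a crossing edge different from two given crossing pairs -/
theorem c3a_cross [Fintype V] {G : SimpleGraph V} (h : C3 G) {X : Set V} {p q r t : V}
    (hp : p ∈ X) (hq : q ∉ X) (hr : r ∈ X) (ht : t ∉ X) :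
    ∃ u ∈ X, ∃ v ∈ Xᶜ, G.Adj u v ∧ s(u, v) ≠ s(p, q) ∧ s(u, v) ≠ s(r, t) := by
  have key : ∀ a b : V, (a = p ∨ a = q) → (b = r ∨ b = t) → (∃ x ∈ X, x ≠ a ∧ x ≠ b) →
      (∃ y ∈ Xᶜ, y ≠ a ∧ y ≠ b) →
      ∃ u ∈ X, ∃ v ∈ Xᶜ, G.Adj u v ∧ s(u, v) ≠ s(p, q) ∧ s(u, v) ≠ s(r, t) := by
    intro a b ha hb hx hy
    obtain ⟨u, hu, v, hv, huv⟩ := h.nb (X := {x | x ∈ X ∧ x ≠ a ∧ x ≠ b})
      (Y := {x | x ∈ Xᶜ ∧ x ≠ a ∧ x ≠ b}) (a := a) (b := b)
      (Set.disjoint_left.2 fun x h1 h2 => h2.1 h1.1) (by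
        ext x
        simp only [Set.mem_union, Set.mem_ofPred_eq, Set.mem_compl_iff]
        tauto) hx hy
    refine ⟨u, hu.1, v, hv.1, huv, ?_, ?_⟩
    · intro he
      rw [Sym2.eq_iff] at he
      rcases he with ⟨h1, h2⟩ | ⟨h1, h2⟩
      · rcases ha with rfl | rfl
        · exact hu.2.1 h1
        · exact hv.2.1 h2
      · exact hq (h1 ▸ hu.1)
    · intro he
      rw [Sym2.eq_iff] at he
      rcases he with ⟨h1, h2⟩ | ⟨h1, h2⟩
      · rcases hb with rfl | rfl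
        · exact hu.2.2 h1
        · exact hv.2.2 h2
      · exact ht (h1 ▸ hu.1)
  by_cases h1 : ∃ x ∈ X, x ≠ p ∧ x ≠ r
  · exact key p r (Or.inl rfl) (Or.inl rfl) h1 ⟨q, hq, fun h => hq (h ▸ hp), fun h => hq (h ▸ hr)⟩
  · by_cases h2 : ∃ y ∈ Xᶜ, y ≠ q ∧ y ≠ t
    · exact key q t (Or.inr rfl) (Or.inr rfl)
        ⟨p, hp, fun h => hq (h ▸ hp), fun h => ht (h ▸ hp)⟩ h2
    · push Not at h1 h2
      have hpr : p ≠ r := by
        rintro rfl
        obtain ⟨v, hv1, hv2, hv3⟩ := c3a_exists_ne3 h p q t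
        by_cases hvX : v ∈ X
        · exact hv1 (h1 v hvX hv1)
        · exact hv3 (h2 v hvX hv2)
      have hqt : q ≠ t := by
        rintro rfl
        obtain ⟨v, hv1, hv2, hv3⟩ := c3a_exists_ne3 h q p r
        by_cases hvX : v ∈ X
        · exact hv3 (h1 v hvX hv2)
        · exact hv1 (h2 v hvX hv1)
      exact key p t (Or.inl rfl) (Or.inr rfl) ⟨r, hr, hpr.symm, fun h => ht (h ▸ hr)⟩
        ⟨q, hq, fun h => hq (h ▸ hp), hqt⟩

/-- every cut has at least three edges -/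
theorem C3.bond3 [Fintype V] {G : SimpleGraph V} (h : C3 G) {X : Set V} (hX : X.Nonempty)
    (hX' : Xᶜ.Nonempty) (e₁ e₂ : Sym2 V) :
    ∃ u ∈ X, ∃ v ∈ Xᶜ, G.Adj u v ∧ s(u, v) ≠ e₁ ∧ s(u, v) ≠ e₂ := by
  obtain ⟨x, hx⟩ := hX
  obtain ⟨y, hy⟩ := hX'
  have key : ∀ e : Sym2 V, ∃ p ∈ X, ∃ q, q ∉ X ∧ ∀ u ∈ X, ∀ v ∈ Xᶜ, s(u, v) ≠ s(p, q) →
      s(u, v) ≠ e := by
    intro e
    by_cases he : ∃ p ∈ X, ∃ q ∈ Xᶜ, s(p, q) = e
    · obtain ⟨p, hp, q, hq, he⟩ := he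
      exact ⟨p, hp, q, hq, fun u _ v _ h => he ▸ h⟩
    · exact ⟨x, hx, y, hy, fun u hu v hv _ h => he ⟨u, hu, v, hv, h⟩⟩
  obtain ⟨p, hp, q, hq, h1⟩ := key e₁
  obtain ⟨r, hr, t, ht, h2⟩ := key e₂
  obtain ⟨u, hu, v, hv, huv, h3, h4⟩ := c3a_cross h hp hq hr ht
  exact ⟨u, hu, v, hv, huv, h1 u hu v hv h3, h2 u hu v hv h4⟩

/-- if `B` is a union of components of `G - {x,y,z}` in a tame graph, the rest is connected -/
theorem Tame.con_rest {G : SimpleGraph V} (ht : Tame G) {x y z : V} (hxy : x ≠ y) (hyz : y ≠ z)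
    (hxz : x ≠ z) {B R : Set V} (hB : B.Nonempty) (hR : R.Nonempty) (hd : Disjoint B R)
    (hc : B ∪ R = {v | v ≠ x ∧ v ≠ y ∧ v ≠ z}) (hn : ¬ Nb G B R) : Con G R := by
  have hout : ∀ v ∈ B ∪ R, v ∉ ({x, y, z} : Set V) := by
    intro v hv
    rw [hc] at hv
    simp only [Set.mem_insert_iff, Set.mem_singleton_iff, not_or]
    exact hv
  have hsep : ∀ S : Set V, Con G S → Disjoint S {x, y, z} → ∀ r ∈ R, r ∈ S → S ⊆ R := by
    intro S hS hdS r hr hrS s hs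
    have hsub : S ⊆ B ∪ R := by
      intro v hv
      rw [hc]
      have := Set.disjoint_left.1 hdS hv
      simp only [Set.mem_insert_iff, Set.mem_singleton_iff, not_or] at this
      exact this
    by_contra hsR
    have hsB : s ∈ B := (hsub hs).resolve_right hsR
    apply hn
    refine (hS.nb_of_union (C := S ∩ B) (D := S ∩ R) ?_ ⟨s, hs, hsB⟩ ⟨r, hrS, hr⟩ ?_).mono
      Set.inter_subset_right Set.inter_subset_right
    · rw [← Set.inter_union_distrib_left, Set.inter_eq_left]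
      exact hsub
    · exact hd.mono Set.inter_subset_right Set.inter_subset_right
  obtain ⟨a, ha⟩ := hB
  have key : ∀ b ∈ R, ∀ c ∈ R, ∃ S, Con G S ∧ b ∈ S ∧ c ∈ S ∧ S ⊆ R := by
    intro b hb c hc'
    have hna : ∀ r ∈ R, ¬ (dl G {x, y, z}).Reachable a r := by
      intro r hr hreach
      obtain ⟨S, h1, h2, h3, h4⟩ := (reachable_dl_iff (hout a (Or.inl ha))
        (hout r (Or.inr hr))).1 hreach
      exact Set.disjoint_left.1 hd ha (hsep S h1 h4 r hr h3 h2)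
    rcases ht x y z hxy hyz hxz a b c (hout a (Or.inl ha)) (hout b (Or.inr hb))
      (hout c (Or.inr hc')) with h | h | h
    · exact absurd h (hna b hb)
    · obtain ⟨S, h1, h2, h3, h4⟩ := (reachable_dl_iff (hout b (Or.inr hb))
        (hout c (Or.inr hc'))).1 h
      exact ⟨S, h1, h2, h3, hsep S h1 h4 b hb h2⟩
    · exact absurd h (hna c hc')
  refine con_of_nb hR fun C D hCD hC hD hdis => ?_
  obtain ⟨c, hc'⟩ := hC
  obtain ⟨d, hd'⟩ := hD
  obtain ⟨S, h1, h2, h3, h4⟩ := key c (hCD ▸ Or.inl hc') d (hCD ▸ Or.inr hd')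
  refine (h1.nb_of_union (C := S ∩ C) (D := S ∩ D) ?_ ⟨c, h2, hc'⟩ ⟨d, h3, hd'⟩ ?_).mono
    Set.inter_subset_right Set.inter_subset_right
  · rw [← Set.inter_union_distrib_left, hCD, Set.inter_eq_left]
    exact h4
  · exact hdis.mono Set.inter_subset_right Set.inter_subset_right

end Pool.Agent.BOND
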