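import Mathlib
import Pool.Agent.BOND.C3A

/-! # BOND, module Ctr2: Thomassen lemma: a contractible edge -/

set_option autoImplicit false

namespace Pool.Agent.BOND

variable {V : Type}

open Classical in
private theorem ctr2_c3 [Fintype V] {G : SimpleGraph V} (h3 : C3 G) (h5 : 5 ≤ Fintype.card V)
    {x y : V} (hxy : G.Adj x y)
    (h : ∀ z, z ≠ x → z ≠ y → Con G {v | v ≠ x ∧ v ≠ y ∧ v ≠ z}) : C3 (ctr G x y) := by
  let φ : V → {v : V // v ≠ y} := fun v => if hv : v = y then ⟨x, hxy.ne⟩ else ⟨v, hv⟩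
  have φy : φ y = ⟨x, hxy.ne⟩ := by simp [φ]
  have φn : ∀ v (hv : v ≠ y), φ v = ⟨v, hv⟩ := fun v hv => by simp [φ, hv]
  have hφ : ∀ a b, G.Adj a b → φ a = φ b ∨ (ctr G x y).Adj (φ a) (φ b) := by
    intro a b hab
    by_cases hne : φ a = φ b
    · exact Or.inl hne
    right
    refine ⟨hne, ?_⟩
    by_cases ha : a = y
    · subst ha
      have hb : b ≠ a := hab.ne'
      rw [φy, φn b hb]
      exact Or.inr (Or.inl ⟨rfl, hab⟩)
    · by_cases hb : b = y
      · subst hb
        rw [φy, φn a ha]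
        exact Or.inr (Or.inr ⟨rfl, hab⟩)
      · rw [φn a ha, φn b hb]
        exact Or.inl hab
  refine ⟨?_, ?_⟩
  · rw [Fintype.card_subtype_compl, Fintype.card_subtype_eq]
    omega
  · intro a b
    have key : ∀ S : Set V, Con G S → φ '' S = {v | v ≠ a ∧ v ≠ b} →
        Con (ctr G x y) {v | v ≠ a ∧ v ≠ b} := by
      intro S hS he
      rw [← he]
      exact hS.image φ (fun a _ b _ hab => hφ a b hab)
    by_cases ha : a.1 = x
    · by_cases hb : b.1 = x
      · apply key {v | v ≠ x ∧ v ≠ y} (h3.conn x y)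
        ext u
        simp only [Set.mem_image, Set.mem_setOf_eq]
        constructor
        · rintro ⟨v, ⟨h1, h2⟩, rfl⟩
          rw [φn v h2]
          exact ⟨fun h => h1 ((congrArg Subtype.val h).trans ha),
            fun h => h1 ((congrArg Subtype.val h).trans hb)⟩
        · rintro ⟨h1, h2⟩
          refine ⟨u.1, ⟨fun h => h1 (Subtype.ext (h.trans ha.symm)), u.2⟩, φn u.1 u.2⟩
      · apply key {v | v ≠ x ∧ v ≠ y ∧ v ≠ b.1} (h b.1 hb b.2)
        ext u
        simp only [Set.mem_image, Set.mem_setOf_eq]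
        constructor
        · rintro ⟨v, ⟨h1, h2, h3⟩, rfl⟩
          rw [φn v h2]
          exact ⟨fun h => h1 ((congrArg Subtype.val h).trans ha),
            fun h => h3 (congrArg Subtype.val h)⟩
        · rintro ⟨h1, h2⟩
          refine ⟨u.1, ⟨fun h => h1 (Subtype.ext (h.trans ha.symm)), u.2,
            fun h => h2 (Subtype.ext h)⟩, φn u.1 u.2⟩
    · by_cases hb : b.1 = x
      · apply key {v | v ≠ x ∧ v ≠ y ∧ v ≠ a.1} (h a.1 ha a.2)
        ext u
        simp only [Set.mem_image, Set.mem_setOf_eq]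
        constructor
        · rintro ⟨v, ⟨h1, h2, h3⟩, rfl⟩
          rw [φn v h2]
          exact ⟨fun h => h3 (congrArg Subtype.val h),
            fun h => h1 ((congrArg Subtype.val h).trans hb)⟩
        · rintro ⟨h1, h2⟩
          refine ⟨u.1, ⟨fun h => h2 (Subtype.ext (h.trans hb.symm)), u.2,
            fun h => h1 (Subtype.ext h)⟩, φn u.1 u.2⟩
      · apply key {v | v ≠ a.1 ∧ v ≠ b.1} (h3.conn a.1 b.1)
        ext u
        simp only [Set.mem_image, Set.mem_setOf_eq]
        constructor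
        · rintro ⟨v, ⟨h1, h2⟩, rfl⟩
          by_cases hv : v = y
          · subst hv
            rw [φy]
            exact ⟨fun h => ha (congrArg Subtype.val h).symm,
              fun h => hb (congrArg Subtype.val h).symm⟩
          · rw [φn v hv]
            exact ⟨fun h => h1 (congrArg Subtype.val h), fun h => h2 (congrArg Subtype.val h)⟩
        · rintro ⟨h1, h2⟩
          exact ⟨u.1, ⟨fun h => h1 (Subtype.ext h), fun h => h2 (Subtype.ext h)⟩, φn u.1 u.2⟩

open Classical in
private theorem ctr2_ne [Fintype V] (h5 : 5 ≤ Fintype.card V) (a b c : V) :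
    ({v | v ≠ a ∧ v ≠ b ∧ v ≠ c} : Set V).Nonempty := by
  by_contra hcon
  rw [Set.not_nonempty_iff_eq_empty, Set.eq_empty_iff_forall_notMem] at hcon
  have h1 : (Finset.univ : Finset V) ⊆ {a, b, c} := by
    intro v _
    have := hcon v
    simp only [Set.mem_setOf_eq, not_and, not_not] at this
    simp only [Finset.mem_insert, Finset.mem_singleton]
    by_cases h1 : v = a
    · exact Or.inl h1
    · by_cases h2 : v = b
      · exact Or.inr (Or.inl h2)
      · exact Or.inr (Or.inr (this h1 h2))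
  have h2 := Finset.card_le_card h1
  have h3 : ({a, b, c} : Finset V).card ≤ 3 := Finset.card_le_three
  rw [Finset.card_univ] at h2
  omega

private theorem ctr2_main [Fintype V] {G : SimpleGraph V} (h3 : C3 G) (h5 : 5 ≤ Fintype.card V)
    (hno : ∀ x y, G.Adj x y → ∃ z, z ≠ x ∧ z ≠ y ∧ ¬ Con G {v | v ≠ x ∧ v ≠ y ∧ v ≠ z}) :
    ∀ (n : ℕ) (x y z : V) (D E : Set V), G.Adj x y → z ≠ x → z ≠ y → D.Nonempty → E.Nonempty →
      Disjoint D E → D ∪ E = {v | v ≠ x ∧ v ≠ y ∧ v ≠ z} → ¬ Nb G D E → D.ncard = n → False := by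
  intro n
  induction n using Nat.strong_induction_on with
  | _ n ih =>
    intro x y z D E hxy hzx hzy hD hE hdis hcov hnb hn
    have hDm : ∀ v ∈ D, v ≠ x ∧ v ≠ y ∧ v ≠ z := by
      intro v hv
      have : v ∈ D ∪ E := Or.inl hv
      rw [hcov] at this
      exact this
    have hEm : ∀ v ∈ E, v ≠ x ∧ v ≠ y ∧ v ≠ z := by
      intro v hv
      have : v ∈ D ∪ E := Or.inr hv
      rw [hcov] at this
      exact this
    have hmem : ∀ v, v ≠ x → v ≠ y → v ≠ z → v ∈ D ∨ v ∈ E := by
      intro v h1 h2 h3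
      have : v ∈ D ∪ E := by
        rw [hcov]
        exact ⟨h1, h2, h3⟩
      exact this
    -- a neighbour `v` of `z` in `D`
    obtain ⟨v, hvD, hvz⟩ : ∃ v ∈ D, G.Adj v z := by
      have h1 : Nb G D (E ∪ {z}) := by
        apply h3.nb (a := x) (b := y)
        · rw [Set.disjoint_left]
          rintro u hu (hu' | hu')
          · exact Set.disjoint_left.1 hdis hu hu'
          · exact (hDm u hu).2.2 hu'
        · ext u
          simp only [Set.mem_union, Set.mem_singleton_iff, Set.mem_setOf_eq]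
          constructor
          · rintro (hu | hu | hu)
            · exact ⟨(hDm u hu).1, (hDm u hu).2.1⟩
            · exact ⟨(hEm u hu).1, (hEm u hu).2.1⟩
            · rw [hu]
              exact ⟨hzx, hzy⟩
          · rintro ⟨h1, h2⟩
            by_cases h4 : u = z
            · exact Or.inr (Or.inr h4)
            · rcases hmem u h1 h2 h4 with h | h
              · exact Or.inl h
              · exact Or.inr (Or.inl h)
        · exact hD
        · obtain ⟨e, he⟩ := hE
          exact ⟨e, Or.inl he⟩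
      obtain ⟨a, ha, b, hb, hab⟩ := h1
      rcases hb with hb | hb
      · exact absurd ⟨a, ha, b, hb, hab⟩ hnb
      · rw [Set.mem_singleton_iff] at hb
        exact ⟨a, ha, hb ▸ hab⟩
    obtain ⟨w, hwz, hwv, hncon⟩ := hno z v hvz.symm
    obtain ⟨C1, C2, hC12, hC1, hC2, hCd, hCn⟩ : ∃ C1 C2 : Set V,
        C1 ∪ C2 = {u | u ≠ z ∧ u ≠ v ∧ u ≠ w} ∧ C1.Nonempty ∧ C2.Nonempty ∧ Disjoint C1 C2 ∧
          ¬ Nb G C1 C2 := by
      by_contra hcon
      push Not at hcon
      exact hncon (con_of_nb (ctr2_ne h5 z v w) hcon)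
    -- one of the two sides contains neither `x` nor `y`
    have hside : ∀ A B : Set V, A ∪ B = {u | u ≠ z ∧ u ≠ v ∧ u ≠ w} → A.Nonempty → B.Nonempty →
        Disjoint A B → ¬ Nb G A B → x ∉ B → y ∉ B → False := by
      intro A B hAB hA hB hd hnAB hxB hyB
      have hBm : ∀ u ∈ B, u ≠ z ∧ u ≠ v ∧ u ≠ w := by
        intro u hu
        have : u ∈ A ∪ B := Or.inr hu
        rw [hAB] at this
        exact this
      have hAm : ∀ u ∈ A, u ≠ z ∧ u ≠ v ∧ u ≠ w := by
        intro u hu
        have : u ∈ A ∪ B := Or.inl hu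
        rw [hAB] at this
        exact this
      have hABm : ∀ u, u ≠ z → u ≠ v → u ≠ w → u ∈ A ∨ u ∈ B := by
        intro u h1 h2 h3
        have : u ∈ A ∪ B := by
          rw [hAB]
          exact ⟨h1, h2, h3⟩
        exact this
      -- `v` has a neighbour in `B`
      obtain ⟨t, htB, htv⟩ : ∃ t ∈ B, G.Adj t v := by
        have h1 : Nb G B (A ∪ {v}) := by
          apply h3.nb (a := z) (b := w)
          · rw [Set.disjoint_left]
            rintro u hu (hu' | hu')
            · exact Set.disjoint_left.1 hd hu' hu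
            · exact (hBm u hu).2.1 hu'
          · ext u
            simp only [Set.mem_union, Set.mem_singleton_iff, Set.mem_setOf_eq]
            constructor
            · rintro (hu | hu | hu)
              · exact ⟨(hBm u hu).1, (hBm u hu).2.2⟩
              · exact ⟨(hAm u hu).1, (hAm u hu).2.2⟩
              · rw [hu]
                exact ⟨(hDm v hvD).2.2, hwv.symm⟩
            · rintro ⟨h1, h2⟩
              by_cases h4 : u = v
              · exact Or.inr (Or.inr h4)
              · rcases hABm u h1 h4 h2 with h | h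
                · exact Or.inr (Or.inl h)
                · exact Or.inl h
          · exact hB
          · obtain ⟨e, he⟩ := hA
            exact ⟨e, Or.inl he⟩
        obtain ⟨a, ha, b, hb, hab⟩ := h1
        rcases hb with hb | hb
        · exact absurd ⟨b, hb, a, ha, hab.symm⟩ hnAB
        · rw [Set.mem_singleton_iff] at hb
          exact ⟨a, ha, hb ▸ hab⟩
      have htD : t ∈ D := by
        rcases hmem t (fun h => hxB (h ▸ htB)) (fun h => hyB (h ▸ htB)) (hBm t htB).1 with h | h
        · exact h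
        · exact absurd ⟨v, hvD, t, h, htv.symm⟩ hnb
      have hlt : (B ∩ D).ncard < n := by
        rw [← hn]
        apply Set.ncard_lt_ncard _ (Set.toFinite D)
        refine ⟨Set.inter_subset_right, fun hsub => ?_⟩
        exact (hBm v (hsub hvD).1).2.1 rfl
      refine ih _ hlt z v w (B ∩ D) ({u | u ≠ z ∧ u ≠ v ∧ u ≠ w} \ (B ∩ D)) hvz.symm hwz hwv
        ⟨t, htB, htD⟩ ?_ ?_ ?_ ?_ rfl
      · obtain ⟨a, ha⟩ := hA
        exact ⟨a, hAm a ha, fun h => Set.disjoint_left.1 hd ha h.1⟩
      · exact Set.disjoint_sdiff_right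
      · ext u
        constructor
        · rintro (hu | hu)
          · exact hBm u hu.1
          · exact hu.1
        · intro hu
          by_cases h : u ∈ B ∩ D
          · exact Or.inl h
          · exact Or.inr ⟨hu, h⟩
      · rintro ⟨a, ⟨haB, haD⟩, b, ⟨hbm, hbn⟩, hab⟩
        rcases hABm b hbm.1 hbm.2.1 hbm.2.2 with hb | hb
        · exact hnAB ⟨b, hb, a, haB, hab.symm⟩
        · have hbE : b ∈ E := by
            rcases hmem b (fun h => hxB (h ▸ hb)) (fun h => hyB (h ▸ hb)) hbm.1 with h | h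
            · exact absurd ⟨hb, h⟩ hbn
            · exact h
          exact hnb ⟨a, haD, b, hbE, hab⟩
    by_cases hx1 : x ∈ C1
    · apply hside C1 C2 hC12 hC1 hC2 hCd hCn (fun h => Set.disjoint_left.1 hCd hx1 h)
      intro hy
      exact hCn ⟨x, hx1, y, hy, hxy⟩
    · by_cases hy1 : y ∈ C1
      · apply hside C1 C2 hC12 hC1 hC2 hCd hCn _ (fun h => Set.disjoint_left.1 hCd hy1 h)
        intro hx
        exact hCn ⟨y, hy1, x, hx, hxy.symm⟩
      · apply hside C2 C1 (by rw [Set.union_comm]; exact hC12) hC2 hC1 hCd.symm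
          (fun ⟨a, ha, b, hb, hab⟩ => hCn ⟨b, hb, a, ha, hab.symm⟩) hx1 hy1

open Classical in
/-- Thomassen's lemma -/
theorem exists_ctr [Fintype V] {G : SimpleGraph V} (h3 : C3 G) (h5 : 5 ≤ Fintype.card V) :
    ∃ x y, G.Adj x y ∧ C3 (ctr G x y) := by
  by_contra hcon
  push Not at hcon
  have hno : ∀ x y, G.Adj x y →
      ∃ z, z ≠ x ∧ z ≠ y ∧ ¬ Con G {v | v ≠ x ∧ v ≠ y ∧ v ≠ z} := by
    intro x y hxy
    by_contra h
    push Not at h
    exact hcon x y hxy (ctr2_c3 h3 h5 hxy h)
  have hV : Nonempty V := Fintype.card_pos_iff.1 (by omega)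
  obtain ⟨v⟩ := hV
  obtain ⟨a, b, c, _, _, _, hva, _, _⟩ := h3.deg v
  obtain ⟨z, hz1, hz2, hz⟩ := hno v a hva
  obtain ⟨D, E, h1, h2, h3', h4, h5'⟩ : ∃ D E : Set V,
      D ∪ E = {u | u ≠ v ∧ u ≠ a ∧ u ≠ z} ∧ D.Nonempty ∧ E.Nonempty ∧ Disjoint D E ∧
        ¬ Nb G D E := by
    by_contra hcon
    push Not at hcon
    exact hz (con_of_nb (ctr2_ne h5 v a z) hcon)
  exact ctr2_main h3 h5 hno D.ncard v a z D E hva hz1 hz2 h2 h3' h4 h1 h5' rfl

end Pool.Agent.BOND
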