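import Mathlib
import Pool.Agent.BOND.C3A

/-! # BOND, module PD0: faces: minimality of stars, faces span the even sets, sides -/

set_option autoImplicit false

namespace Pool.Agent.BOND

variable {V : Type}

namespace PD0

lemma allnone {G : SimpleGraph V} {S X : Set V} (hS : Con G S)
    (h : ∀ u ∈ S, ∀ v ∈ S, G.Adj u v → (u ∈ X ↔ v ∈ X)) :
    ∃ c : Prop, ∀ u ∈ S, (u ∈ X ↔ c) := by
  by_cases hall : ∀ u ∈ S, u ∈ X
  · exact ⟨True, fun u hu => by simp [hall u hu]⟩
  by_cases hnone : ∀ u ∈ S, u ∉ X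
  · exact ⟨False, fun u hu => by simp [hnone u hu]⟩
  exfalso
  push Not at hall hnone
  obtain ⟨a, ha, haX⟩ := hall
  obtain ⟨b, hb, hbX⟩ := hnone
  have := hS.nb_of_union (C := S ∩ X) (D := S \ X) (by ext w; simp) ⟨b, hb, hbX⟩
    ⟨a, ha, haX⟩ (by
      rw [Set.disjoint_left]
      rintro w ⟨_, h1⟩ ⟨_, h2⟩
      exact h2 h1)
  obtain ⟨u, hu, w, hw, huw⟩ := this
  exact hw.2 ((h u hu.1 w hw.1 huw).1 hu.2)

open Classical in
/-- indicator modulo two -/
noncomputable def ind {α : Type} (s : Set α) (a : α) : ZMod 2 := if a ∈ s then 1 else 0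

lemma ind_mul {α : Type} (s t : Set α) (a : α) : ind (s ∩ t) a = ind s a * ind t a := by
  unfold ind
  by_cases h1 : a ∈ s <;> by_cases h2 : a ∈ t <;> simp [h1, h2]

lemma sum_ind {α : Type} [Fintype α] (s : Set α) : ∑ a, ind s a = ((s.ncard : ℕ) : ZMod 2) := by
  classical
  unfold ind
  rw [Finset.sum_boole, Set.ncard_eq_toFinset_card']
  congr 2
  ext a
  simp

lemma even_iff {α : Type} [Fintype α] (s : Set α) : Even s.ncard ↔ ∑ a, ind s a = 0 := by
  rw [sum_ind, ZMod.natCast_eq_zero_iff_even]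

lemma zmod2_cases (x : ZMod 2) : x = 0 ∨ x = 1 := by
  revert x; decide

end PD0

open PD0

/-- an edge set at `v` which meets all faces evenly is empty or the whole star of `v` -/
theorem Fcs.star_min [Fintype V] {G : SimpleGraph V} {W : Type} (h3 : C3 G) (F : Fcs G W) (v : V)
    (B : Set (Sym2 V)) (hB : B ⊆ {e | e ∈ G.edgeSet ∧ v ∈ e})
    (hev : ∀ w, Even (F.f w ∩ B).ncard) : B = ∅ ∨ B = {e | e ∈ G.edgeSet ∧ v ∈ e} := by
  obtain ⟨X, hX⟩ := F.cut B (fun e he => (hB he).1) hev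
  obtain ⟨c, hc⟩ := PD0.allnone (X := X) (h3.con1 v) (by
    intro a ha b hb hab
    by_contra hcon
    have h1 := (hX a b hab).2 hcon
    have h2 := (hB h1).2
    rw [Sym2.mem_iff] at h2
    rcases h2 with h2 | h2
    · exact ha h2.symm
    · exact hb h2.symm)
  have key : ∀ e ∈ G.edgeSet, v ∈ e → (e ∈ B ↔ ¬ (v ∈ X ↔ c)) := by
    intro e he hve
    obtain ⟨u, rfl⟩ := hve
    have hadj : G.Adj v u := he
    rw [hX v u hadj, hc u hadj.ne.symm]
  by_cases h : (v ∈ X ↔ c)
  · left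
    ext e
    simp only [Set.mem_empty_iff_false, iff_false]
    intro he
    obtain ⟨h1, h2⟩ := hB he
    exact ((key e h1 h2).1 he) h
  · right
    ext e
    exact ⟨fun he => hB he, fun he => (key e he.1 he.2).2 h⟩

/-- the same for two vertices -/
theorem Fcs.star_min2 [Fintype V] {G : SimpleGraph V} {W : Type} (h3 : C3 G) (F : Fcs G W)
    {u v : V} (huv : u ≠ v) (B : Set (Sym2 V)) (hB : B ⊆ {e | e ∈ G.edgeSet ∧ (u ∈ e ∨ v ∈ e)})
    (hev : ∀ w, Even (F.f w ∩ B).ncard) :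
    B = ∅ ∨ B = {e | e ∈ G.edgeSet ∧ u ∈ e} ∨ B = {e | e ∈ G.edgeSet ∧ v ∈ e} ∨
      B = {e | e ∈ G.edgeSet ∧ (u ∈ e ∨ v ∈ e) ∧ ¬ (u ∈ e ∧ v ∈ e)} := by
  obtain ⟨X, hX⟩ := F.cut B (fun e he => (hB he).1) hev
  obtain ⟨c, hc⟩ := PD0.allnone (X := X) (h3.conn u v) (by
    intro a ha b hb hab
    by_contra hcon
    have h1 := (hX a b hab).2 hcon
    have h2 := (hB h1).2
    simp only [Sym2.mem_iff] at h2
    rcases h2 with (h2 | h2) | (h2 | h2)
    · exact ha.1 h2.symm
    · exact hb.1 h2.symm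
    · exact ha.2 h2.symm
    · exact hb.2 h2.symm)
  -- the value of an edge at `u` or `v`
  have keyu : ∀ w, G.Adj u w → w ≠ v → (s(u, w) ∈ B ↔ ¬ (u ∈ X ↔ c)) := by
    intro w hw hwv
    rw [hX u w hw, hc w ⟨hw.ne.symm, hwv⟩]
  have keyv : ∀ w, G.Adj v w → w ≠ u → (s(v, w) ∈ B ↔ ¬ (v ∈ X ↔ c)) := by
    intro w hw hwu
    rw [hX v w hw, hc w ⟨hwu, hw.ne.symm⟩]
  have keyuv : G.Adj u v → (s(u, v) ∈ B ↔ ¬ (u ∈ X ↔ v ∈ X)) := fun h => hX u v h
  have main : ∀ e ∈ G.edgeSet, (u ∈ e ∨ v ∈ e) →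
      ((u ∈ e ∧ v ∉ e ∧ (e ∈ B ↔ ¬ (u ∈ X ↔ c))) ∨ (v ∈ e ∧ u ∉ e ∧ (e ∈ B ↔ ¬ (v ∈ X ↔ c))) ∨
      (u ∈ e ∧ v ∈ e ∧ (e ∈ B ↔ ¬ (u ∈ X ↔ v ∈ X)))) := by
    intro e he h
    rcases h with h | h
    · obtain ⟨w, rfl⟩ := h
      have hadj : G.Adj u w := he
      by_cases hwv : w = v
      · subst hwv
        exact Or.inr (Or.inr ⟨by simp, by simp, keyuv hadj⟩)
      · refine Or.inl ⟨by simp, ?_, keyu w hadj hwv⟩
        rw [Sym2.mem_iff]
        rintro (h | h)
        · exact huv h.symm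
        · exact hwv h.symm
    · obtain ⟨w, rfl⟩ := h
      have hadj : G.Adj v w := he
      by_cases hwu : w = u
      · subst hwu
        refine Or.inr (Or.inr ⟨by simp, by simp, ?_⟩)
        rw [Sym2.eq_swap]
        exact keyuv hadj.symm
      · refine Or.inr (Or.inl ⟨by simp, ?_, keyv w hadj hwu⟩)
        rw [Sym2.mem_iff]
        rintro (h | h)
        · exact huv h
        · exact hwu h.symm
  have hB' : ∀ e ∈ B, e ∈ G.edgeSet ∧ (u ∈ e ∨ v ∈ e) := fun e he => hB he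
  by_cases h1 : (u ∈ X ↔ c) <;> by_cases h2 : (v ∈ X ↔ c)
  · left
    ext e
    simp only [Set.mem_empty_iff_false, iff_false]
    intro he
    rcases main e (hB' e he).1 (hB' e he).2 with ⟨_, _, h⟩ | ⟨_, _, h⟩ | ⟨_, _, h⟩
    · exact (h.1 he) h1
    · exact (h.1 he) h2
    · exact (h.1 he) (h1.trans h2.symm)
  · right; right; left
    ext e
    constructor
    · intro he
      refine ⟨(hB' e he).1, ?_⟩
      rcases main e (hB' e he).1 (hB' e he).2 with ⟨_, _, h⟩ | ⟨h, _⟩ | ⟨_, h, _⟩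
      · exact absurd h1 (h.1 he)
      · exact h
      · exact h
    · rintro ⟨he, hv⟩
      rcases main e he (Or.inr hv) with ⟨_, h, _⟩ | ⟨_, _, h⟩ | ⟨_, _, h⟩
      · exact absurd hv h
      · exact h.2 h2
      · exact h.2 (fun h' => h2 (h'.symm.trans h1))
  · right; left
    ext e
    constructor
    · intro he
      refine ⟨(hB' e he).1, ?_⟩
      rcases main e (hB' e he).1 (hB' e he).2 with ⟨h, _⟩ | ⟨_, _, h⟩ | ⟨h, _⟩
      · exact h
      · exact absurd h2 (h.1 he)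
      · exact h
    · rintro ⟨he, hu⟩
      rcases main e he (Or.inl hu) with ⟨_, _, h⟩ | ⟨_, h, _⟩ | ⟨_, _, h⟩
      · exact h.2 h1
      · exact absurd hu h
      · exact h.2 (fun h' => h1 (h'.trans h2))
  · right; right; right
    have h12 : (u ∈ X ↔ v ∈ X) := by tauto
    ext e
    constructor
    · intro he
      refine ⟨(hB' e he).1, (hB' e he).2, ?_⟩
      rcases main e (hB' e he).1 (hB' e he).2 with ⟨_, h, _⟩ | ⟨_, h, _⟩ | ⟨_, _, h⟩
      · exact fun h' => h h'.2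
      · exact fun h' => h h'.1
      · exact absurd h12 (h.1 he)
    · rintro ⟨he, huv', hn⟩
      rcases main e he huv' with ⟨_, _, h⟩ | ⟨_, _, h⟩ | ⟨hu, hv, _⟩
      · exact h.2 h1
      · exact h.2 h2
      · exact absurd ⟨hu, hv⟩ hn

/-- the two faces of an edge -/
lemma PD0.sum_faces {G : SimpleGraph V} {W : Type} [Fintype W] (F : Fcs G W) (a : W → ZMod 2)
    {e : Sym2 V} {w₁ w₂ : W} (hne : w₁ ≠ w₂) (h : ∀ w, e ∈ F.f w ↔ (w = w₁ ∨ w = w₂)) :
    ∑ w, a w * ind (F.f w) e = a w₁ + a w₂ := by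
  classical
  have h1 : ∀ w, a w * ind (F.f w) e = (if w = w₁ then a w₁ else 0) + (if w = w₂ then a w₂ else 0) := by
    intro w
    unfold ind
    by_cases hw1 : w = w₁
    · subst hw1
      have : e ∈ F.f w := (h w).2 (Or.inl rfl)
      simp [this, hne]
    · by_cases hw2 : w = w₂
      · subst hw2
        have : e ∈ F.f w := (h w).2 (Or.inr rfl)
        simp [this, hw1]
      · have : e ∉ F.f w := fun h' => by
          rcases (h w).1 h' with h' | h'
          · exact hw1 h'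
          · exact hw2 h'
        simp [this, hw1, hw2]
  simp_rw [h1]
  rw [Finset.sum_add_distrib]
  simp

/-- double counting of a cut -/
lemma PD0.cut_even [Fintype V] {G : SimpleGraph V} (c B : Set (Sym2 V)) (hc : c ⊆ G.edgeSet)
    (hev : ∀ v, Even {e | e ∈ c ∧ v ∈ e}.ncard) (X : Set V)
    (hX : ∀ u v, G.Adj u v → (s(u, v) ∈ B ↔ ¬ (u ∈ X ↔ v ∈ X))) :
    ∑ e, ind c e * ind B e = 0 := by
  classical
  have h0 : ∀ v, ∑ e, ind c e * ind {e : Sym2 V | v ∈ e} e = 0 := by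
    intro v
    have := (PD0.even_iff {e | e ∈ c ∧ v ∈ e}).1 (hev v)
    rw [← this]
    apply Finset.sum_congr rfl
    intro e _
    rw [← PD0.ind_mul]
    rfl
  have h1 : ∑ v : V, ind X v * ∑ e, ind c e * ind {e : Sym2 V | v ∈ e} e = 0 := by
    simp [h0]
  rw [← h1]
  simp_rw [Finset.mul_sum]
  rw [Finset.sum_comm]
  apply Finset.sum_congr rfl
  intro e _
  by_cases hec : e ∈ c
  · have hec' : ind c e = 1 := by simp [ind, hec]
    rw [hec']
    have he := hc hec
    induction e using Sym2.ind with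
    | _ a b =>
      have hab : G.Adj a b := he
      have h2 : ∀ v : V, ind X v * (1 * ind {e : Sym2 V | v ∈ e} s(a, b)) =
          (if v = a then ind X a else 0) + (if v = b then ind X b else 0) := by
        intro v
        unfold ind
        by_cases hva : v = a
        · subst hva
          simp [hab.ne]
        · by_cases hvb : v = b
          · subst hvb
            simp [hva]
          · simp [hva, hvb]
      simp_rw [h2]
      rw [Finset.sum_add_distrib]
      simp only [Finset.sum_ite_eq', Finset.mem_univ, if_true]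
      have h3 := hX a b hab
      unfold ind
      by_cases ha : a ∈ X <;> by_cases hb : b ∈ X <;> simp [ha, hb] at h3 ⊢ <;> simp [h3]
      · decide
  · have hec' : ind c e = 0 := by simp [ind, hec]
    simp [hec']

/-- every even set of edges is a sum of faces -/
theorem Fcs.span [Finite V] {G : SimpleGraph V} {W : Type} [Finite W] (F : Fcs G W)
    (c : Set (Sym2 V)) (hc : c ⊆ G.edgeSet) (hev : ∀ v, Even {e | e ∈ c ∧ v ∈ e}.ncard) :
    ∃ S : Set W, ∀ e ∈ G.edgeSet,
      (e ∈ c ↔ ∃ w₁ w₂, w₁ ∈ S ∧ w₂ ∉ S ∧ e ∈ F.f w₁ ∧ e ∈ F.f w₂) := by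
  classical
  have := Fintype.ofFinite V
  have := Fintype.ofFinite W
  have hmem : ind c ∈ Submodule.span (ZMod 2) (Set.range fun w => ind (F.f w)) := by
    by_contra hcon
    obtain ⟨φ, hφ, hle⟩ := Submodule.exists_le_ker_of_notMem hcon
    apply hφ
    have hφs : ∀ s : Sym2 V → ZMod 2, φ s = ∑ e, s e * φ (Pi.single e 1) := by
      intro s
      conv_lhs => rw [← Finset.univ_sum_single s]
      rw [map_sum]
      apply Finset.sum_congr rfl
      intro e _
      rw [← smul_eq_mul, ← map_smul]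
      congr 1
      ext x
      by_cases hx : x = e
      · subst hx; simp
      · simp [Pi.single_eq_of_ne hx]
    obtain ⟨B, hB⟩ : ∃ B : Set (Sym2 V), B = {e | e ∈ G.edgeSet ∧ φ (Pi.single e 1) = 1} := ⟨_, rfl⟩
    have hBe : ∀ e ∈ G.edgeSet, φ (Pi.single e 1) = ind B e := by
      intro e he
      rcases PD0.zmod2_cases (φ (Pi.single e 1)) with h | h
      · have : e ∉ B := by rw [hB]; rintro ⟨_, h'⟩; rw [h] at h'; exact absurd h' (by decide)
        rw [h]; simp [ind, this]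
      · have : e ∈ B := by rw [hB]; exact ⟨he, h⟩
        rw [h]; simp [ind, this]
    have hφ2 : ∀ s : Set (Sym2 V), s ⊆ G.edgeSet → φ (ind s) = ∑ e, ind s e * ind B e := by
      intro s hs
      rw [hφs]
      apply Finset.sum_congr rfl
      intro e _
      by_cases he : e ∈ s
      · rw [hBe e (hs he)]
      · simp [ind, he]
    have hface : ∀ w, Even (F.f w ∩ B).ncard := by
      intro w
      rw [PD0.even_iff]
      have h1 : φ (ind (F.f w)) = 0 := by
        have := hle (Submodule.subset_span ⟨w, rfl⟩)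
        exact this
      rw [hφ2 _ (F.sub w)] at h1
      rw [← h1]
      apply Finset.sum_congr rfl
      intro e _
      rw [PD0.ind_mul]
    obtain ⟨X, hX⟩ := F.cut B (by rw [hB]; exact fun e he => he.1) hface
    rw [hφ2 c hc]
    exact PD0.cut_even c B hc hev X hX
  obtain ⟨a, ha⟩ := (Submodule.mem_span_range_iff_exists_fun _).1 hmem
  refine ⟨{w | a w = 1}, ?_⟩
  intro e he
  obtain ⟨w₁, w₂, hne, hw⟩ := F.two e he
  have h1 := congrFun ha e
  rw [Finset.sum_apply] at h1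
  simp only [Pi.smul_apply, smul_eq_mul] at h1
  rw [PD0.sum_faces F a hne hw] at h1
  have h01 : (0 : ZMod 2) ≠ 1 := by decide
  constructor
  · intro hec
    have h2 : a w₁ + a w₂ = 1 := by rw [h1]; simp [ind, hec]
    rcases PD0.zmod2_cases (a w₁) with h3 | h3 <;> rcases PD0.zmod2_cases (a w₂) with h4 | h4
    · rw [h3, h4] at h2; exact absurd h2 (by decide)
    · exact ⟨w₂, w₁, h4, by simp [h3], (hw _).2 (Or.inr rfl), (hw _).2 (Or.inl rfl)⟩
    · exact ⟨w₁, w₂, h3, by simp [h4], (hw _).2 (Or.inl rfl), (hw _).2 (Or.inr rfl)⟩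
    · rw [h3, h4] at h2; exact absurd h2 (by decide)
  · rintro ⟨x, y, hx, hy, hex, hey⟩
    by_contra hec
    have h2 : a w₁ + a w₂ = 0 := by rw [h1]; simp [ind, hec]
    have h3 : a w₁ = a w₂ := by
      rcases PD0.zmod2_cases (a w₁) with h3 | h3 <;> rcases PD0.zmod2_cases (a w₂) with h4 | h4 <;>
        rw [h3, h4] at h2 ⊢ <;> exact absurd h2 (by decide)
    have hx' : a x = 1 := hx
    have hy' : a y ≠ 1 := hy
    rcases (hw x).1 hex with rfl | rfl <;> rcases (hw y).1 hey with rfl | rfl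
    · exact hy' hx'
    · exact hy' (h3 ▸ hx')
    · exact hy' (h3.symm ▸ hx')
    · exact hy' hx'

/-- a set `S` of faces which is not separated by the edges at `v` (away from the at most one
exceptional face in `T`) contains all or none of the faces at `v` -/
theorem Fcs.side [Fintype V] {G : SimpleGraph V} {W : Type} [Finite W] (h3 : C3 G)
    (F : Fcs G W) (v : V) (S T : Set W) (hT : T.Subsingleton)
    (h : ∀ e ∈ G.edgeSet, v ∈ e → ∀ w₁ w₂, e ∈ F.f w₁ → e ∈ F.f w₂ → w₁ ∉ T → w₂ ∉ T →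
      (w₁ ∈ S ↔ w₂ ∈ S)) {w₁ w₂ : W} (h₁ : ∃ e ∈ F.f w₁, v ∈ e) (h₂ : ∃ e ∈ F.f w₂, v ∈ e)
    (n₁ : w₁ ∉ T) (n₂ : w₂ ∉ T) : w₁ ∈ S ↔ w₂ ∈ S := by
  classical
  have := Fintype.ofFinite W
  obtain ⟨B, hBdef⟩ : ∃ B : Set (Sym2 V), B = {e | e ∈ G.edgeSet ∧ v ∈ e ∧
    ∃ w, w ∈ S ∧ w ∉ T ∧ e ∈ F.f w} := ⟨_, rfl⟩
  have hB : B ⊆ {e | e ∈ G.edgeSet ∧ v ∈ e} := by
    rw [hBdef]; exact fun e he => ⟨he.1, he.2.1⟩
  have hnT : ∀ w, w ∉ T → Even (F.f w ∩ B).ncard := by
    intro w hw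
    by_cases hwS : w ∈ S
    · have : F.f w ∩ B = {e | e ∈ F.f w ∧ v ∈ e} := by
        ext e
        rw [hBdef]
        exact ⟨fun he => ⟨he.1, he.2.2.1⟩, fun he => ⟨he.1, F.sub w he.1, he.2, w, hwS, hw, he.1⟩⟩
      rw [this]
      exact F.ev w v
    · have : F.f w ∩ B = ∅ := by
        ext e
        simp only [Set.mem_empty_iff_false, iff_false]
        rw [hBdef]
        rintro ⟨he, he1, he2, w', hw'S, hw'T, hew'⟩
        exact hwS ((h e he1 he2 w w' he hew' hw hw'T).2 hw'S)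
      rw [this]
      simp
  have hev : ∀ w, Even (F.f w ∩ B).ncard := by
    intro w
    by_cases hw : w ∈ T
    · rw [PD0.even_iff]
      have hsum : ∑ w', ∑ e, ind (F.f w' ∩ B) e = 0 := by
        rw [Finset.sum_comm]
        apply Finset.sum_eq_zero
        intro e _
        by_cases heB : e ∈ B
        · obtain ⟨x, y, hne, hxy⟩ := F.two e (hB heB).1
          have := PD0.sum_faces F (fun _ => ind B e) hne hxy
          calc ∑ w', ind (F.f w' ∩ B) e = ∑ w', ind B e * ind (F.f w') e := by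
                apply Finset.sum_congr rfl
                intro w' _
                rw [PD0.ind_mul, mul_comm]
            _ = ind B e + ind B e := this
            _ = 0 := by
                rcases PD0.zmod2_cases (ind B e) with h' | h' <;> rw [h'] <;> decide
        · apply Finset.sum_eq_zero
          intro w' _
          rw [PD0.ind_mul]
          simp [ind, heB]
      rw [← hsum]
      symm
      apply Finset.sum_eq_single w
      · intro w' _ hne
        have hw' : w' ∉ T := fun h' => hne (hT h' hw)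
        exact (PD0.even_iff _).1 (hnT w' hw')
      · simp
    · exact hnT w hw
  have hmain : ∀ x y : W, (∃ e ∈ F.f x, v ∈ e) → (∃ e ∈ F.f y, v ∈ e) → x ∉ T → y ∉ T →
      x ∈ S → y ∈ S := by
    rintro x y ⟨e₁, he₁, hv₁⟩ ⟨e₂, he₂, hv₂⟩ hxT hyT hxS
    have hin : e₁ ∈ B := by
      rw [hBdef]; exact ⟨F.sub x he₁, hv₁, x, hxS, hxT, he₁⟩
    rcases F.star_min h3 v B hB hev with h0 | h0
    · rw [h0] at hin
      exact absurd hin (Set.notMem_empty _)
    · have hin2 : e₂ ∈ B := by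
        rw [h0]; exact ⟨F.sub y he₂, hv₂⟩
      rw [hBdef] at hin2
      obtain ⟨g1, g2, w', g3, g4, g5⟩ := hin2
      exact (h e₂ g1 g2 w' y g5 he₂ g4 hyT).1 g3
  exact ⟨hmain w₁ w₂ h₁ h₂ n₁ n₂, hmain w₂ w₁ h₂ h₁ n₂ n₁⟩

end Pool.Agent.BOND
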