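import Mathlib
import Pool.Agent.BOND.Defs

/-! # BOND, module PD1: cyclic order of a minimal even edge set of a multigraph -/

set_option autoImplicit false

namespace Pool.Agent.BOND

/-- the edge `e` joins `u` and `v` -/
private def pd1J {W E : Type} (Λ : MG W E) (e : E) (u v : W) : Prop :=
  Λ.s e = u ∧ Λ.t e = v ∨ Λ.t e = u ∧ Λ.s e = v

/-- paths -/
private structure pd1P {W E : Type} (Λ : MG W E) (k : ℕ) (w : ℕ → W) (e : ℕ → E) : Prop where
  inj : ∀ i j, i ≤ k → j ≤ k → w i = w j → i = j
  join : ∀ i, i < k → pd1J Λ (e i) (w i) (w (i + 1))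

private theorem pd1_bound {W E : Type} [Finite W] {Λ : MG W E} {k : ℕ} {w : ℕ → W} {e : ℕ → E}
    (h : pd1P Λ k w e) : k ≤ Nat.card W := by
  have h1 : Function.Injective (fun i : Fin (k + 1) => w i.1) := by
    intro i j hij
    exact Fin.ext (h.inj i.1 j.1 (by omega) (by omega) hij)
  have h2 := Nat.card_le_card_of_injective _ h1
  rw [Nat.card_eq_fintype_card, Fintype.card_fin] at h2
  omega

private theorem pd1J_eq {W E : Type} {Λ : MG W E} {e : E} {u v u' v' : W} (h : pd1J Λ e u v)
    (h' : pd1J Λ e u' v') : (u = u' ∧ v = v') ∨ (u = v' ∧ v = u') := by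
  unfold pd1J at h h'
  rcases h with ⟨rfl, rfl⟩ | ⟨rfl, rfl⟩ <;> rcases h' with ⟨rfl, rfl⟩ | ⟨rfl, rfl⟩ <;> simp

private theorem pd1J_symm {W E : Type} {Λ : MG W E} {e : E} {u v : W} (h : pd1J Λ e u v) :
    pd1J Λ e v u := by
  unfold pd1J at *
  rcases h with ⟨h1, h2⟩ | ⟨h1, h2⟩
  · exact Or.inr ⟨h2, h1⟩
  · exact Or.inl ⟨h2, h1⟩

/-- Let `Λ` be a finite multigraph without loops in which the set of all edges is a nonempty minimal
even set. Then the edges can be numbered cyclically. -/
theorem ring_of_minimal {W E : Type} [Fintype E] [Finite W] (Λ : MG W E) [Nonempty E]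
    (hl : ∀ e, Λ.s e ≠ Λ.t e) (hev : Λ.bd (fun _ => 1) = 0)
    (hmin : ∀ b : E → ZMod 2, Λ.bd b = 0 → b = 0 ∨ b = fun _ => 1) :
    ∃ (d : ℕ) (_ : 2 ≤ d) (e : Fin d ≃ E) (w : Fin d → W), Function.Injective w ∧
      (∀ i, Λ.s (e i) = w i ∧ Λ.t (e i) = w (finRotate d i) ∨
        Λ.t (e i) = w i ∧ Λ.s (e i) = w (finRotate d i)) ∧
      ∀ v, (∃ e, Λ.s e = v ∨ Λ.t e = v) → v ∈ Set.range w := by
  classical
  -- a path of maximal length
  obtain ⟨k, ⟨w, e, hP⟩, hk⟩ : ∃ k, (∃ w e, pd1P Λ k w e) ∧
      ∀ k', (∃ w e, pd1P Λ k' w e) → k' ≤ k := by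
    obtain ⟨e0⟩ := ‹Nonempty E›
    have h0 : ∃ (w : ℕ → W) (e : ℕ → E), pd1P Λ 1 w e := by
      refine ⟨fun i => if i = 0 then Λ.s e0 else Λ.t e0, fun _ => e0, ?_, ?_⟩
      · intro i j hi hj hij
        have hi' : i = 0 ∨ i = 1 := by omega
        have hj' : j = 0 ∨ j = 1 := by omega
        rcases hi' with rfl | rfl <;> rcases hj' with rfl | rfl
        · rfl
        · exact absurd (by simpa using hij) (hl e0)
        · exact absurd (by simpa using hij.symm) (hl e0)
        · rfl
      · intro i hi
        have : i = 0 := by omega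
        subst this
        left
        simp
    have hb : ∀ k', (∃ w e, pd1P Λ k' w e) → k' ≤ Nat.card W := by
      rintro k' ⟨w, e, h⟩
      exact pd1_bound h
    refine ⟨Nat.findGreatest (fun k' => ∃ w e, pd1P Λ k' w e) (Nat.card W),
      Nat.findGreatest_spec (P := fun k' => ∃ w e, pd1P Λ k' w e) (hb 1 h0) h0, ?_⟩
    intro k' hk'
    exact Nat.le_findGreatest (P := fun k' => ∃ w e, pd1P Λ k' w e) (hb k' hk') hk'
  have hk1 : 1 ≤ k := by
    obtain ⟨e0⟩ := ‹Nonempty E›
    apply hk 1
    refine ⟨fun i => if i = 0 then Λ.s e0 else Λ.t e0, fun _ => e0, ?_, ?_⟩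
    · intro i j hi hj hij
      have hi' : i = 0 ∨ i = 1 := by omega
      have hj' : j = 0 ∨ j = 1 := by omega
      rcases hi' with rfl | rfl <;> rcases hj' with rfl | rfl
      · rfl
      · exact absurd (by simpa using hij) (hl e0)
      · exact absurd (by simpa using hij.symm) (hl e0)
      · rfl
    · intro i hi
      have : i = 0 := by omega
      subst this
      left
      simp
  -- another edge at the end
  have hlast : pd1J Λ (e (k - 1)) (w (k - 1)) (w k) := by
    have := hP.join (k - 1) (by omega)
    rwa [show k - 1 + 1 = k by omega] at this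
  obtain ⟨f, hf, u, hfu⟩ : ∃ f, f ≠ e (k - 1) ∧ ∃ u, pd1J Λ f (w k) u := by
    by_contra hcon
    push Not at hcon
    have h1 := congrFun hev (w k)
    unfold MG.bd at h1
    rw [Finset.sum_eq_single (e (k - 1))] at h1
    · have h2 := hl (e (k - 1))
      rcases hlast with ⟨h3, h4⟩ | ⟨h3, h4⟩
      · rw [if_neg (by rw [← h4]; exact h2), if_pos h4] at h1
        simp at h1
      · rw [if_pos h4, if_neg (by rw [← h4]; exact h2.symm)] at h1
        simp at h1
    · intro f _ hf
      have h2 := hcon f hf
      have h3 : Λ.s f ≠ w k := fun h => h2 (Λ.t f) (Or.inl ⟨h, rfl⟩)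
      have h4 : Λ.t f ≠ w k := fun h => h2 (Λ.s f) (Or.inr ⟨h, rfl⟩)
      rw [if_neg h3, if_neg h4, add_zero]
    · intro h
      exact absurd (Finset.mem_univ _) h
  -- its other end is on the path
  obtain ⟨j, hj, hju⟩ : ∃ j, j ≤ k ∧ w j = u := by
    by_contra hcon
    push Not at hcon
    have h1 := hk (k + 1) ⟨fun i => if i ≤ k then w i else u, fun i => if i < k then e i else f, by
      intro i j hi hj hij
      by_cases h2 : i ≤ k
      · by_cases h3 : j ≤ k
        · simp only [h2, h3, if_true] at hij
          exact hP.inj i j h2 h3 hij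
        · simp only [h2, h3, if_true, if_false] at hij
          exact absurd hij (hcon i h2)
      · by_cases h3 : j ≤ k
        · simp only [h2, h3, if_true, if_false] at hij
          exact absurd hij.symm (hcon j h3)
        · omega, by
      intro i hi
      by_cases h2 : i < k
      · simp only [h2, if_true, h2.le, show i + 1 ≤ k from h2]
        exact hP.join i h2
      · have : i = k := by omega
        subst this
        simp only [lt_irrefl, if_false, le_refl, if_true, show ¬ (i + 1 ≤ i) by omega]
        exact hfu⟩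
    omega
  have hjk : j < k := by
    rcases lt_or_eq_of_le hj with h | h
    · exact h
    · exfalso
      subst h
      rw [hju] at hfu
      rcases hfu with ⟨h1, h2⟩ | ⟨h1, h2⟩
      · exact hl f (h1.trans h2.symm)
      · exact hl f (h2.trans h1.symm)
  obtain ⟨n, rfl⟩ : ∃ n, k = j + n := ⟨k - j, by omega⟩
  have hn : 1 ≤ n := by omega
  rw [← hju] at hfu
  clear hju
  -- the circuit
  set w' : Fin (n + 1) → W := fun i => w (j + i.1) with hw'
  set e' : Fin (n + 1) → E := fun i => if i.1 < n then e (j + i.1) else f with he'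
  have hwi : Function.Injective w' := by
    intro a b hab
    have := hP.inj (j + a.1) (j + b.1) (by omega) (by omega) hab
    exact Fin.ext (by omega)
  have hJ : ∀ i, pd1J Λ (e' i) (w' i) (w' (finRotate (n + 1) i)) := by
    intro i
    by_cases hi : i.1 < n
    · have h1 : (finRotate (n + 1) i : ℕ) = i.1 + 1 := by
        rw [coe_finRotate_of_ne_last]
        intro h
        rw [h] at hi
        simp at hi
      have h2 : w' (finRotate (n + 1) i) = w (j + i.1 + 1) := by
        simp only [hw']
        rw [h1, Nat.add_assoc]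
      have h3 : e' i = e (j + i.1) := by
        simp only [he']
        rw [if_pos hi]
      rw [h2, h3]
      exact hP.join (j + i.1) (by omega)
    · have h0 : i = Fin.last n := Fin.ext (by simp; omega)
      subst h0
      have h2 : w' (finRotate (n + 1) (Fin.last n)) = w j := by
        rw [finRotate_last]
        simp [hw']
      have h3 : e' (Fin.last n) = f := by
        simp [he']
      rw [h2, h3]
      exact hfu
  have hei : Function.Injective e' := by
    have key : ∀ a b : Fin (n + 1), a.1 < b.1 → e' a ≠ e' b := by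
      intro a b hab h
      have ha : a.1 < n := by omega
      have h1 : e' a = e (j + a.1) := by
        simp only [he']
        rw [if_pos ha]
      have h2 := hP.join (j + a.1) (by omega)
      by_cases hb : b.1 < n
      · have h3 : e' b = e (j + b.1) := by
          simp only [he']
          rw [if_pos hb]
        have h4 := hP.join (j + b.1) (by omega)
        rw [← h3, ← h, h1] at h4
        rcases pd1J_eq h2 h4 with ⟨h5, -⟩ | ⟨h5, -⟩
        · have := hP.inj _ _ (by omega) (by omega) h5
          omega
        · have := hP.inj _ _ (by omega) (by omega) h5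
          omega
      · have h3 : e' b = f := by
          simp only [he']
          rw [if_neg hb]
        rw [h1, h3] at h
        rw [h] at h2
        rcases pd1J_eq h2 hfu with ⟨h5, -⟩ | ⟨-, h5⟩
        · have := hP.inj _ _ (by omega) (by omega) h5
          omega
        · have h6 := hP.inj _ _ (by omega) (by omega) h5
          apply hf
          rw [← h]
          congr 1
          omega
    intro a b hab
    rcases lt_trichotomy a.1 b.1 with h | h | h
    · exact absurd hab (key a b h)
    · exact Fin.ext h
    · exact absurd hab.symm (key b a h)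
  -- it is even, hence everything
  set b : E → ZMod 2 := fun x => if x ∈ Set.range e' then 1 else 0 with hb
  have hbd : Λ.bd b = 0 := by
    funext v
    unfold MG.bd
    have h1 : ∑ i : Fin (n + 1), ((if w' i = v then (1 : ZMod 2) else 0) +
        (if w' (finRotate (n + 1) i) = v then 1 else 0)) =
        ∑ x, ((if Λ.s x = v then b x else 0) + (if Λ.t x = v then b x else 0)) := by
      apply Fintype.sum_of_injective e' hei
      · intro x hx
        have : b x = 0 := by
          simp only [hb]
          rw [if_neg hx]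
        rw [this]
        simp
      · intro i
        have : b (e' i) = 1 := by
          simp only [hb]
          rw [if_pos ⟨i, rfl⟩]
        rw [this]
        rcases hJ i with ⟨h2, h3⟩ | ⟨h2, h3⟩
        · rw [h2, h3]
        · rw [h2, h3, add_comm]
    rw [← h1, Finset.sum_add_distrib,
      Equiv.sum_comp (finRotate (n + 1)) (fun i => if w' i = v then (1 : ZMod 2) else 0)]
    exact CharTwo.add_self_eq_zero _
  have hsur : Function.Surjective e' := by
    rcases hmin b hbd with h | h
    · exfalso
      have h1 := congrFun h (e' 0)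
      simp only [hb, Pi.zero_apply] at h1
      rw [if_pos ⟨0, rfl⟩] at h1
      exact one_ne_zero h1
    · intro x
      have h1 := congrFun h x
      simp only [hb] at h1
      by_contra hx
      rw [if_neg (show x ∉ Set.range e' from hx)] at h1
      exact zero_ne_one h1
  refine ⟨n + 1, by omega, Equiv.ofBijective e' ⟨hei, hsur⟩, w', hwi, fun i => hJ i, ?_⟩
  rintro v ⟨x, hx⟩
  obtain ⟨i, rfl⟩ := hsur x
  rcases hJ i with ⟨h2, h3⟩ | ⟨h2, h3⟩
  · rcases hx with h | h
    · exact ⟨i, h2.symm.trans h⟩
    · exact ⟨_, h3.symm.trans h⟩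
  · rcases hx with h | h
    · exact ⟨_, h3.symm.trans h⟩
    · exact ⟨i, h2.symm.trans h⟩

end Pool.Agent.BOND
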