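import Mathlib
import Pool.Agent.BOND.PD0
import Pool.Agent.BOND.PD1

/-! # BOND, module PD2: the ring of faces around a vertex -/

set_option autoImplicit false

namespace Pool.Agent.BOND

variable {V : Type}

theorem star_ring [Fintype V] {G : SimpleGraph V} {W : Type} [Finite W] (h3 : C3 G)
    (F : Fcs G W) (z : V) :
    ∃ (d : ℕ) (_ : 3 ≤ d) (u : Fin d → V) (w : Fin d → W), Function.Injective u ∧
      Function.Injective w ∧ Set.range u = {v | G.Adj z v} ∧
      ∀ i f, s(z, u i) ∈ F.f f ↔ (f = w i ∨ f = w ((finRotate d).symm i)) := by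
  classical
  let E := {u : V // G.Adj z u}
  have hfin : Fintype E := Fintype.ofFinite _
  -- the two faces of an edge at `z`
  have h2 : ∀ u : E, ∃ w₁ w₂, w₁ ≠ w₂ ∧ ∀ w, s(z, u.1) ∈ F.f w ↔ (w = w₁ ∨ w = w₂) :=
    fun u => F.two _ (by rw [SimpleGraph.mem_edgeSet]; exact u.2)
  choose s t hst hmem using h2
  let Λ : MG W E := ⟨s, t⟩
  -- the boundary counts the edges in a face
  have hinj : Function.Injective (fun u : E => s(z, u.1)) := by
    intro a b hab
    have h : s(z, a.1) = s(z, b.1) := hab
    rw [Sym2.congr_right] at h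
    exact Subtype.ext h
  have hbd : ∀ (b : E → ZMod 2) (w : W), Λ.bd b w =
      (((F.f w ∩ (fun u : E => s(z, u.1)) '' {u | b u = 1}).ncard : ℕ) : ZMod 2) := by
    intro b w
    have e1 : F.f w ∩ (fun u : E => s(z, u.1)) '' {u | b u = 1} =
        (fun u : E => s(z, u.1)) '' {u | b u = 1 ∧ s(z, u.1) ∈ F.f w} := by
      ext x
      constructor
      · rintro ⟨h1, u, h2, rfl⟩
        exact ⟨u, ⟨h2, h1⟩, rfl⟩
      · rintro ⟨u, ⟨h2, h1⟩, rfl⟩
        exact ⟨h1, u, h2, rfl⟩
    rw [e1, Set.ncard_image_of_injective _ hinj]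
    have e2 : {u : E | b u = 1 ∧ s(z, u.1) ∈ F.f w}.ncard =
        (Finset.univ.filter fun u : E => b u = 1 ∧ s(z, u.1) ∈ F.f w).card := by
      rw [← Set.ncard_coe_finset]
      congr 1
      ext u
      simp
    rw [e2, Finset.card_filter, Nat.cast_sum]
    unfold MG.bd
    apply Finset.sum_congr rfl
    intro u _
    show ((if s u = w then b u else 0) + (if t u = w then b u else 0)) = _
    have hb : b u = 0 ∨ b u = 1 := by
      generalize b u = y
      revert y
      decide
    rcases hb with hb | hb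
    · rw [hb]
      simp
    · rw [hb]
      have h3 := hmem u w
      by_cases h4 : s u = w
      · have h5 : t u ≠ w := fun h => hst u (h4.trans h.symm)
        rw [if_pos h4, if_neg h5, if_pos ⟨rfl, h3.2 (Or.inl h4.symm)⟩]
        simp
      · by_cases h5 : t u = w
        · rw [if_neg h4, if_pos h5, if_pos ⟨rfl, h3.2 (Or.inr h5.symm)⟩]
          simp
        · rw [if_neg h4, if_neg h5, if_neg]
          · simp
          · rintro ⟨-, h6⟩
            rcases h3.1 h6 with h | h
            · exact h4 h.symm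
            · exact h5 h.symm
  have hstar : (fun u : E => s(z, u.1)) '' {u | (fun _ => (1 : ZMod 2)) u = 1} =
      {e | e ∈ G.edgeSet ∧ z ∈ e} := by
    ext x
    constructor
    · rintro ⟨u, -, rfl⟩
      exact ⟨by rw [SimpleGraph.mem_edgeSet]; exact u.2, Sym2.mem_mk_left _ _⟩
    · rintro ⟨h1, h2⟩
      obtain ⟨y, rfl⟩ := Sym2.mem_iff_exists.1 h2
      rw [SimpleGraph.mem_edgeSet] at h1
      exact ⟨⟨y, h1⟩, rfl, rfl⟩
  obtain ⟨a, b, c, hab, hbc, hac, ha, hb, hc⟩ := h3.deg z
  have hne : Nonempty E := ⟨⟨a, ha⟩⟩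
  have hev : Λ.bd (fun _ => 1) = 0 := by
    funext w
    rw [hbd, hstar]
    have e1 : F.f w ∩ {e | e ∈ G.edgeSet ∧ z ∈ e} = {e | e ∈ F.f w ∧ z ∈ e} := by
      ext x
      constructor
      · rintro ⟨h1, h2⟩
        exact ⟨h1, h2.2⟩
      · rintro ⟨h1, h2⟩
        exact ⟨h1, F.sub w h1, h2⟩
    rw [e1]
    exact (ZMod.natCast_eq_zero_iff_even).2 (F.ev w z)
  have hmin : ∀ b : E → ZMod 2, Λ.bd b = 0 → b = 0 ∨ b = fun _ => 1 := by
    intro b hb
    have h4 := F.star_min h3 z ((fun u : E => s(z, u.1)) '' {u | b u = 1}) (by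
      rintro x ⟨u, -, rfl⟩
      exact ⟨by rw [SimpleGraph.mem_edgeSet]; exact u.2, Sym2.mem_mk_left _ _⟩) (by
      intro w
      have h5 := congrFun hb w
      rw [hbd] at h5
      exact (ZMod.natCast_eq_zero_iff_even).1 h5)
    have h01 : ∀ y : ZMod 2, y = 0 ∨ y = 1 := by decide
    rcases h4 with h4 | h4
    · left
      funext u
      rcases h01 (b u) with h | h
      · exact h
      · exfalso
        have : s(z, u.1) ∈ (fun u : E => s(z, u.1)) '' {u | b u = 1} := ⟨u, h, rfl⟩
        rw [h4] at this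
        exact this
    · right
      funext u
      have : s(z, u.1) ∈ (fun u : E => s(z, u.1)) '' {u | b u = 1} := by
        rw [h4]
        exact ⟨by rw [SimpleGraph.mem_edgeSet]; exact u.2, Sym2.mem_mk_left _ _⟩
      obtain ⟨u', hu', he⟩ := this
      rw [hinj he] at hu'
      exact hu'
  obtain ⟨d, hd, e, w, hw, hJ, -⟩ := ring_of_minimal Λ (fun u => hst u) hev hmin
  have hd3 : 3 ≤ d := by
    have h4 : Fintype.card E = d := by
      rw [← Fintype.card_fin d]
      exact (Fintype.card_congr e).symm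
    have h5 : Function.Injective (![⟨a, ha⟩, ⟨b, hb⟩, ⟨c, hc⟩] : Fin 3 → E) := by
      intro i j hij
      fin_cases i <;> fin_cases j <;>
        first
        | rfl
        | (exfalso
           have h6 := congrArg Subtype.val hij
           simp only [Matrix.cons_val_zero, Matrix.cons_val_one, Matrix.cons_val] at h6
           first
           | exact hab h6
           | exact hab h6.symm
           | exact hbc h6
           | exact hbc h6.symm
           | exact hac h6
           | exact hac h6.symm)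
    have h6 := Fintype.card_le_of_injective _ h5
    rw [h4, Fintype.card_fin] at h6
    exact h6
  refine ⟨d, hd3, fun i => (e i).1, fun i => w (finRotate d i), ?_, ?_, ?_, ?_⟩
  · exact Subtype.val_injective.comp e.injective
  · exact hw.comp (finRotate d).injective
  · ext v
    constructor
    · rintro ⟨i, rfl⟩
      exact (e i).2
    · intro hv
      exact ⟨e.symm ⟨v, hv⟩, by simp⟩
  · intro i f
    rw [hmem (e i) f]
    simp only [Equiv.apply_symm_apply]
    rcases hJ i with ⟨h4, h5⟩ | ⟨h4, h5⟩
    · have h4' : s (e i) = w i := h4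
      have h5' : t (e i) = w (finRotate d i) := h5
      rw [h4', h5']
      tauto
    · have h4' : t (e i) = w i := h4
      have h5' : s (e i) = w (finRotate d i) := h5
      rw [h4', h5']

end Pool.Agent.BOND
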