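import Mathlib
import Pool.Agent.BOND.PD0
import Pool.Agent.BOND.PD1

/-! # BOND, module PD3: faces are circuits -/

set_option autoImplicit false

namespace Pool.Agent.BOND

variable {V : Type}

private theorem fm_aux [Fintype V] {G : SimpleGraph V} {W : Type} [Finite W] (h3 : C3 G)
    (F : Fcs G W) (w : W) (c : Set (Sym2 V)) (hc : c ⊆ F.f w) (S : Set W) (hwS : w ∉ S)
    (hS : ∀ e ∈ G.edgeSet,
      (e ∈ c ↔ ∃ w₁ w₂, w₁ ∈ S ∧ w₂ ∉ S ∧ e ∈ F.f w₁ ∧ e ∈ F.f w₂)) :
    c = ∅ ∨ c = F.f w := by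
  -- the faces at a vertex are on the same side
  have hside : ∀ (v : V) (w₁ w₂ : W), (∃ e ∈ F.f w₁, v ∈ e) → (∃ e ∈ F.f w₂, v ∈ e) →
      w₁ ≠ w → w₂ ≠ w → (w₁ ∈ S ↔ w₂ ∈ S) := by
    intro v w₁ w₂ h₁ h₂ n₁ n₂
    refine F.side h3 v S {w} Set.subsingleton_singleton ?_ h₁ h₂ n₁ n₂
    intro e he _ a b ha hb na nb
    rw [Set.mem_singleton_iff] at na nb
    obtain ⟨p, q, hpq, hf⟩ := F.two e he
    by_cases hab : a = b
    · rw [hab]
    · -- then `e` is not in `f w`
      have hew : e ∉ F.f w := by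
        intro hew
        have e1 := (hf a).1 ha
        have e2 := (hf b).1 hb
        have e3 := (hf w).1 hew
        rcases e1 with rfl | rfl <;> rcases e2 with rfl | rfl <;> rcases e3 with rfl | rfl <;>
          first
            | exact hab rfl
            | exact na rfl
            | exact nb rfl
      have hec : e ∉ c := fun h => hew (hc h)
      rw [hS e he] at hec
      constructor
      · intro h
        by_contra h'
        exact hec ⟨a, b, h, h', ha, hb⟩
      · intro h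
        by_contra h'
        exact hec ⟨b, a, h, h', hb, ha⟩
  -- every edge has a face different from `w`
  have hother : ∀ e ∈ G.edgeSet, ∃ a, a ≠ w ∧ e ∈ F.f a := by
    intro e he
    obtain ⟨p, q, hpq, hf⟩ := F.two e he
    by_cases hp : p = w
    · exact ⟨q, fun h => hpq (hp.trans h.symm), (hf q).2 (Or.inr rfl)⟩
    · exact ⟨p, hp, (hf p).2 (Or.inl rfl)⟩
  have hstep : ∀ u v, G.Adj u v → (∃ w' ∈ S, w' ≠ w ∧ ∃ e ∈ F.f w', u ∈ e) →
      ∃ w' ∈ S, w' ≠ w ∧ ∃ e ∈ F.f w', v ∈ e := by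
    rintro u v huv ⟨w', hw', hne, hu⟩
    obtain ⟨a, ha, hea⟩ := hother s(u, v) huv
    refine ⟨a, ?_, ha, s(u, v), hea, Sym2.mem_mk_right u v⟩
    exact (hside u w' a hu ⟨s(u, v), hea, Sym2.mem_mk_left u v⟩ hne ha).1 hw'
  have hall : ∀ u v, (∃ w' ∈ S, w' ≠ w ∧ ∃ e ∈ F.f w', u ∈ e) →
      ∃ w' ∈ S, w' ≠ w ∧ ∃ e ∈ F.f w', v ∈ e := by
    intro u v
    obtain ⟨p⟩ := h3.connected.preconnected u v
    induction p with
    | nil => exact id
    | cons h _ ih => exact fun hu => ih (hstep _ _ h hu)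
  by_cases hT : ∃ v, ∃ w' ∈ S, w' ≠ w ∧ ∃ e ∈ F.f w', v ∈ e
  · right
    obtain ⟨v₀, hv₀⟩ := hT
    apply Set.Subset.antisymm hc
    intro e he
    have heG := F.sub w he
    obtain ⟨a, ha, hea⟩ := hother e heG
    rw [hS e heG]
    refine ⟨a, w, ?_, hwS, hea, he⟩
    obtain ⟨u, hu⟩ : ∃ u, u ∈ e := by
      induction e using Sym2.ind with
      | _ x y => exact ⟨x, Sym2.mem_mk_left x y⟩
    obtain ⟨w', hw', hne, hu'⟩ := hall v₀ u hv₀
    exact (hside u w' a hu' ⟨e, hea, hu⟩ hne ha).1 hw'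
  · left
    rw [Set.eq_empty_iff_forall_notMem]
    intro e he
    have heG := F.sub w (hc he)
    obtain ⟨w₁, w₂, h₁, h₂, e₁, e₂⟩ := (hS e heG).1 he
    obtain ⟨u, hu⟩ : ∃ u, u ∈ e := by
      induction e using Sym2.ind with
      | _ x y => exact ⟨x, Sym2.mem_mk_left x y⟩
    exact hT ⟨u, w₁, h₁, fun h => hwS (h ▸ h₁), e, e₁, hu⟩

/-- a face is a minimal even set of edges -/
theorem face_minimal [Fintype V] {G : SimpleGraph V} {W : Type} [Finite W] (h3 : C3 G)
    (F : Fcs G W) (w : W) (c : Set (Sym2 V)) (hc : c ⊆ F.f w)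
    (hev : ∀ v, Even {e | e ∈ c ∧ v ∈ e}.ncard) : c = ∅ ∨ c = F.f w := by
  obtain ⟨S, hS⟩ := F.span c (fun e he => F.sub w (hc he)) hev
  by_cases hw : w ∈ S
  · refine fm_aux h3 F w c hc Sᶜ (fun h => h hw) (fun e he => ?_)
    rw [hS e he]
    constructor
    · rintro ⟨a, b, ha, hb, h1, h2⟩
      exact ⟨b, a, hb, fun h => h ha, h2, h1⟩
    · rintro ⟨a, b, ha, hb, h1, h2⟩
      exact ⟨b, a, not_not.1 hb, ha, h2, h1⟩
  · exact fm_aux h3 F w c hc S hw hS

private theorem zmod2_cases (x : ZMod 2) : x = 0 ∨ x = 1 := by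
  revert x; decide

open Classical in
/-- parity of a set of edges and the boundary -/
private theorem bd_parity [Finite V] {E : Set (Sym2 V)} [Fintype E] (hE : ∀ e ∈ E, ¬ e.IsDiag)
    (b : E → ZMod 2) (v : V) :
    (MG.mk (fun e : E => (Quot.out e.1).1) (fun e : E => (Quot.out e.1).2)).bd b v =
      (({e : Sym2 V | (∃ h : e ∈ E, b ⟨e, h⟩ = 1) ∧ v ∈ e}.ncard : ℕ) : ZMod 2) := by
  have hterm : ∀ e : E, ((if (Quot.out e.1).1 = v then b e else 0) +
      (if (Quot.out e.1).2 = v then b e else 0)) = if (b e = 1 ∧ v ∈ e.1) then 1 else 0 := by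
    intro e
    have hout : s((Quot.out e.1).1, (Quot.out e.1).2) = e.1 := by
      exact Quot.out_eq e.1
    have hne : (Quot.out e.1).1 ≠ (Quot.out e.1).2 := by
      intro h
      apply hE e.1 e.2
      rw [← hout]
      exact Sym2.mk_isDiag_iff.2 h
    have hmem : v ∈ e.1 ↔ v = (Quot.out e.1).1 ∨ v = (Quot.out e.1).2 := by
      conv_lhs => rw [← hout]
      exact Sym2.mem_iff
    rcases zmod2_cases (b e) with h | h
    · simp [h]
    · simp only [h, hmem]
      by_cases h1 : (Quot.out e.1).1 = v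
      · have h2 : (Quot.out e.1).2 ≠ v := fun h2 => hne (h1.trans h2.symm)
        simp [h1, h2]
      · by_cases h2 : (Quot.out e.1).2 = v
        · simp [h1, h2]
        · simp [h1, h2, Ne.symm h1, Ne.symm h2]
  unfold MG.bd
  rw [Finset.sum_congr rfl fun e _ => hterm e, Finset.sum_boole]
  congr 1
  have hset : {e : Sym2 V | (∃ h : e ∈ E, b ⟨e, h⟩ = 1) ∧ v ∈ e} =
      Subtype.val '' {e : E | b e = 1 ∧ v ∈ e.1} := by
    ext e
    constructor
    · rintro ⟨⟨h, h'⟩, hv⟩
      exact ⟨⟨e, h⟩, ⟨h', hv⟩, rfl⟩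
    · rintro ⟨⟨e', h⟩, ⟨h', hv⟩, rfl⟩
      exact ⟨⟨h, h'⟩, hv⟩
  rw [hset, Set.ncard_image_of_injective _ Subtype.val_injective,
    Set.ncard_eq_toFinset_card']
  congr 1
  ext e
  simp

/-- the vertices of a face except two consecutive ones form a connected set -/
theorem face_path [Fintype V] {G : SimpleGraph V} {W : Type} [Finite W] (h3 : C3 G)
    (F : Fcs G W) (w : W) {z u : V} (h : s(z, u) ∈ F.f w) :
    Con G {v | v ≠ z ∧ v ≠ u ∧ ∃ e ∈ F.f w, v ∈ e} := by
  classical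
  have : Fintype (F.f w) := Fintype.ofFinite _
  have hE : ∀ e ∈ F.f w, ¬ e.IsDiag := fun e he => G.not_isDiag_of_mem_edgeSet (F.sub w he)
  set Λ : MG V (F.f w) := MG.mk (fun e : F.f w => (Quot.out e.1).1)
    (fun e : F.f w => (Quot.out e.1).2) with hΛ
  have : Nonempty (F.f w) := ⟨⟨_, h⟩⟩
  have hout : ∀ e : F.f w, s(Λ.s e, Λ.t e) = e.1 := fun e => Quot.out_eq e.1
  have hl : ∀ e, Λ.s e ≠ Λ.t e := by
    intro e he
    apply hE e.1 e.2
    rw [← hout e]
    exact Sym2.mk_isDiag_iff.2 he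
  have hpar : ∀ (b : F.f w → ZMod 2) (v : V), Λ.bd b v =
      (({e : Sym2 V | (∃ h : e ∈ F.f w, b ⟨e, h⟩ = 1) ∧ v ∈ e}.ncard : ℕ) : ZMod 2) :=
    fun b v => bd_parity hE b v
  obtain ⟨d, hd, e, x, hx, hex, hcov⟩ := ring_of_minimal Λ hl (by
      funext v
      rw [hpar]
      have : {e : Sym2 V | (∃ h : e ∈ F.f w, (fun _ => (1 : ZMod 2)) (⟨e, h⟩ : F.f w) = 1) ∧ v ∈ e} =
          {e | e ∈ F.f w ∧ v ∈ e} := by
        ext e; simp
      rw [this]
      exact (ZMod.natCast_eq_zero_iff_even).2 (F.ev w v)) (by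
      intro b hb
      have hc := face_minimal h3 F w {e | ∃ h : e ∈ F.f w, b ⟨e, h⟩ = 1}
        (by rintro e ⟨he, _⟩; exact he) (by
          intro v
          have h1 := hpar b v
          rw [hb] at h1
          exact (ZMod.natCast_eq_zero_iff_even).1 h1.symm)
      rcases hc with hc | hc
      · left
        funext e
        rcases zmod2_cases (b e) with h' | h'
        · exact h'
        · have : e.1 ∈ {e | ∃ h : e ∈ F.f w, b ⟨e, h⟩ = 1} := ⟨e.2, h'⟩
          rw [hc] at this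
          exact absurd this (Set.notMem_empty _)
      · right
        funext e
        have : e.1 ∈ {e | ∃ h : e ∈ F.f w, b ⟨e, h⟩ = 1} := by rw [hc]; exact e.2
        exact this.2)
  obtain ⟨m, rfl⟩ : ∃ m, d = m + 1 := ⟨d - 1, by omega⟩
  have hedge : ∀ i, (e i).1 = s(x i, x (i + 1)) := by
    intro i
    rw [← hout (e i)]
    rcases hex i with ⟨h1, h2⟩ | ⟨h1, h2⟩
    · rw [h1, h2, finRotate_apply]
    · rw [h1, h2, finRotate_apply]; exact Sym2.eq_swap
  -- at least three vertices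
  have hm : 2 ≤ m := by
    by_contra hcon
    have hm1 : m = 1 := by omega
    subst hm1
    have h1 := hedge 0
    have h2 := hedge 1
    have h3' : (e 0).1 = (e 1).1 := by
      rw [h1, h2]
      have : (1 : Fin 2) + 1 = 0 := by decide
      rw [this, zero_add]
      exact Sym2.eq_swap
    have h4 := e.injective (Subtype.ext h3')
    exact absurd h4 (by decide)
  have hadj : ∀ i, G.Adj (x i) (x (i + 1)) := by
    intro i
    have h1 := F.sub w (e i).2
    rw [hedge i] at h1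
    exact h1
  -- the position of the edge `zu`
  obtain ⟨k, hk⟩ : ∃ k, (e k).1 = s(z, u) := ⟨e.symm ⟨_, h⟩, by simp⟩
  have hzu : ∀ v, (v ≠ z ∧ v ≠ u) ↔ (v ≠ x k ∧ v ≠ x (k + 1)) := by
    intro v
    have h1 : s(z, u) = s(x k, x (k + 1)) := by rw [← hk, hedge k]
    rw [Sym2.eq_iff] at h1
    rcases h1 with ⟨rfl, rfl⟩ | ⟨rfl, rfl⟩
    · rfl
    · exact and_comm
  -- the vertices of the face
  have hvert : ∀ v, (∃ e' ∈ F.f w, v ∈ e') ↔ v ∈ Set.range x := by
    intro v
    constructor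
    · rintro ⟨e', he', hv⟩
      apply hcov v
      refine ⟨⟨e', he'⟩, ?_⟩
      have h1 : s(Λ.s ⟨e', he'⟩, Λ.t ⟨e', he'⟩) = e' := hout ⟨e', he'⟩
      rw [← h1, Sym2.mem_iff] at hv
      rcases hv with hv | hv
      · left; exact hv.symm
      · right; exact hv.symm
    · rintro ⟨i, rfl⟩
      refine ⟨(e i).1, (e i).2, ?_⟩
      rw [hedge i]
      exact Sym2.mem_mk_left _ _
  -- numbers modulo `m + 1`
  let c : ℕ → Fin (m + 1) := fun a => ⟨a % (m + 1), Nat.mod_lt _ (Nat.succ_pos m)⟩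
  have cval : ∀ a, (c a).val = a % (m + 1) := fun _ => rfl
  have cadd : ∀ a b, c (a + b) = c a + c b := by
    intro a b
    apply Fin.ext
    rw [Fin.val_add, cval, cval, cval, Nat.add_mod]
  have c1 : c 1 = 1 := by
    apply Fin.ext
    rw [cval, Fin.val_one']
  have c0 : c 0 = 0 := by
    apply Fin.ext
    rw [cval]; simp
  have cm : c (m + 1) = 0 := by
    apply Fin.ext
    rw [cval]; simp
  have cself : ∀ j : Fin (m + 1), c j.val = j := by
    intro j
    apply Fin.ext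
    rw [cval, Nat.mod_eq_of_lt j.isLt]
  -- growing path
  have hpath : ∀ n : ℕ, Con G {v | ∃ i : ℕ, i ≤ n ∧ v = x (k + 1 + 1 + c i)} := by
    intro n
    induction n with
    | zero =>
      have : {v | ∃ i : ℕ, i ≤ 0 ∧ v = x (k + 1 + 1 + c i)} = {x (k + 1 + 1 + c 0)} := by
        ext v
        simp
      rw [this]
      exact Con.single G _
    | succ n ih =>
      have : {v | ∃ i : ℕ, i ≤ n + 1 ∧ v = x (k + 1 + 1 + c i)} =
          {v | ∃ i : ℕ, i ≤ n ∧ v = x (k + 1 + 1 + c i)} ∪ {x (k + 1 + 1 + c (n + 1))} := by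
        ext v
        simp only [Set.mem_ofPred_eq, Set.mem_union, Set.mem_singleton_iff]
        constructor
        · rintro ⟨i, hi, rfl⟩
          rcases Nat.lt_or_ge n i with h1 | h1
          · right
            have : i = n + 1 := by omega
            rw [this]
          · left; exact ⟨i, h1, rfl⟩
        · rintro (⟨i, hi, rfl⟩ | rfl)
          · exact ⟨i, by omega, rfl⟩
          · exact ⟨n + 1, le_rfl, rfl⟩
      rw [this]
      refine Con.union_nb ih (Con.single G _) ⟨_, ⟨n, le_rfl, rfl⟩, _, rfl, ?_⟩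
      have h1 := hadj (k + 1 + 1 + c n)
      have h2 : k + 1 + 1 + c n + 1 = k + 1 + 1 + c (n + 1) := by
        rw [cadd, c1, add_assoc (k + 1 + 1)]
      rwa [h2] at h1
  have hfin : {v | v ≠ z ∧ v ≠ u ∧ ∃ e ∈ F.f w, v ∈ e} =
      {v | ∃ i : ℕ, i ≤ m - 2 ∧ v = x (k + 1 + 1 + c i)} := by
    ext v
    simp only [Set.mem_ofPred_eq]
    have h1 : (v ≠ z ∧ v ≠ u ∧ ∃ e ∈ F.f w, v ∈ e) ↔
        ((v ≠ x k ∧ v ≠ x (k + 1)) ∧ v ∈ Set.range x) := by
      rw [← hzu, ← hvert]; tauto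
    rw [h1]
    constructor
    · rintro ⟨⟨n1, n2⟩, j, rfl⟩
      have hj : j = k + 1 + 1 + c (j - (k + 1 + 1)).val := by
        rw [cself]; abel
      refine ⟨(j - (k + 1 + 1)).val, ?_, congrArg x hj⟩
      have hlt := (j - (k + 1 + 1)).isLt
      by_contra hcon
      push Not at hcon
      have hval : (j - (k + 1 + 1)).val = m - 1 ∨ (j - (k + 1 + 1)).val = m := by omega
      rcases hval with hval | hval
      · apply n1
        rw [hj, hval]
        have h4 : k + 1 + 1 + c (m - 1) = k + c (1 + (1 + (m - 1))) := by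
          rw [cadd, cadd, c1]; abel
        have h5 : 1 + (1 + (m - 1)) = m + 1 := by omega
        rw [h4, h5, cm, add_zero]
      · apply n2
        rw [hj, hval]
        have h4 : k + 1 + 1 + c m = k + 1 + c (1 + m) := by
          rw [cadd, c1]; abel
        rw [h4, add_comm 1 m, cm, add_zero]
    · rintro ⟨i, hi, rfl⟩
      refine ⟨⟨fun h => ?_, fun h => ?_⟩, _, rfl⟩
      · have h2 := hx h
        have h3 : k + c (1 + (1 + i)) = k + 0 := by
          rw [cadd, cadd, c1, add_zero, ← add_assoc, ← add_assoc]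
          exact h2
        have h4 := congrArg Fin.val (add_left_cancel h3)
        rw [cval, Nat.mod_eq_of_lt (by omega)] at h4
        simp at h4
      · have h2 := hx h
        have h3 : k + 1 + c (1 + i) = k + 1 + 0 := by
          rw [cadd, c1, add_zero]
          rw [← add_assoc]
          exact h2
        have h4 := congrArg Fin.val (add_left_cancel h3)
        rw [cval, Nat.mod_eq_of_lt (by omega)] at h4
        simp at h4
  rw [hfin]
  exact hpath (m - 2)

end Pool.Agent.BOND
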