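import Mathlib
import Pool.Agent.BOND.PD2

/-! # BOND, module PD3T: two faces share at most an edge -/

set_option autoImplicit false

namespace Pool.Agent.BOND

variable {V : Type}

open PD0

/-- two faces at `z` are joined by an arc of edges at `z` -/
lemma PD3T.arc [Fintype V] {G : SimpleGraph V} {W : Type} [Fintype W] [DecidableEq W] (h3 : C3 G)
    (F : Fcs G W) {w w' : W} {z : V} (hz : ∃ e ∈ F.f w, z ∈ e) (hz' : ∃ e ∈ F.f w', z ∈ e) :
    ∃ a : Sym2 V → ZMod 2, (∀ e, a e ≠ 0 → e ∈ G.edgeSet ∧ z ∈ e) ∧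
      ∀ x, ∑ e, a e * ind (F.f x) e = (if x = w then 1 else 0) + (if x = w' then 1 else 0) := by
  classical
  have hmem : (Pi.single w 1 + Pi.single w' 1 : W → ZMod 2) ∈ Submodule.span (ZMod 2)
      (Set.range fun e : {e : Sym2 V // e ∈ G.edgeSet ∧ z ∈ e} => fun x => ind (F.f x) e.1) := by
    by_contra hcon
    obtain ⟨φ, hφ, hle⟩ := Submodule.exists_le_ker_of_notMem hcon
    apply hφ
    have hside := F.side h3 z {x | φ (Pi.single x 1) = 1} ∅ Set.subsingleton_empty (by
      intro e he hve w₁ w₂ h₁ h₂ _ _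
      obtain ⟨x, y, hne, hxy⟩ := F.two e he
      have h4 : (fun x => ind (F.f x) e) = (Pi.single x 1 + Pi.single y 1 : W → ZMod 2) := by
        funext t
        simp only [Pi.add_apply]
        by_cases htx : t = x
        · subst htx
          have : e ∈ F.f t := (hxy t).2 (Or.inl rfl)
          simp [ind, this, Pi.single_eq_of_ne hne]
        · by_cases hty : t = y
          · subst hty
            have : e ∈ F.f t := (hxy t).2 (Or.inr rfl)
            simp [ind, this, Pi.single_eq_of_ne htx]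
          · have : e ∉ F.f t := fun h' => by
              rcases (hxy t).1 h' with h' | h'
              · exact htx h'
              · exact hty h'
            simp [ind, this, Pi.single_eq_of_ne htx, Pi.single_eq_of_ne hty]
      have h5 : φ (fun x => ind (F.f x) e) = 0 :=
        hle (Submodule.subset_span ⟨⟨e, he, hve⟩, rfl⟩)
      rw [h4, map_add] at h5
      have h6 : φ (Pi.single x 1) = φ (Pi.single y 1) := by
        rcases PD0.zmod2_cases (φ (Pi.single x 1)) with g1 | g1 <;>
          rcases PD0.zmod2_cases (φ (Pi.single y 1)) with g2 | g2 <;>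
          rw [g1, g2] at h5 ⊢ <;> exact absurd h5 (by decide)
      rcases (hxy w₁).1 h₁ with rfl | rfl <;> rcases (hxy w₂).1 h₂ with rfl | rfl <;>
        simp [h6]) hz hz' (Set.notMem_empty _) (Set.notMem_empty _)
    rw [map_add]
    rcases PD0.zmod2_cases (φ (Pi.single w 1)) with g1 | g1 <;>
      rcases PD0.zmod2_cases (φ (Pi.single w' 1)) with g2 | g2
    · rw [g1, g2]; decide
    · have := hside.2 g2
      rw [Set.mem_ofPred_eq, g1] at this
      exact absurd this (by decide)
    · have := hside.1 g1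
      rw [Set.mem_ofPred_eq, g2] at this
      exact absurd this (by decide)
    · rw [g1, g2]; decide
  obtain ⟨b, hb⟩ := (Submodule.mem_span_range_iff_exists_fun _).1 hmem
  refine ⟨fun e => if h : e ∈ G.edgeSet ∧ z ∈ e then b ⟨e, h⟩ else 0, ?_, ?_⟩
  · intro e he
    by_contra hcon
    simp [hcon] at he
  · intro x
    have h1 := congrFun hb x
    rw [Finset.sum_apply] at h1
    simp only [Pi.smul_apply, smul_eq_mul, Pi.add_apply, Pi.single_apply] at h1
    rw [← h1]
    obtain ⟨g, hg⟩ : ∃ g : Sym2 V → ZMod 2, g = fun e =>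
      (if h : e ∈ G.edgeSet ∧ z ∈ e then b ⟨e, h⟩ else 0) * ind (F.f x) e := ⟨_, rfl⟩
    have h2 : ∑ e, g e = ∑ e ∈ Finset.univ.filter (fun e => e ∈ G.edgeSet ∧ z ∈ e), g e := by
      symm
      apply Finset.sum_subset (Finset.filter_subset _ _)
      intro e _ he
      rw [Finset.mem_filter] at he
      have : ¬ (e ∈ G.edgeSet ∧ z ∈ e) := fun h' => he ⟨Finset.mem_univ _, h'⟩
      rw [hg]
      simp only [this, dif_neg, not_false_eq_true, zero_mul]
    have h3' : ∑ e ∈ Finset.univ.filter (fun e => e ∈ G.edgeSet ∧ z ∈ e), g e =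
        ∑ e : {e : Sym2 V // e ∈ G.edgeSet ∧ z ∈ e}, g e.1 :=
      Finset.sum_subtype _ (by simp) g
    rw [hg] at h2 h3'
    rw [h2, h3']
    apply Finset.sum_congr rfl
    intro e _
    have := e.2
    simp only [this, dif_pos, and_self]

/-- two different faces with two common vertices are the two faces of the edge joining them -/
theorem two_faces [Fintype V] {G : SimpleGraph V} {W : Type} [Finite W] (h3 : C3 G)
    (F : Fcs G W) {w w' : W} (hw : w ≠ w') {z v : V} (hzv : z ≠ v)
    (hz : ∃ e ∈ F.f w, z ∈ e) (hz' : ∃ e ∈ F.f w', z ∈ e)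
    (hv : ∃ e ∈ F.f w, v ∈ e) (hv' : ∃ e ∈ F.f w', v ∈ e) :
    s(z, v) ∈ F.f w ∧ s(z, v) ∈ F.f w' := by
  classical
  have := Fintype.ofFinite W
  obtain ⟨a, ha0, ha⟩ := PD3T.arc h3 F hz hz'
  obtain ⟨b, hb0, hb⟩ := PD3T.arc h3 F hv hv'
  have h11 : ∀ t : ZMod 2, t + t = 0 := by decide
  have hstar : ∀ y x, ∑ e, ind {e | e ∈ G.edgeSet ∧ y ∈ e} e * ind (F.f x) e = 0 := by
    intro y x
    rw [← (PD0.even_iff _).1 (F.ev x y)]
    apply Finset.sum_congr rfl
    intro e _
    rw [← PD0.ind_mul]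
    congr 1
    ext e'
    exact ⟨fun h => ⟨h.2, h.1.2⟩, fun h => ⟨⟨F.sub x h.1, h.2⟩, h.1⟩⟩
  obtain ⟨g, hg⟩ : ∃ g : Set (Sym2 V), g = {e | a e + b e = 1} := ⟨_, rfl⟩
  have hgi : ∀ e, ind g e = a e + b e := by
    intro e
    rcases PD0.zmod2_cases (a e + b e) with h | h
    · have : e ∉ g := by rw [hg]; intro h'; rw [Set.mem_ofPred_eq, h] at h'; exact absurd h' (by decide)
      simp [ind, this, h]
    · have : e ∈ g := by rw [hg]; exact h
      simp [ind, this, h]
  have hgs : g ⊆ {e | e ∈ G.edgeSet ∧ (z ∈ e ∨ v ∈ e)} := by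
    intro e he
    by_cases hae : a e = 0
    · have hbe : b e ≠ 0 := by
        intro h
        rw [hg, Set.mem_ofPred_eq, hae, h] at he
        exact absurd he (by decide)
      exact ⟨(hb0 e hbe).1, Or.inr (hb0 e hbe).2⟩
    · exact ⟨(ha0 e hae).1, Or.inl (ha0 e hae).2⟩
  have hgev : ∀ x, Even (F.f x ∩ g).ncard := by
    intro x
    rw [PD0.even_iff]
    calc ∑ e, ind (F.f x ∩ g) e = ∑ e, (a e * ind (F.f x) e + b e * ind (F.f x) e) := by
          apply Finset.sum_congr rfl
          intro e _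
          rw [PD0.ind_mul, hgi]
          ring
      _ = 0 := by
          rw [Finset.sum_add_distrib, ha, hb, h11]
  have hcase : ∃ ε₁ ε₂ : ZMod 2, ∀ e, a e + ε₁ * ind {e | e ∈ G.edgeSet ∧ z ∈ e} e =
      b e + ε₂ * ind {e | e ∈ G.edgeSet ∧ v ∈ e} e := by
    have hab : ∀ s t : ZMod 2, ∀ r, s + t = r → s + r = t ∧ s = t + r := by decide
    rcases F.star_min2 h3 hzv g hgs hgev with h | h | h | h
    · refine ⟨0, 0, fun e => ?_⟩
      have h1 := hgi e
      rw [h] at h1
      have h2 := hab (a e) (b e) 0 (by rw [← h1]; simp [ind])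
      rw [zero_mul, zero_mul]
      rw [add_zero, h2.2]
    · refine ⟨1, 0, fun e => ?_⟩
      have h1 := hgi e
      rw [h] at h1
      have h2 := hab (a e) (b e) _ h1.symm
      rw [one_mul, zero_mul, add_zero]
      exact h2.1
    · refine ⟨0, 1, fun e => ?_⟩
      have h1 := hgi e
      rw [h] at h1
      have h2 := hab (a e) (b e) _ h1.symm
      rw [one_mul, zero_mul, add_zero]
      exact h2.2
    · refine ⟨1, 1, fun e => ?_⟩
      have h1 := hgi e
      rw [h] at h1
      have h4 : ind {e | e ∈ G.edgeSet ∧ (z ∈ e ∨ v ∈ e) ∧ ¬ (z ∈ e ∧ v ∈ e)} e =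
          ind {e | e ∈ G.edgeSet ∧ z ∈ e} e + ind {e | e ∈ G.edgeSet ∧ v ∈ e} e := by
        unfold ind
        by_cases g0 : e ∈ G.edgeSet <;> by_cases g1 : z ∈ e <;> by_cases g2 : v ∈ e <;>
          simp [g0, g1, g2] <;> decide
      rw [h4] at h1
      have h5 : ∀ s t p q : ZMod 2, p + q = s + t → s + 1 * p = t + 1 * q := by decide
      exact h5 _ _ _ _ h1
  obtain ⟨ε₁, ε₂, hε⟩ := hcase
  have hmain : ∀ x, (x = w ∨ x = w') → s(z, v) ∈ F.f x := by
    intro x hx
    have h1 : ∑ e, (a e + ε₁ * ind {e | e ∈ G.edgeSet ∧ z ∈ e} e) * ind (F.f x) e = 1 := by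
      have h2 : ∀ e, (a e + ε₁ * ind {e | e ∈ G.edgeSet ∧ z ∈ e} e) * ind (F.f x) e =
          a e * ind (F.f x) e + ε₁ * (ind {e | e ∈ G.edgeSet ∧ z ∈ e} e * ind (F.f x) e) := by
        intro e; ring
      simp_rw [h2]
      rw [Finset.sum_add_distrib, ← Finset.mul_sum, hstar, mul_zero, add_zero, ha]
      rcases hx with rfl | rfl
      · simp [hw]
      · simp [hw.symm]
    obtain ⟨e, _, he⟩ := Finset.exists_ne_zero_of_sum_ne_zero (by rw [h1]; decide :
      ∑ e, (a e + ε₁ * ind {e | e ∈ G.edgeSet ∧ z ∈ e} e) * ind (F.f x) e ≠ 0)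
    have hex : e ∈ F.f x := by
      by_contra h
      simp [ind, h] at he
    have hne : a e + ε₁ * ind {e | e ∈ G.edgeSet ∧ z ∈ e} e ≠ 0 := left_ne_zero_of_mul he
    have hz1 : z ∈ e := by
      by_contra h
      have h2 : a e = 0 := by
        by_contra h'
        exact h (ha0 e h').2
      apply hne
      simp [ind, h, h2]
    have hv1 : v ∈ e := by
      by_contra h
      have h2 : b e = 0 := by
        by_contra h'
        exact h (hb0 e h').2
      apply hne
      rw [hε e]
      simp [ind, h, h2]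
    have := (Sym2.mem_and_mem_iff hzv).1 ⟨hz1, hv1⟩
    rw [← this]
    exact hex
  exact ⟨hmain w (Or.inl rfl), hmain w' (Or.inr rfl)⟩

end Pool.Agent.BOND
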