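import Mathlib
import Pool.Agent.BOND.PD2
import Pool.Agent.BOND.PD3
import Pool.Agent.BOND.PD3T

/-! # BOND, module PD4: the ring of connected sets around a vertex -/

set_option autoImplicit false

namespace Pool.Agent.BOND

variable {V : Type}

theorem link_ring [Fintype V] {G : SimpleGraph V} {W : Type} [Finite W] (h3 : C3 G)
    (F : Fcs G W) (z : V) :
    ∃ (d : ℕ) (_ : 3 ≤ d) (u : Fin d → V) (w : Fin d → W) (Q : Fin d → Set V),
      Function.Injective u ∧ Function.Injective w ∧ Set.range u = {v | G.Adj z v} ∧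
      (∀ i f, s(z, u i) ∈ F.f f ↔ (f = w i ∨ f = w ((finRotate d).symm i))) ∧
      (∀ i, u i ∈ Q i) ∧ (∀ i, z ∉ Q i) ∧ (∀ i, Con G (Q i)) ∧
      (∀ i j, i ≠ j → Disjoint (Q i) (Q j)) ∧ ∀ i, Nb G (Q i) (Q (finRotate d i)) := by
  obtain ⟨d, hd, u, w, hu, hw, hrange, hface⟩ := star_ring h3 F z
  have hadj : ∀ i, G.Adj z (u i) := fun i => by
    have : u i ∈ Set.range u := ⟨i, rfl⟩
    rw [hrange] at this
    exact this
  have hrot : ∀ i : Fin d, finRotate d i ≠ i := by
    intro i h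
    obtain ⟨n, rfl⟩ : ∃ n, d = n + 1 := ⟨d - 1, by omega⟩
    have h1 := congrArg Fin.val h
    rw [finRotate_succ_apply] at h1
    rcases Nat.lt_or_ge (i.1 + 1) (n + 1) with h2 | h2
    · rw [Fin.val_add_one_of_lt' h2] at h1
      omega
    · have h3 : i = Fin.last n := Fin.ext (by simp; omega)
      subst h3
      simp at h1
      omega
  have h1 : ∀ i, s(z, u i) ∈ F.f (w i) := fun i => (hface i (w i)).2 (Or.inl rfl)
  have h2 : ∀ i, s(z, u (finRotate d i)) ∈ F.f (w i) := fun i =>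
    (hface _ (w i)).2 (Or.inr (by rw [Equiv.symm_apply_apply]))
  have hQu : ∀ i, u i ∈ {v | v ≠ z ∧ v ≠ u (finRotate d i) ∧ ∃ e ∈ F.f (w i), v ∈ e} :=
    fun i => ⟨(hadj i).ne.symm, fun h => hrot i (hu h).symm, s(z, u i), h1 i, by simp⟩
  refine ⟨d, hd, u, w, fun i => {v | v ≠ z ∧ v ≠ u (finRotate d i) ∧ ∃ e ∈ F.f (w i), v ∈ e},
    hu, hw, hrange, hface, hQu, fun i h => h.1 rfl, fun i => face_path h3 F (w i) (h2 i), ?_, ?_⟩
  · intro i j hij
    rw [Set.disjoint_left]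
    rintro v ⟨hvz, hvi, e, he, hve⟩ ⟨_, hvj, e', he', hve'⟩
    have h4 := two_faces h3 F (fun h => hij (hw h)) hvz.symm ⟨_, h1 i, by simp⟩
      ⟨_, h1 j, by simp⟩ ⟨e, he, hve⟩ ⟨e', he', hve'⟩
    have hzv : G.Adj z v := F.sub _ h4.1
    have hv : v ∈ Set.range u := by rw [hrange]; exact hzv
    obtain ⟨k, rfl⟩ := hv
    have h5 : ∀ l, s(z, u k) ∈ F.f (w l) → u k ≠ u (finRotate d l) → l = k := by
      intro l hl hne
      rcases (hface k (w l)).1 hl with h | h
      · exact hw h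
      · exfalso
        apply hne
        rw [hw h, Equiv.apply_symm_apply]
    exact hij ((h5 i h4.1 hvi).trans (h5 j h4.2 hvj).symm)
  · intro i
    have h5 := F.ev (w i) (u (finRotate d i))
    have h6 : s(z, u (finRotate d i)) ∈ {e | e ∈ F.f (w i) ∧ u (finRotate d i) ∈ e} :=
      ⟨h2 i, by simp⟩
    obtain ⟨e, he, hne⟩ : ∃ e ∈ {e | e ∈ F.f (w i) ∧ u (finRotate d i) ∈ e},
        e ≠ s(z, u (finRotate d i)) := by
      by_contra hcon
      push Not at hcon
      have : {e | e ∈ F.f (w i) ∧ u (finRotate d i) ∈ e} = {s(z, u (finRotate d i))} := by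
        ext e
        exact ⟨fun he => hcon e he, fun he => by rw [Set.mem_singleton_iff] at he; rw [he]; exact h6⟩
      rw [this, Set.ncard_singleton] at h5
      exact absurd h5 (by decide)
    obtain ⟨he1, he2⟩ := he
    obtain ⟨c, rfl⟩ := he2
    have hbc : G.Adj (u (finRotate d i)) c := F.sub _ he1
    refine ⟨c, ⟨?_, hbc.ne.symm, _, he1, by simp⟩, u (finRotate d i), hQu _, hbc.symm⟩
    rintro rfl
    exact hne Sym2.eq_swap

end Pool.Agent.BOND
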