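import Mathlib
import Pool.Agent.BOND.Conn

/-! # BOND, module PD6: crossing patterns give minors -/

set_option autoImplicit false

namespace Pool.Agent.BOND

variable {V : Type}

/-- union of the parts with index in `p` -/
private def pdU {d : ℕ} (Q : Fin d → Set V) (p : ℕ → Prop) : Set V :=
  {v | ∃ m : Fin d, p m.1 ∧ v ∈ Q m}

private theorem pdU_disj {d : ℕ} {Q : Fin d → Set V} (hQ : ∀ i j, i ≠ j → Disjoint (Q i) (Q j))
    {p q : ℕ → Prop} (h : ∀ m, p m → q m → False) : Disjoint (pdU Q p) (pdU Q q) := by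
  rw [Set.disjoint_left]
  rintro v ⟨m, hm, hv⟩ ⟨n, hn, hv'⟩
  by_cases hmn : m = n
  · subst hmn; exact h _ hm hn
  · exact Set.disjoint_left.1 (hQ m n hmn) hv hv'

private theorem pdU_sub {d : ℕ} {Q : Fin d → Set V} {p : ℕ → Prop} {m : Fin d} (h : p m.1) :
    Q m ⊆ pdU Q p := fun _ hv => ⟨m, h, hv⟩

private theorem pd_next {G : SimpleGraph V} {x y : V} {d : ℕ} {Q : Fin d → Set V}
    (h : Ring G x y d Q) {a : ℕ} (ha : a + 1 < d) :
    Nb G (Q ⟨a, by omega⟩) (Q ⟨a + 1, ha⟩) := by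
  obtain ⟨n, rfl⟩ : ∃ n, d = n + 1 := ⟨d - 1, by omega⟩
  have h1 := h.nxt ⟨a, by omega⟩
  rwa [finRotate_of_lt (by omega)] at h1

private theorem pd_wrap {G : SimpleGraph V} {x y : V} {d : ℕ} {Q : Fin d → Set V}
    (h : Ring G x y d Q) (hd : 0 < d) :
    Nb G (Q ⟨d - 1, by omega⟩) (Q ⟨0, hd⟩) := by
  obtain ⟨n, rfl⟩ : ∃ n, d = n + 1 := ⟨d - 1, by omega⟩
  have h1 := h.nxt (Fin.last n)
  rw [finRotate_last] at h1
  exact h1

private theorem pd_arc {G : SimpleGraph V} {x y : V} {d : ℕ} {Q : Fin d → Set V}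
    (h : Ring G x y d Q) {a : ℕ} : ∀ {b : ℕ}, a < b → b ≤ d →
    Con G (pdU Q (fun m => a ≤ m ∧ m < b)) := by
  intro b
  induction b with
  | zero => intro h1; omega
  | succ b ih =>
    intro h1 h2
    by_cases hab : a = b
    · have : pdU Q (fun m => a ≤ m ∧ m < b + 1) = Q ⟨b, by omega⟩ := by
        ext v
        constructor
        · rintro ⟨m, hm, hv⟩
          have : m = ⟨b, by omega⟩ := Fin.ext (by show m.1 = b; omega)
          rwa [← this]
        · intro hv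
          exact ⟨_, ⟨hab.le, by simp⟩, hv⟩
      rw [this]
      exact h.con _
    · have h3 := ih (by omega) (by omega)
      have h4 : Nb G (pdU Q (fun m => a ≤ m ∧ m < b)) (Q ⟨b, by omega⟩) := by
        have h5 := pd_next h (a := b - 1) (by omega)
        have h6 : (⟨b - 1 + 1, by omega⟩ : Fin d) = ⟨b, by omega⟩ := Fin.ext (by show b - 1 + 1 = b; omega)
        rw [h6] at h5
        exact h5.mono (pdU_sub (by show a ≤ b - 1 ∧ b - 1 < b; omega)) le_rfl
      have h5 : pdU Q (fun m => a ≤ m ∧ m < b + 1) =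
          pdU Q (fun m => a ≤ m ∧ m < b) ∪ Q ⟨b, by omega⟩ := by
        ext v
        constructor
        · rintro ⟨m, hm, hv⟩
          by_cases hmb : m.1 = b
          · right
            have : m = ⟨b, by omega⟩ := Fin.ext hmb
            rwa [← this]
          · left
            exact ⟨m, ⟨hm.1, by have := hm.2; omega⟩, hv⟩
        · rintro (⟨m, hm, hv⟩ | hv)
          · exact ⟨m, ⟨hm.1, by have := hm.2; omega⟩, hv⟩
          · exact ⟨_, ⟨h1.le.trans (by omega) |>.trans (Nat.le_refl _) |> fun _ => by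
              show a ≤ b; omega, by simp⟩, hv⟩
      rw [h5]
      exact h3.union_nb (h.con _) h4

/-- the arc from `a` over the end to `b` -/
private theorem pd_arc_wrap {G : SimpleGraph V} {x y : V} {d : ℕ} {Q : Fin d → Set V}
    (h : Ring G x y d Q) {a b : ℕ} (ha : a < d) (hb : b ≤ a) :
    Con G (pdU Q (fun m => a ≤ m ∨ m < b)) := by
  have h1 := pd_arc h ha le_rfl
  by_cases hb0 : b = 0
  · have : pdU Q (fun m => a ≤ m ∨ m < b) = pdU Q (fun m => a ≤ m ∧ m < d) := by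
      ext v
      constructor
      · rintro ⟨m, hm, hv⟩
        exact ⟨m, ⟨by omega, m.2⟩, hv⟩
      · rintro ⟨m, hm, hv⟩
        exact ⟨m, Or.inl hm.1, hv⟩
    rw [this]; exact h1
  · have h2 := pd_arc h (a := 0) (b := b) (by omega) (by omega)
    have : pdU Q (fun m => a ≤ m ∨ m < b) = pdU Q (fun m => a ≤ m ∧ m < d) ∪
        pdU Q (fun m => 0 ≤ m ∧ m < b) := by
      ext v
      constructor
      · rintro ⟨m, hm | hm, hv⟩
        · exact Or.inl ⟨m, ⟨hm, m.2⟩, hv⟩
        · exact Or.inr ⟨m, ⟨by omega, hm⟩, hv⟩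
      · rintro (⟨m, hm, hv⟩ | ⟨m, hm, hv⟩)
        · exact ⟨m, Or.inl hm.1, hv⟩
        · exact ⟨m, Or.inr hm.2, hv⟩
    rw [this]
    refine h1.union_nb h2 ?_
    refine (pd_wrap h (by omega)).mono (pdU_sub ?_) (pdU_sub ?_)
    · show a ≤ d - 1 ∧ d - 1 < d
      omega
    · show 0 ≤ 0 ∧ 0 < b
      omega

private theorem pd_next_arc {G : SimpleGraph V} {x y : V} {d : ℕ} {Q : Fin d → Set V}
    (h : Ring G x y d Q) {p q : ℕ → Prop} {b : ℕ} (hb0 : 0 < b) (hb : b < d) (hp : p (b - 1))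
    (hq : q b) : Nb G (pdU Q p) (pdU Q q) := by
  have h5 := pd_next h (a := b - 1) (by omega)
  have h6 : (⟨b - 1 + 1, by omega⟩ : Fin d) = ⟨b, hb⟩ := Fin.ext (by show b - 1 + 1 = b; omega)
  rw [h6] at h5
  exact h5.mono (pdU_sub hp) (pdU_sub hq)

theorem cross_k33 {G : SimpleGraph V} {x y : V} (hxy : G.Adj x y) {d : ℕ} {Q : Fin d → Set V}
    (h : Ring G x y d Q) {i j k l : Fin d} (hij : i < j) (hjk : j < k) (hkl : k < l)
    (hi : Nb G {x} (Q i)) (hj : Nb G {y} (Q j)) (hk : Nb G {x} (Q k)) (hl : Nb G {y} (Q l)) :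
    HasMinor K33 G := by
  have hij' : i.1 < j.1 := hij
  have hjk' : j.1 < k.1 := hjk
  have hkl' : k.1 < l.1 := hkl
  have hld := l.2
  obtain ⟨Ri, hRi⟩ : ∃ R, R = pdU Q (fun m => i.1 ≤ m ∧ m < j.1) := ⟨_, rfl⟩
  obtain ⟨Rj, hRj⟩ : ∃ R, R = pdU Q (fun m => j.1 ≤ m ∧ m < k.1) := ⟨_, rfl⟩
  obtain ⟨Rk, hRk⟩ : ∃ R, R = pdU Q (fun m => k.1 ≤ m ∧ m < l.1) := ⟨_, rfl⟩
  obtain ⟨Rl, hRl⟩ : ∃ R, R = pdU Q (fun m => l.1 ≤ m ∨ m < i.1) := ⟨_, rfl⟩
  have cx := Con.single G x
  have cy := Con.single G y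
  have ci : Con G Ri := by rw [hRi]; exact pd_arc h hij' (by omega)
  have cj : Con G Rj := by rw [hRj]; exact pd_arc h hjk' (by omega)
  have ck : Con G Rk := by rw [hRk]; exact pd_arc h hkl' (by omega)
  have cl : Con G Rl := by rw [hRl]; exact pd_arc_wrap h hld (by omega)
  have nx : ∀ p, Disjoint {x} (pdU Q p) := by
    intro p
    rw [Set.disjoint_singleton_left]
    rintro ⟨m, -, hm⟩
    exact h.nx m hm
  have ny : ∀ p, Disjoint {y} (pdU Q p) := by
    intro p
    rw [Set.disjoint_singleton_left]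
    rintro ⟨m, -, hm⟩
    exact h.ny m hm
  have dxy : Disjoint ({x} : Set V) {y} := by
    rw [Set.disjoint_singleton]; exact hxy.ne
  have dxi : Disjoint {x} Ri := hRi ▸ nx _
  have dxj : Disjoint {x} Rj := hRj ▸ nx _
  have dxk : Disjoint {x} Rk := hRk ▸ nx _
  have dxl : Disjoint {x} Rl := hRl ▸ nx _
  have dyi : Disjoint {y} Ri := hRi ▸ ny _
  have dyj : Disjoint {y} Rj := hRj ▸ ny _
  have dyk : Disjoint {y} Rk := hRk ▸ ny _
  have dyl : Disjoint {y} Rl := hRl ▸ ny _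
  have dij : Disjoint Ri Rj := by rw [hRi, hRj]; exact pdU_disj h.disj (by intro m; omega)
  have dik : Disjoint Ri Rk := by rw [hRi, hRk]; exact pdU_disj h.disj (by intro m; omega)
  have dil : Disjoint Ri Rl := by rw [hRi, hRl]; exact pdU_disj h.disj (by intro m; omega)
  have djk : Disjoint Rj Rk := by rw [hRj, hRk]; exact pdU_disj h.disj (by intro m; omega)
  have djl : Disjoint Rj Rl := by rw [hRj, hRl]; exact pdU_disj h.disj (by intro m; omega)
  have dkl : Disjoint Rk Rl := by rw [hRk, hRl]; exact pdU_disj h.disj (by intro m; omega)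
  have axy : Nb G {x} {y} := ⟨x, rfl, y, rfl, hxy⟩
  have axi : Nb G {x} Ri := by rw [hRi]; exact hi.mono le_rfl (pdU_sub ⟨le_rfl, hij'⟩)
  have axk : Nb G {x} Rk := by rw [hRk]; exact hk.mono le_rfl (pdU_sub ⟨le_rfl, hkl'⟩)
  have ajy : Nb G Rj {y} := by rw [hRj]; exact (hj.mono le_rfl (pdU_sub ⟨le_rfl, hjk'⟩)).symm
  have aly : Nb G Rl {y} := by rw [hRl]; exact (hl.mono le_rfl (pdU_sub (Or.inl le_rfl))).symm
  have aji : Nb G Rj Ri := by
    rw [hRi, hRj]; exact (pd_next_arc h (b := j.1) (by omega) j.2 (by omega) (by omega)).symm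
  have ajk : Nb G Rj Rk := by
    rw [hRj, hRk]; exact pd_next_arc h (b := k.1) (by omega) k.2 (by omega) (by omega)
  have alk : Nb G Rl Rk := by
    rw [hRk, hRl]; exact (pd_next_arc h (b := l.1) (by omega) l.2 (by omega) (by omega)).symm
  have ali : Nb G Rl Ri := by
    rw [hRi, hRl]
    by_cases hi0 : i.1 = 0
    · refine (pd_wrap h (by omega)).mono (pdU_sub ?_) (pdU_sub ?_)
      · show l.1 ≤ d - 1 ∨ d - 1 < i.1
        omega
      · show i.1 ≤ 0 ∧ 0 < j.1
        omega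
    · exact pd_next_arc h (b := i.1) (by omega) i.2 (by omega) (by omega)
  refine ⟨Sum.elim ![{x}, Rj, Rl] ![{y}, Ri, Rk], ?_, ?_, ?_⟩
  · rintro (s | s) <;> fin_cases s <;> assumption
  · rintro (s | s) (t | t) hst <;> fin_cases s <;> fin_cases t <;>
      first
        | exact (hst rfl).elim
        | assumption
        | (apply Disjoint.symm; assumption)
  · rintro (s | s) (t | t) hst
    · simp at hst
    · fin_cases s <;> fin_cases t <;> assumption
    · fin_cases s <;> fin_cases t <;> (apply Nb.symm; assumption)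
    · simp at hst

theorem cross_k5 {G : SimpleGraph V} {x y : V} (hxy : G.Adj x y) {d : ℕ} {Q : Fin d → Set V}
    (h : Ring G x y d Q) {i j k : Fin d} (hij : i < j) (hjk : j < k)
    (hi : Nb G {x} (Q i)) (hj : Nb G {x} (Q j)) (hk : Nb G {x} (Q k))
    (hi' : Nb G {y} (Q i)) (hj' : Nb G {y} (Q j)) (hk' : Nb G {y} (Q k)) :
    HasMinor K5 G := by
  have hij' : i.1 < j.1 := hij
  have hjk' : j.1 < k.1 := hjk
  have hkd := k.2
  obtain ⟨Ri, hRi⟩ : ∃ R, R = pdU Q (fun m => i.1 ≤ m ∧ m < j.1) := ⟨_, rfl⟩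
  obtain ⟨Rj, hRj⟩ : ∃ R, R = pdU Q (fun m => j.1 ≤ m ∧ m < k.1) := ⟨_, rfl⟩
  obtain ⟨Rk, hRk⟩ : ∃ R, R = pdU Q (fun m => k.1 ≤ m ∨ m < i.1) := ⟨_, rfl⟩
  have cx := Con.single G x
  have cy := Con.single G y
  have ci : Con G Ri := by rw [hRi]; exact pd_arc h hij' (by omega)
  have cj : Con G Rj := by rw [hRj]; exact pd_arc h hjk' (by omega)
  have ck : Con G Rk := by rw [hRk]; exact pd_arc_wrap h hkd (by omega)
  have nx : ∀ p, Disjoint {x} (pdU Q p) := by
    intro p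
    rw [Set.disjoint_singleton_left]
    rintro ⟨m, -, hm⟩
    exact h.nx m hm
  have ny : ∀ p, Disjoint {y} (pdU Q p) := by
    intro p
    rw [Set.disjoint_singleton_left]
    rintro ⟨m, -, hm⟩
    exact h.ny m hm
  have dxy : Disjoint ({x} : Set V) {y} := by
    rw [Set.disjoint_singleton]; exact hxy.ne
  have dxi : Disjoint {x} Ri := hRi ▸ nx _
  have dxj : Disjoint {x} Rj := hRj ▸ nx _
  have dxk : Disjoint {x} Rk := hRk ▸ nx _
  have dyi : Disjoint {y} Ri := hRi ▸ ny _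
  have dyj : Disjoint {y} Rj := hRj ▸ ny _
  have dyk : Disjoint {y} Rk := hRk ▸ ny _
  have dij : Disjoint Ri Rj := by rw [hRi, hRj]; exact pdU_disj h.disj (by intro m; omega)
  have dik : Disjoint Ri Rk := by rw [hRi, hRk]; exact pdU_disj h.disj (by intro m; omega)
  have djk : Disjoint Rj Rk := by rw [hRj, hRk]; exact pdU_disj h.disj (by intro m; omega)
  have axy : Nb G {x} {y} := ⟨x, rfl, y, rfl, hxy⟩
  have axi : Nb G {x} Ri := by rw [hRi]; exact hi.mono le_rfl (pdU_sub ⟨le_rfl, hij'⟩)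
  have axj : Nb G {x} Rj := by rw [hRj]; exact hj.mono le_rfl (pdU_sub ⟨le_rfl, hjk'⟩)
  have axk : Nb G {x} Rk := by rw [hRk]; exact hk.mono le_rfl (pdU_sub (Or.inl le_rfl))
  have ayi : Nb G {y} Ri := by rw [hRi]; exact hi'.mono le_rfl (pdU_sub ⟨le_rfl, hij'⟩)
  have ayj : Nb G {y} Rj := by rw [hRj]; exact hj'.mono le_rfl (pdU_sub ⟨le_rfl, hjk'⟩)
  have ayk : Nb G {y} Rk := by rw [hRk]; exact hk'.mono le_rfl (pdU_sub (Or.inl le_rfl))
  have aij : Nb G Ri Rj := by
    rw [hRi, hRj]; exact pd_next_arc h (b := j.1) (by omega) j.2 (by omega) (by omega)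
  have ajk : Nb G Rj Rk := by
    rw [hRj, hRk]; exact pd_next_arc h (b := k.1) (by omega) k.2 (by omega) (by omega)
  have aki : Nb G Rk Ri := by
    rw [hRi, hRk]
    by_cases hi0 : i.1 = 0
    · refine (pd_wrap h (by omega)).mono (pdU_sub ?_) (pdU_sub ?_)
      · show k.1 ≤ d - 1 ∨ d - 1 < i.1
        omega
      · show i.1 ≤ 0 ∧ 0 < j.1
        omega
    · exact pd_next_arc h (b := i.1) (by omega) i.2 (by omega) (by omega)
  refine ⟨![{x}, {y}, Ri, Rj, Rk], ?_, ?_, ?_⟩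
  · intro s
    fin_cases s <;> assumption
  · intro s t hst
    fin_cases s <;> fin_cases t <;>
      first
        | exact (hst rfl).elim
        | assumption
        | (apply Disjoint.symm; assumption)
  · intro s t hst
    have hst' : s ≠ t := hst
    fin_cases s <;> fin_cases t <;>
      first
        | exact (hst' rfl).elim
        | assumption
        | (apply Nb.symm; assumption)

end Pool.Agent.BOND
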