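import Mathlib
import Pool.Agent.BOND.Defs

/-! # BOND, module PD7: combinatorics of non crossing pairs -/

set_option autoImplicit false

namespace Pool.Agent.BOND

private theorem pd7_rot {d : ℕ} (n : ℕ) (i : Fin d) :
    ((finRotate d ^ n) i).1 = (n + i.1) % d := by
  obtain ⟨m, rfl⟩ : ∃ m, d = m + 1 := ⟨d - 1, by have := i.2; omega⟩
  induction n with
  | zero =>
    simp only [pow_zero, Equiv.Perm.one_apply, zero_add]
    rw [Nat.mod_eq_of_lt i.2]
  | succ n ih =>
    rw [pow_succ', Equiv.Perm.mul_apply, coe_finRotate]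
    have h : (n + 1 + i.1) % (m + 1) = ((n + i.1) % (m + 1) + 1) % (m + 1) := by
      rw [Nat.mod_add_mod]
      congr 1
      omega
    rw [h, ← ih]
    split_ifs with h1
    · rw [h1]
      simp
    · have h2 : ((finRotate (m + 1) ^ n) i).1 < m := by
        have h3 := ((finRotate (m + 1) ^ n) i).2
        rcases Nat.lt_or_ge ((finRotate (m + 1) ^ n) i).1 m with h4 | h4
        · exact h4
        · exfalso
          apply h1
          apply Fin.ext
          simp only [Fin.val_last]
          omega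
      rw [Nat.mod_eq_of_lt (by omega)]

/-- no alternation in the periodic form -/
private theorem pd7_alt {d : ℕ} (hd : 0 < d) (X Y : Fin d → Prop)
    (h1 : ¬ ∃ i j k l, i < j ∧ j < k ∧ k < l ∧ X i ∧ Y j ∧ X k ∧ Y l)
    (h2 : ¬ ∃ i j k l, i < j ∧ j < k ∧ k < l ∧ Y i ∧ X j ∧ Y k ∧ X l)
    {a b c e : ℕ} (hab : a < b) (hbc : b < c) (hce : c < e) (hea : e < a + d)
    (ha : X ⟨a % d, Nat.mod_lt _ hd⟩) (hb : Y ⟨b % d, Nat.mod_lt _ hd⟩)
    (hc : X ⟨c % d, Nat.mod_lt _ hd⟩) (he : Y ⟨e % d, Nat.mod_lt _ hd⟩) : False := by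
  -- reduce to `a < d`
  obtain ⟨q, r, hr, rfl⟩ : ∃ q r, r < d ∧ a = r + q * d :=
    ⟨a / d, a % d, Nat.mod_lt _ hd, by rw [Nat.mul_comm]; exact (Nat.mod_add_div a d).symm⟩
  obtain ⟨b', rfl⟩ : ∃ b', b = b' + q * d := ⟨b - q * d, by omega⟩
  obtain ⟨c', rfl⟩ : ∃ c', c = c' + q * d := ⟨c - q * d, by omega⟩
  obtain ⟨e', rfl⟩ : ∃ e', e = e' + q * d := ⟨e - q * d, by omega⟩
  simp only [Nat.add_mul_mod_self_right] at ha hb hc he
  have hab' : r < b' := by omega
  have hbc' : b' < c' := by omega
  have hce' : c' < e' := by omega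
  have hea' : e' < r + d := by omega
  have hlow : ∀ m, m < d → m % d = m := fun m hm => Nat.mod_eq_of_lt hm
  have hhigh : ∀ m, d ≤ m → m < r + d → m % d = m - d := by
    intro m h3 h4
    rw [Nat.mod_eq_sub_mod h3, Nat.mod_eq_of_lt (by omega)]
  simp only [hlow r hr] at ha
  by_cases hbd : b' < d
  · simp only [hlow b' hbd] at hb
    by_cases hcd : c' < d
    · simp only [hlow c' hcd] at hc
      by_cases hed : e' < d
      · simp only [hlow e' hed] at he
        exact h1 ⟨_, _, _, _, Fin.mk_lt_mk.2 hab', Fin.mk_lt_mk.2 hbc', Fin.mk_lt_mk.2 hce',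
          ha, hb, hc, he⟩
      · simp only [hhigh e' (by omega) hea'] at he
        exact h2 ⟨_, _, _, _, Fin.mk_lt_mk.2 (by omega), Fin.mk_lt_mk.2 hab',
          Fin.mk_lt_mk.2 hbc', he, ha, hb, hc⟩
    · simp only [hhigh c' (by omega) (by omega)] at hc
      simp only [hhigh e' (by omega) hea'] at he
      exact h1 ⟨_, _, _, _, Fin.mk_lt_mk.2 (by omega), Fin.mk_lt_mk.2 (by omega),
        Fin.mk_lt_mk.2 hab', hc, he, ha, hb⟩
  · simp only [hhigh b' (by omega) (by omega)] at hb
    simp only [hhigh c' (by omega) (by omega)] at hc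
    simp only [hhigh e' (by omega) hea'] at he
    exact h2 ⟨_, _, _, _, Fin.mk_lt_mk.2 (by omega), Fin.mk_lt_mk.2 (by omega),
      Fin.mk_lt_mk.2 (by omega), hb, hc, he, ha⟩

/-- If `X ∪ Y` is everything, both have at least two elements, there is no alternation
`x y x y` or `y x y x` and at most two common elements, then after a rotation `X = [0, p]` and
`Y = (p, d-1]` plus possibly `0` and `p`. -/
theorem intervals {d : ℕ} (hd : 3 ≤ d) (X Y : Fin d → Prop) (hXY : ∀ i, X i ∨ Y i)
    (hX : ∃ i j, i ≠ j ∧ X i ∧ X j) (hY : ∃ i j, i ≠ j ∧ Y i ∧ Y j)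
    (h1 : ¬ ∃ i j k l, i < j ∧ j < k ∧ k < l ∧ X i ∧ Y j ∧ X k ∧ Y l)
    (h2 : ¬ ∃ i j k l, i < j ∧ j < k ∧ k < l ∧ Y i ∧ X j ∧ Y k ∧ X l)
    (h3 : ¬ ∃ i j k, i < j ∧ j < k ∧ X i ∧ X j ∧ X k ∧ Y i ∧ Y j ∧ Y k) :
    ∃ (n : ℕ) (p : ℕ), 1 ≤ p ∧ p < d ∧
      (∀ i : Fin d, X (((finRotate d) ^ n) i) ↔ i.1 ≤ p) ∧
      (∀ i : Fin d, p < i.1 → Y (((finRotate d) ^ n) i)) ∧
      (∀ i : Fin d, Y (((finRotate d) ^ n) i) → p ≤ i.1 ∨ i.1 = 0) := by
  classical
  have hd0 : 0 < d := by omega
  by_cases hall : ∀ i, X i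
  · -- `X` is everything
    obtain ⟨i, j, hij, hi, hj⟩ : ∃ i j, i < j ∧ Y i ∧ Y j := by
      obtain ⟨i, j, hij, hi, hj⟩ := hY
      rcases lt_or_gt_of_ne hij with h | h
      · exact ⟨i, j, h, hi, hj⟩
      · exact ⟨j, i, h, hj, hi⟩
    have honly : ∀ k, Y k → k = i ∨ k = j := by
      intro k hk
      by_contra hcon
      push Not at hcon
      rcases lt_trichotomy k i with h | h | h
      · exact h3 ⟨k, i, j, h, hij, hall _, hall _, hall _, hk, hi, hj⟩
      · exact hcon.1 h
      · rcases lt_trichotomy k j with h' | h' | h'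
        · exact h3 ⟨i, k, j, h, h', hall _, hall _, hall _, hi, hk, hj⟩
        · exact hcon.2 h'
        · exact h3 ⟨i, j, k, hij, h', hall _, hall _, hall _, hi, hj, hk⟩
    have hij' : i.1 < j.1 := hij
    have hjd := j.2
    have hadj : i.1 + 1 = j.1 ∨ (i.1 = 0 ∧ j.1 + 1 = d) := by
      by_contra hcon
      push Not at hcon
      obtain ⟨hc1, hc2⟩ := hcon
      by_cases hjl : j.1 + 1 < d
      · exact h2 ⟨i, ⟨i.1 + 1, by omega⟩, j, ⟨j.1 + 1, hjl⟩, Fin.mk_lt_mk.2 (by omega),
          Fin.lt_def.2 (by simp; omega), Fin.lt_def.2 (by simp), hi, hall _, hj, hall _⟩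
      · have hi0 : 0 < i.1 := by
          rcases Nat.eq_zero_or_pos i.1 with h | h
          · exact absurd (by omega) (hc2 h)
          · exact h
        exact h1 ⟨⟨0, hd0⟩, i, ⟨i.1 + 1, by omega⟩, j, Fin.lt_def.2 (by simpa using hi0),
          Fin.lt_def.2 (by simp), Fin.lt_def.2 (by simp; omega), hall _, hi, hall _, hj⟩
    rcases hadj with hadj | ⟨hi0, hjl⟩
    · refine ⟨j.1, d - 1, by omega, by omega, ?_, ?_, ?_⟩
      · intro k
        have := k.2
        exact ⟨fun _ => by omega, fun _ => hall _⟩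
      · intro k hk
        have := k.2
        omega
      · intro k hk
        have hkd := k.2
        have h4 := pd7_rot j.1 k
        by_cases hw : j.1 + k.1 < d
        · rw [Nat.mod_eq_of_lt hw] at h4
          rcases honly _ hk with h | h
          · have := congrArg Fin.val h
            omega
          · have := congrArg Fin.val h
            omega
        · rw [Nat.mod_eq_sub_mod (by omega), Nat.mod_eq_of_lt (by omega)] at h4
          rcases honly _ hk with h | h
          · have := congrArg Fin.val h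
            omega
          · have := congrArg Fin.val h
            omega
    · refine ⟨0, d - 1, by omega, by omega, ?_, ?_, ?_⟩
      · intro k
        have := k.2
        exact ⟨fun _ => by omega, fun _ => hall _⟩
      · intro k hk
        have := k.2
        omega
      · intro k hk
        have hkd := k.2
        rw [pow_zero, Equiv.Perm.one_apply] at hk
        rcases honly _ hk with h | h
        · have := congrArg Fin.val h
          omega
        · have := congrArg Fin.val h
          omega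
  · -- some element is not in `X`
    push Not at hall
    obtain ⟨s, hs⟩ := hall
    let x : ℕ → Prop := fun m => X ⟨m % d, Nat.mod_lt _ hd0⟩
    let y : ℕ → Prop := fun m => Y ⟨m % d, Nat.mod_lt _ hd0⟩
    have hxy : ∀ m, ¬ x m → y m := fun m hm => (hXY _).resolve_left hm
    have hxf : ∀ i : Fin d, x i.1 ↔ X i := by
      intro i
      show X ⟨i.1 % d, _⟩ ↔ X i
      simp only [Nat.mod_eq_of_lt i.2]
    have hxd : ∀ m, x (m + d) ↔ x m := by
      intro m
      show X ⟨(m + d) % d, _⟩ ↔ X ⟨m % d, _⟩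
      simp only [Nat.add_mod_right]
    have hxr : ∀ n (i : Fin d), X (((finRotate d) ^ n) i) ↔ x (n + i.1) := by
      intro n i
      have : ((finRotate d) ^ n) i = ⟨(n + i.1) % d, Nat.mod_lt _ hd0⟩ := Fin.ext (pd7_rot n i)
      rw [this]
    have hyr : ∀ n (i : Fin d), Y (((finRotate d) ^ n) i) ↔ y (n + i.1) := by
      intro n i
      have : ((finRotate d) ^ n) i = ⟨(n + i.1) % d, Nat.mod_lt _ hd0⟩ := Fin.ext (pd7_rot n i)
      rw [this]
    have halt : ∀ a b c e, a < b → b < c → c < e → e < a + d → x a → y b → x c → y e → False :=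
      fun a b c e hab hbc hce hea ha hb hc he => pd7_alt hd0 X Y h1 h2 hab hbc hce hea ha hb hc he
    obtain ⟨i0, j0, hij0, hi0, hj0⟩ := hX
    -- the start
    have hex : ∃ m, s.1 < m ∧ x m := ⟨i0.1 + d, by have := s.2; omega, by
      rw [hxd, hxf]; exact hi0⟩
    obtain ⟨n, hn1, hxn, hnx⟩ : ∃ n, 1 ≤ n ∧ x n ∧ ¬ x (n + (d - 1)) := by
      have hspec := Nat.find_spec hex
      refine ⟨Nat.find hex, by omega, hspec.2, ?_⟩
      have h4 : Nat.find hex + (d - 1) = (Nat.find hex - 1) + d := by omega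
      rw [h4, hxd]
      by_cases h5 : Nat.find hex - 1 = s.1
      · rw [h5, hxf]; exact hs
      · intro h6
        exact Nat.find_min hex (m := Nat.find hex - 1) (by omega) ⟨by omega, h6⟩
    -- the length
    have hex2 : ∃ m, ¬ x (n + m) := ⟨d - 1, hnx⟩
    obtain ⟨q, hq, hqx, hql⟩ : ∃ q, ¬ x (n + q) ∧ (∀ m, m < q → x (n + m)) ∧ q ≤ d - 1 := by
      refine ⟨Nat.find hex2, Nat.find_spec hex2, ?_, Nat.find_min' hex2 hnx⟩
      intro m hm
      by_contra h
      exact Nat.find_min hex2 hm h
    have hq0 : 0 < q := by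
      rcases Nat.eq_zero_or_pos q with h | h
      · rw [h] at hq
        exact absurd hxn hq
      · exact h
    have hX' : ∀ i : Fin d, x (n + i.1) ↔ i.1 < q := by
      intro i
      refine ⟨fun hi => ?_, hqx i.1⟩
      by_contra hcon
      have hi1 : i.1 ≠ q := by
        intro h
        rw [h] at hi
        exact hq hi
      have hi2 : i.1 ≠ d - 1 := by
        intro h
        rw [h] at hi
        exact hnx hi
      have := i.2
      exact halt n (n + q) (n + i.1) (n + (d - 1)) (by omega) (by omega) (by omega) (by omega)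
        hxn (hxy _ hq) hi (hxy _ hnx)
    have hq2 : 2 ≤ q := by
      by_contra hcon
      have hq1 : q = 1 := by omega
      have hone : ∀ k : Fin d, X k → k = ((finRotate d) ^ n) ⟨0, hd0⟩ := by
        intro k hk
        obtain ⟨a, rfl⟩ := ((finRotate d) ^ n).surjective k
        rw [hxr] at hk
        have := (hX' a).1 hk
        congr 1
        apply Fin.ext
        simp only
        omega
      exact hij0 ((hone _ hi0).trans (hone _ hj0).symm)
    refine ⟨n, q - 1, by omega, by omega, ?_, ?_, ?_⟩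
    · intro i
      rw [hxr, hX']
      omega
    · intro i hi
      rw [hyr]
      apply hxy
      rw [hX']
      omega
    · intro i hi
      rw [hyr] at hi
      by_contra hcon
      push Not at hcon
      exact halt n (n + i.1) (n + (q - 1)) (n + (d - 1)) (by omega) (by omega) (by omega)
        (by omega) hxn hi (hqx _ (by omega)) (hxy _ hnx)

end Pool.Agent.BOND
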