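import Mathlib
import Pool.Agent.BOND.Defs

/-! # BOND, module PD8: adding the third edge of a triangle -/

set_option autoImplicit false

namespace Pool.Agent.BOND

variable {V : Type}

private theorem even_symm {α : Type} {A B : Set α} (hA : A.Finite) (hB : B.Finite) :
    Even (symmDiff A B).ncard ↔ (Even A.ncard ↔ Even B.ncard) := by
  have h1 : (A \ B).ncard + (A ∩ B).ncard = A.ncard := by
    rw [add_comm]; exact Set.ncard_inter_add_ncard_sdiff_eq_ncard A B hA
  have h2 : (B \ A).ncard + (A ∩ B).ncard = B.ncard := by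
    rw [Set.inter_comm, add_comm]; exact Set.ncard_inter_add_ncard_sdiff_eq_ncard B A hB
  have h3 : (symmDiff A B).ncard = (A \ B).ncard + (B \ A).ncard := by
    rw [Set.symmDiff_def]
    refine Set.ncard_union_eq ?_ (hA.subset Set.sdiff_subset) (hB.subset Set.sdiff_subset)
    rw [Set.disjoint_left]
    rintro e ⟨_, h⟩ ⟨h', _⟩
    exact h h'
  rw [h3, ← h1, ← h2, Nat.even_add, Nat.even_add, Nat.even_add]
  tauto

private theorem even_single {α : Type} (a : α) (B : Set α) :
    Even (({a} : Set α) ∩ B).ncard ↔ a ∉ B := by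
  by_cases h : a ∈ B
  · have : ({a} : Set α) ∩ B = {a} := by
      ext e; simp only [Set.mem_inter_iff, Set.mem_singleton_iff]
      constructor
      · exact fun h => h.1
      · rintro rfl; exact ⟨rfl, h⟩
    rw [this, Set.ncard_singleton]
    simp [h]
  · have : ({a} : Set α) ∩ B = ∅ := by
      ext e; simp only [Set.mem_inter_iff, Set.mem_singleton_iff, Set.mem_empty_iff_false, iff_false]
      rintro ⟨rfl, h'⟩; exact h h'
    rw [this, Set.ncard_empty]
    simp [h]

private theorem parity3 {p q r x y u : Prop} (c1 : p ↔ ¬ (x ↔ y)) (c2 : q ↔ ¬ (x ↔ u))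
    (h : ¬ p ↔ (¬ q ↔ ¬ r)) : r ↔ ¬ (y ↔ u) := by
  by_cases h1 : x <;> by_cases h2 : y <;> by_cases h3 : u <;> simp_all

private theorem tri_eq {α : Type} {a b c : α} (hab : a ≠ b) (hac : a ≠ c) (hbc : b ≠ c) :
    ({a, b, c} : Set α) = symmDiff {a} (symmDiff {b} {c}) := by
  ext e
  simp only [Set.mem_insert_iff, Set.mem_singleton_iff, Set.mem_symmDiff]
  constructor
  · rintro (rfl | rfl | rfl)
    · left; exact ⟨rfl, by tauto⟩
    · right; exact ⟨by tauto, fun h => hab h.symm⟩
    · right; exact ⟨by tauto, fun h => hac h.symm⟩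
  · tauto

private theorem even_tri {α : Type} {a b c : α} (hab : a ≠ b) (hac : a ≠ c) (hbc : b ≠ c)
    (B : Set α) :
    Even (({a, b, c} : Set α) ∩ B).ncard ↔ (a ∉ B ↔ (b ∉ B ↔ c ∉ B)) := by
  have fin : ∀ a : α, (({a} : Set α) ∩ B).Finite := fun a =>
    (Set.finite_singleton a).subset Set.inter_subset_left
  have dist : ∀ X Y : Set α, symmDiff X Y ∩ B = symmDiff (X ∩ B) (Y ∩ B) := by
    intro X Y
    ext e; simp only [Set.mem_inter_iff, Set.mem_symmDiff]; tauto
  rw [tri_eq hab hac hbc, dist, dist, even_symm (fin a) ?_, even_symm (fin b) (fin c),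
    even_single, even_single, even_single]
  refine ((fin b).union (fin c)).subset ?_
  intro e he
  simp only [Set.mem_symmDiff] at he
  simp only [Set.mem_union]
  tauto

private theorem set_aux {α : Type} {F : Set α} {a b c : α} (ha : a ∈ F) (hb : b ∈ F)
    (hc : c ∉ F) : (F \ {a, b}) ∪ {c} = symmDiff F {a, b, c} := by
  ext e
  simp only [Set.mem_union, Set.mem_sdiff, Set.mem_insert_iff, Set.mem_singleton_iff,
    Set.mem_symmDiff]
  constructor
  · rintro (⟨h, h'⟩ | rfl)
    · left
      refine ⟨h, ?_⟩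
      rintro (h1 | h1 | rfl)
      · exact h' (Or.inl h1)
      · exact h' (Or.inr h1)
      · exact hc h
    · right; exact ⟨Or.inr (Or.inr rfl), hc⟩
  · rintro (⟨h, h'⟩ | ⟨h, h'⟩)
    · left
      refine ⟨h, ?_⟩
      rintro (h1 | h1)
      · exact h' (Or.inl h1)
      · exact h' (Or.inr (Or.inl h1))
    · rcases h with rfl | rfl | rfl
      · exact absurd ha h'
      · exact absurd hb h'
      · right; rfl

open Classical in
/-- `xy` and `xu` lie in a common face, `yu` is not an edge: `G + yu` has faces. The two new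
faces at `xy` are: the triangle, and the other old face at `xy`. -/
theorem add_tri [Finite V] {G : SimpleGraph V} {W : Type} (F : Fcs G W) {x y u : V} {w₀ : W}
    (hyu : y ≠ u) (hn : ¬ G.Adj y u) (h1 : s(x, y) ∈ F.f w₀) (h2 : s(x, u) ∈ F.f w₀) :
    ∃ F' : Fcs (G ⊔ SimpleGraph.edge y u) (Option W),
      F'.f none = {s(x, y), s(x, u), s(y, u)} ∧
      (∀ w, w ≠ w₀ → F'.f (some w) = F.f w) ∧
      F'.f (some w₀) = (F.f w₀ \ {s(x, y), s(x, u)}) ∪ {s(y, u)} := by
  have hxy : G.Adj x y := F.sub w₀ h1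
  have hxu : G.Adj x u := F.sub w₀ h2
  have nxy := hxy.ne
  have nxu := hxu.ne
  -- the three edges are different
  have ea : s(x, y) ≠ s(x, u) := by
    intro h; rw [Sym2.eq_iff] at h
    rcases h with ⟨_, h⟩ | ⟨h, _⟩
    · exact hyu h
    · exact nxu h
  have eb : s(x, y) ≠ s(y, u) := by
    intro h; rw [Sym2.eq_iff] at h
    rcases h with ⟨h, _⟩ | ⟨h, _⟩
    · exact nxy h
    · exact nxu h
  have ec : s(x, u) ≠ s(y, u) := by
    intro h; rw [Sym2.eq_iff] at h
    rcases h with ⟨h, _⟩ | ⟨h, _⟩
    · exact nxy h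
    · exact nxu h
  set T : Set (Sym2 V) := {s(x, y), s(x, u), s(y, u)} with hT
  have hyuF : ∀ w, s(y, u) ∉ F.f w := fun w h => hn (F.sub w h)
  have hfin : ∀ A : Set (Sym2 V), A.Finite := fun A => Set.toFinite A
  have hle : G.edgeSet ⊆ (G ⊔ SimpleGraph.edge y u).edgeSet :=
    SimpleGraph.edgeSet_mono le_sup_left
  have hyu' : s(y, u) ∈ (G ⊔ SimpleGraph.edge y u).edgeSet := by
    rw [SimpleGraph.mem_edgeSet, SimpleGraph.sup_adj, SimpleGraph.edge_adj]
    right; exact ⟨Or.inl ⟨rfl, rfl⟩, hyu⟩
  have hedge : ∀ e ∈ (G ⊔ SimpleGraph.edge y u).edgeSet, e ∈ G.edgeSet ∨ e = s(y, u) := by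
    intro e he
    induction e using Sym2.ind with
    | _ a b =>
      rw [SimpleGraph.mem_edgeSet, SimpleGraph.sup_adj, SimpleGraph.edge_adj] at he
      rcases he with he | ⟨⟨rfl, rfl⟩ | ⟨rfl, rfl⟩, _⟩
      · left; exact he
      · right; rfl
      · right; exact Sym2.eq_swap
  have hyuG : s(y, u) ∉ G.edgeSet := fun h => hn h
  have hTsub : T ⊆ (G ⊔ SimpleGraph.edge y u).edgeSet := by
    rintro e (rfl | rfl | rfl)
    · exact hle hxy
    · exact hle hxu
    · exact hyu'
  have memT : ∀ e, e ∈ T ↔ e = s(x, y) ∨ e = s(x, u) ∨ e = s(y, u) := fun e => Iff.rfl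
  let f' : Option W → Set (Sym2 V) := fun o =>
    match o with
    | none => T
    | some w => if w = w₀ then symmDiff (F.f w₀) T else F.f w
  have fnone : f' none = T := rfl
  have fw0 : f' (some w₀) = symmDiff (F.f w₀) T := if_pos rfl
  have fw : ∀ w, w ≠ w₀ → f' (some w) = F.f w := fun w hw => if_neg hw
  -- membership away from the triangle
  have fother : ∀ e, e ∉ T → ∀ w, e ∈ f' (some w) ↔ e ∈ F.f w := by
    intro e he w
    by_cases hw : w = w₀
    · rw [hw, fw0, Set.mem_symmDiff]; tauto
    · rw [fw w hw]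
  have hTev : ∀ v, Even {e | e ∈ T ∧ v ∈ e}.ncard := by
    intro v
    have : {e | e ∈ T ∧ v ∈ e} = T ∩ {e | v ∈ e} := rfl
    rw [this, hT, even_tri ea eb ec]
    simp only [Set.mem_ofPred_eq, Sym2.mem_iff]
    by_cases a : v = x
    · subst a; tauto
    · by_cases b : v = y
      · subst b; tauto
      · by_cases c : v = u
        · subst c; tauto
        · tauto
  refine ⟨⟨f', ?_, ?_, ?_, ?_⟩, rfl, fw, ?_⟩
  · -- sub
    rintro (_ | w)
    · exact hTsub
    · by_cases hw : w = w₀
      · rw [hw, fw0]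
        intro e he
        rw [Set.mem_symmDiff] at he
        rcases he with he | he
        · exact hle (F.sub w₀ he.1)
        · exact hTsub he.1
      · rw [fw w hw]
        exact fun e he => hle (F.sub w he)
  · -- two
    intro e he
    have key : ∀ e, e ∈ F.f w₀ → e ∈ T → ∃ w₁ w₂ : Option W, w₁ ≠ w₂ ∧
        ∀ w, e ∈ f' w ↔ (w = w₁ ∨ w = w₂) := by
      intro e he heT
      obtain ⟨a, b, hab, h⟩ := F.two e (F.sub w₀ he)
      obtain ⟨w', hw', hw⟩ : ∃ w', w' ≠ w₀ ∧ ∀ w, e ∈ F.f w ↔ (w = w₀ ∨ w = w') := by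
        rcases (h w₀).1 he with rfl | rfl
        · exact ⟨b, hab.symm, h⟩
        · refine ⟨a, hab, fun w => ?_⟩
          rw [h w]; tauto
      refine ⟨none, some w', by simp, ?_⟩
      rintro (_ | w)
      · rw [fnone]; simp [heT]
      · by_cases hw0 : w = w₀
        · rw [hw0, fw0, Set.mem_symmDiff]
          constructor
          · tauto
          · rintro (h' | h')
            · exact absurd h' (by simp)
            · exact absurd (Option.some.inj h').symm hw'
        · rw [fw w hw0, hw w]
          constructor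
          · rintro (h' | h')
            · exact absurd h' hw0
            · right; rw [h']
          · rintro (h' | h')
            · exact absurd h' (by simp)
            · right; exact Option.some.inj h'
    by_cases heT : e ∈ T
    · rcases (memT e).1 heT with rfl | rfl | rfl
      · exact key _ h1 heT
      · exact key _ h2 heT
      · refine ⟨none, some w₀, by simp, ?_⟩
        rintro (_ | w)
        · rw [fnone]; simp [heT]
        · by_cases hw0 : w = w₀
          · rw [hw0, fw0, Set.mem_symmDiff]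
            simp [heT, hyuF]
          · rw [fw w hw0]
            simp [hyuF, hw0]
    · have heG : e ∈ G.edgeSet := by
        rcases hedge e he with h | h
        · exact h
        · exact absurd ((memT e).2 (Or.inr (Or.inr h))) heT
      obtain ⟨a, b, hab, h⟩ := F.two e heG
      refine ⟨some a, some b, by simpa using hab, ?_⟩
      rintro (_ | w)
      · rw [fnone]; simp [heT]
      · rw [fother e heT w, h w]
        simp
  · -- ev
    rintro (_ | w) v
    · exact hTev v
    · by_cases hw : w = w₀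
      · rw [hw, fw0]
        have e1 : {e | e ∈ symmDiff (F.f w₀) T ∧ v ∈ e} =
            symmDiff {e | e ∈ F.f w₀ ∧ v ∈ e} {e | e ∈ T ∧ v ∈ e} := by
          ext e
          simp only [Set.mem_ofPred_eq, Set.mem_symmDiff]
          tauto
        rw [e1, even_symm (hfin _) (hfin _)]
        exact iff_of_true (F.ev w₀ v) (hTev v)
      · rw [fw w hw]; exact F.ev w v
  · -- cut
    intro B hB hev
    have hTB := hev none
    rw [fnone] at hTB
    have hdiff : ∀ w, F.f w ∩ (B \ {s(y, u)}) = F.f w ∩ B := by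
      intro w
      ext e
      simp only [Set.mem_inter_iff, Set.mem_sdiff, Set.mem_singleton_iff]
      constructor
      · rintro ⟨a, b, _⟩; exact ⟨a, b⟩
      · rintro ⟨a, b⟩
        refine ⟨a, b, ?_⟩
        rintro rfl
        exact hyuF w a
    obtain ⟨X, hX⟩ := F.cut (B \ {s(y, u)}) (by
      rintro e ⟨he, he'⟩
      rcases hedge e (hB he) with h | h
      · exact h
      · exact absurd h he') (by
      intro w
      rw [hdiff]
      by_cases hw : w = w₀
      · have h0 := hev (some w₀)
        rw [fw0] at h0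
        have e1 : F.f w₀ ∩ B = symmDiff (symmDiff (F.f w₀) T ∩ B) (T ∩ B) := by
          ext e
          simp only [Set.mem_inter_iff, Set.mem_symmDiff]
          by_cases m1 : e ∈ F.f w₀ <;> by_cases m2 : e ∈ B <;> by_cases m3 : e ∈ T <;>
            simp [m1, m2, m3]
        rw [hw, e1, even_symm (hfin _) (hfin _)]
        exact iff_of_true h0 hTB
      · have h0 := hev (some w)
        rwa [fw w hw] at h0)
    refine ⟨X, fun a b hab => ?_⟩
    rw [hT, even_tri ea eb ec] at hTB
    have c1 := hX x y hxy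
    have c2 := hX x u hxu
    have d1 : s(x, y) ∈ B \ {s(y, u)} ↔ s(x, y) ∈ B := by
      simp [eb]
    have d2 : s(x, u) ∈ B \ {s(y, u)} ↔ s(x, u) ∈ B := by
      simp [ec]
    rw [d1] at c1
    rw [d2] at c2
    have c3 : s(y, u) ∈ B ↔ ¬ (y ∈ X ↔ u ∈ X) := parity3 c1 c2 hTB
    rw [SimpleGraph.sup_adj, SimpleGraph.edge_adj] at hab
    rcases hab with hab | ⟨⟨rfl, rfl⟩ | ⟨rfl, rfl⟩, _⟩
    · have c4 := hX a b hab
      have c5 : s(a, b) ≠ s(y, u) := by
        intro h; rw [← h] at hyuG; exact hyuG hab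
      have d3 : s(a, b) ∈ B \ {s(y, u)} ↔ s(a, b) ∈ B := by
        simp [c5]
      rwa [d3] at c4
    · exact c3
    · rw [Sym2.eq_swap, c3, not_iff_not]; exact iff_comm
  · exact fw0.trans (set_aux h1 h2 (hyuF w₀)).symm

end Pool.Agent.BOND
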