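import Mathlib
import Pool.Agent.BOND.Defs

/-! # BOND, module PD9: lifting faces through a contraction without common neighbours -/

set_option autoImplicit false

namespace Pool.Agent.BOND

variable {V : Type}

open Classical in
/-- The contraction map on vertices. -/
noncomputable def pd9p {x y : V} (h : x ≠ y) (v : V) : {v : V // v ≠ y} :=
  if hv : v = y then ⟨x, h⟩ else ⟨v, hv⟩

theorem pd9p_ne {x y : V} (h : x ≠ y) {v : V} (hv : v ≠ y) : pd9p h v = ⟨v, hv⟩ := by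
  unfold pd9p
  rw [dif_neg hv]

theorem pd9p_y {x y : V} (h : x ≠ y) : pd9p h y = ⟨x, h⟩ := by
  unfold pd9p
  rw [dif_pos rfl]

theorem pd9p_x {x y : V} (h : x ≠ y) : pd9p h x = ⟨x, h⟩ := pd9p_ne h h

theorem pd9p_eq {x y : V} (h : x ≠ y) {a b : V} :
    pd9p h a = pd9p h b ↔ a = b ∨ (a = x ∧ b = y) ∨ (a = y ∧ b = x) := by
  by_cases ha : a = y
  · subst ha
    by_cases hb : b = a
    · subst hb
      simp
    · rw [pd9p_y, pd9p_ne h hb]
      simp only [Subtype.mk.injEq]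
      constructor
      · rintro rfl
        simp
      · rintro (h1 | ⟨_, h1⟩ | ⟨_, h1⟩)
        · exact absurd h1.symm hb
        · exact absurd h1 hb
        · exact h1.symm
  · by_cases hb : b = y
    · subst hb
      rw [pd9p_y, pd9p_ne h ha]
      simp only [Subtype.mk.injEq]
      constructor
      · rintro rfl
        simp
      · rintro (h1 | ⟨h1, _⟩ | ⟨h1, _⟩)
        · exact absurd h1 ha
        · exact h1
        · exact absurd h1 ha
    · rw [pd9p_ne h ha, pd9p_ne h hb]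
      simp only [Subtype.mk.injEq]
      constructor
      · intro h1
        exact Or.inl h1
      · rintro (h1 | ⟨_, h1⟩ | ⟨h1, _⟩)
        · exact h1
        · exact absurd h1 hb
        · exact absurd h1 ha

theorem pd9_adj {G : SimpleGraph V} {x y : V} (h : x ≠ y) {a b : V} (hab : G.Adj a b)
    (hne : s(a, b) ≠ s(x, y)) : (ctr G x y).Adj (pd9p h a) (pd9p h b) := by
  have hne' : pd9p h a ≠ pd9p h b := by
    intro h1
    rcases (pd9p_eq h).1 h1 with h2 | ⟨h2, h3⟩ | ⟨h2, h3⟩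
    · exact hab.ne h2
    · exact hne (by rw [h2, h3])
    · exact hne (by rw [h2, h3, Sym2.eq_swap])
  refine ⟨hne', ?_⟩
  by_cases ha : a = y
  · subst ha
    rw [pd9p_y, pd9p_ne h hab.ne']
    exact Or.inr (Or.inl ⟨rfl, hab⟩)
  · by_cases hb : b = y
    · subst hb
      rw [pd9p_y, pd9p_ne h ha]
      exact Or.inr (Or.inr ⟨rfl, hab⟩)
    · rw [pd9p_ne h ha, pd9p_ne h hb]
      exact Or.inl hab

theorem pd9_surj {G : SimpleGraph V} {x y : V} (h : x ≠ y) {u v : {v : V // v ≠ y}}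
    (huv : (ctr G x y).Adj u v) :
    ∃ a b, G.Adj a b ∧ s(a, b) ≠ s(x, y) ∧ pd9p h a = u ∧ pd9p h b = v := by
  obtain ⟨u, hu⟩ := u
  obtain ⟨v, hv⟩ := v
  obtain ⟨h0, h1 | ⟨h1, h2⟩ | ⟨h1, h2⟩⟩ := huv
  · refine ⟨u, v, h1, ?_, pd9p_ne h hu, pd9p_ne h hv⟩
    intro h2
    have : y ∈ s(u, v) := by rw [h2]; simp
    rcases Sym2.mem_iff.1 this with h3 | h3
    · exact hu h3.symm
    · exact hv h3.symm
  · simp only at h1 h2
    subst h1
    refine ⟨y, v, h2, ?_, pd9p_y h, pd9p_ne h hv⟩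
    intro h3
    have : u ∈ s(y, v) := by rw [h3]; simp
    rcases Sym2.mem_iff.1 this with h4 | h4
    · exact h h4
    · exact h0 (Subtype.ext h4)
  · simp only at h1 h2
    subst h1
    refine ⟨u, y, h2, ?_, pd9p_ne h hu, pd9p_y h⟩
    intro h3
    have : v ∈ s(u, y) := by rw [h3]; simp
    rcases Sym2.mem_iff.1 this with h4 | h4
    · exact h0 (Subtype.ext h4.symm)
    · exact h h4

/-- edges of `G` other than `xy` -/
def pd9E (G : SimpleGraph V) (x y : V) : Set (Sym2 V) := {e | e ∈ G.edgeSet ∧ e ≠ s(x, y)}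

theorem pd9_maps {G : SimpleGraph V} {x y : V} (h : x ≠ y) {e : Sym2 V} (he : e ∈ pd9E G x y) :
    Sym2.map (pd9p h) e ∈ (ctr G x y).edgeSet := by
  induction e with
  | h a b => exact pd9_adj h he.1 he.2

theorem pd9_onto {G : SimpleGraph V} {x y : V} (h : x ≠ y) {e : Sym2 {v : V // v ≠ y}}
    (he : e ∈ (ctr G x y).edgeSet) : ∃ e' ∈ pd9E G x y, Sym2.map (pd9p h) e' = e := by
  induction e with
  | h u v =>
    obtain ⟨a, b, h1, h2, h3, h4⟩ := pd9_surj h he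
    refine ⟨s(a, b), ⟨h1, h2⟩, ?_⟩
    rw [Sym2.map_mk, h3, h4]

theorem pd9_inj {G : SimpleGraph V} {x y : V} (h : x ≠ y)
    (hc : ∀ u, ¬ (G.Adj x u ∧ G.Adj y u)) : Set.InjOn (Sym2.map (pd9p h)) (pd9E G x y) := by
  have key : ∀ a b c d : V, G.Adj a b → G.Adj c d → s(a, b) ≠ s(x, y) → s(c, d) ≠ s(x, y) →
      pd9p h a = pd9p h c → pd9p h b = pd9p h d → s(a, b) = s(c, d) := by
    intro a b c d hab hcd h1 h2 h3 h4
    rcases (pd9p_eq h).1 h3 with h5 | ⟨rfl, rfl⟩ | ⟨rfl, rfl⟩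
    · rcases (pd9p_eq h).1 h4 with h6 | ⟨rfl, rfl⟩ | ⟨rfl, rfl⟩
      · rw [h5, h6]
      · subst h5
        exact absurd ⟨hab.symm, hcd.symm⟩ (hc a)
      · subst h5
        exact absurd ⟨hcd.symm, hab.symm⟩ (hc a)
    · rcases (pd9p_eq h).1 h4 with h6 | ⟨rfl, rfl⟩ | ⟨rfl, rfl⟩
      · subst h6
        exact absurd ⟨hab, hcd⟩ (hc b)
      · exact absurd hab (SimpleGraph.irrefl _)
      · exact absurd rfl h1
    · rcases (pd9p_eq h).1 h4 with h6 | ⟨rfl, rfl⟩ | ⟨rfl, rfl⟩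
      · subst h6
        exact absurd ⟨hcd, hab⟩ (hc b)
      · exact absurd Sym2.eq_swap h1
      · exact absurd hab (SimpleGraph.irrefl _)
  intro e he e' he' hee
  induction e with
  | h a b =>
    induction e' with
    | h c d =>
      rw [Sym2.map_mk, Sym2.map_mk, Sym2.eq_iff] at hee
      rcases hee with ⟨h3, h4⟩ | ⟨h3, h4⟩
      · exact key a b c d he.1 he'.1 he.2 he'.2 h3 h4
      · rw [Sym2.eq_swap (a := c)]
        refine key a b d c he.1 (show G.Adj c d from he'.1).symm he.2 ?_ h3 h4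
        rw [Sym2.eq_swap]
        exact he'.2

theorem pd9_mem {x y : V} (h : x ≠ y) {v : V} (hx : v ≠ x) (hy : v ≠ y) (e : Sym2 V) :
    pd9p h v ∈ Sym2.map (pd9p h) e ↔ v ∈ e := by
  rw [Sym2.mem_map]
  constructor
  · rintro ⟨a, ha, h1⟩
    rcases (pd9p_eq h).1 h1 with h2 | ⟨_, h2⟩ | ⟨_, h2⟩
    · rw [← h2]; exact ha
    · exact absurd h2 hy
    · exact absurd h2 hx
  · intro hv
    exact ⟨v, hv, rfl⟩

theorem pd9_memx {x y : V} (h : x ≠ y) (e : Sym2 V) :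
    (⟨x, h⟩ : {v : V // v ≠ y}) ∈ Sym2.map (pd9p h) e ↔ x ∈ e ∨ y ∈ e := by
  rw [Sym2.mem_map]
  constructor
  · rintro ⟨a, ha, h1⟩
    rw [← pd9p_x h] at h1
    rcases (pd9p_eq h).1 h1 with h2 | ⟨h2, _⟩ | ⟨h2, _⟩
    · left; rw [← h2]; exact ha
    · left; rw [← h2]; exact ha
    · right; rw [← h2]; exact ha
  · rintro (hv | hv)
    · exact ⟨x, hv, pd9p_x h⟩
    · exact ⟨y, hv, pd9p_y h⟩

/-- the lifted faces -/
def pd9f (G : SimpleGraph V) {x y : V} (h : x ≠ y) {W : Type} (F : Fcs (ctr G x y) W)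
    (w₁ w₂ w : W) : Set (Sym2 V) :=
  {e | (e ∈ pd9E G x y ∧ Sym2.map (pd9p h) e ∈ F.f w) ∨ (e = s(x, y) ∧ (w = w₁ ∨ w = w₂))}

/-- the part of the star of `x` without `xy` -/
theorem pd9_starx {G : SimpleGraph V} {x y : V} (hxy : G.Adj x y) {W : Type}
    (F : Fcs (ctr G x y) W) (w : W) :
    {e | e ∈ pd9E G x y ∧ Sym2.map (pd9p hxy.ne) e ∈ F.f w ∧ x ∈ e} =
      (fun u : {v : V // v ≠ y} => s(x, u.1)) '' {u | G.Adj x u.1 ∧
        s(⟨x, hxy.ne⟩, u) ∈ F.f w} := by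
  ext e
  constructor
  · rintro ⟨⟨h1, h2⟩, h3, h4⟩
    obtain ⟨a, rfl⟩ := Sym2.mem_iff_exists.1 h4
    have ha : a ≠ y := by
      rintro rfl
      exact h2 rfl
    refine ⟨⟨a, ha⟩, ⟨h1, ?_⟩, rfl⟩
    rw [Sym2.map_mk, pd9p_x, pd9p_ne hxy.ne ha] at h3
    exact h3
  · rintro ⟨⟨a, ha⟩, ⟨h1, h2⟩, rfl⟩
    refine ⟨⟨h1, ?_⟩, ?_, by simp⟩
    · intro h3
      have h3' : s(x, a) = s(x, y) := h3
      have : y ∈ s(x, a) := by rw [h3']; simp
      rcases Sym2.mem_iff.1 this with h4 | h4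
      · exact hxy.ne h4.symm
      · exact ha h4.symm
    · simp only [Sym2.map_mk]
      rw [pd9p_x, pd9p_ne hxy.ne ha]
      exact h2

/-- Parity of a set with a possible additional element. -/
theorem pd9_add {α : Type} [Finite α] (A : Set α) (a : α) (ha : a ∉ A) (p : Prop) :
    Even {e | e ∈ A ∨ (e = a ∧ p)}.ncard ↔ (Even A.ncard ↔ ¬ p) := by
  by_cases hp : p
  · have : {e | e ∈ A ∨ (e = a ∧ p)} = insert a A := by
      ext e
      simp only [Set.mem_ofPred_eq, Set.mem_insert_iff]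
      tauto
    rw [this, Set.ncard_insert_of_notMem ha (Set.toFinite A)]
    simp only [hp, not_true, iff_false]
    exact Nat.even_add_one
  · have : {e | e ∈ A ∨ (e = a ∧ p)} = A := by
      ext e
      simp only [Set.mem_ofPred_eq]
      tauto
    rw [this]
    simp [hp]

theorem pd9_ev [Finite V] {G : SimpleGraph V} {x y : V} (hxy : G.Adj x y)
    (hc : ∀ u, ¬ (G.Adj x u ∧ G.Adj y u)) {W : Type} (F : Fcs (ctr G x y) W) {w₁ w₂ : W}
    (hodd : ∀ w, (Even {u : {v : V // v ≠ y} | G.Adj x u.1 ∧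
      s(⟨x, hxy.ne⟩, u) ∈ F.f w}.ncard ↔ (w ≠ w₁ ∧ w ≠ w₂))) (w : W) (v : V) :
    Even {e | e ∈ pd9f G hxy.ne F w₁ w₂ w ∧ v ∈ e}.ncard := by
  have hx1 : Even {e | e ∈ pd9E G x y ∧ Sym2.map (pd9p hxy.ne) e ∈ F.f w ∧ x ∈ e}.ncard ↔
      (w ≠ w₁ ∧ w ≠ w₂) := by
    rw [pd9_starx hxy F w, ← hodd w, Set.InjOn.ncard_image]
    intro a _ b _ hab
    simp only [Sym2.eq_iff] at hab
    rcases hab with ⟨_, h2⟩ | ⟨h1, h2⟩
    · exact Subtype.ext h2
    · exact Subtype.ext (by rw [h2, h1])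
  have hxyE : s(x, y) ∉ pd9E G x y := fun h => h.2 rfl
  by_cases hvx : v = x
  · subst hvx
    have : {e | e ∈ pd9f G hxy.ne F w₁ w₂ w ∧ v ∈ e} =
        {e | e ∈ {e | e ∈ pd9E G v y ∧ Sym2.map (pd9p hxy.ne) e ∈ F.f w ∧ v ∈ e} ∨
          (e = s(v, y) ∧ (w = w₁ ∨ w = w₂))} := by
      ext e
      simp only [pd9f, Set.mem_ofPred_eq]
      constructor
      · rintro ⟨h1 | h1, h2⟩
        · exact Or.inl ⟨h1.1, h1.2, h2⟩
        · exact Or.inr h1
      · rintro (h1 | h1)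
        · exact ⟨Or.inl ⟨h1.1, h1.2.1⟩, h1.2.2⟩
        · refine ⟨Or.inr h1, ?_⟩
          rw [h1.1]
          simp
    rw [this, pd9_add _ _ (fun h => hxyE h.1), hx1]
    tauto
  by_cases hvy : v = y
  · subst hvy
    -- the star of the contracted vertex
    have h1 := F.ev w ⟨x, hxy.ne⟩
    have h2 : {e | e ∈ F.f w ∧ (⟨x, hxy.ne⟩ : {u : V // u ≠ v}) ∈ e} =
        Sym2.map (pd9p hxy.ne) '' ({e | e ∈ pd9E G x v ∧ Sym2.map (pd9p hxy.ne) e ∈ F.f w ∧ x ∈ e} ∪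
          {e | e ∈ pd9E G x v ∧ Sym2.map (pd9p hxy.ne) e ∈ F.f w ∧ v ∈ e}) := by
      ext e
      constructor
      · rintro ⟨he, he'⟩
        obtain ⟨e', h3, rfl⟩ := pd9_onto hxy.ne (F.sub w he)
        refine ⟨e', ?_, rfl⟩
        rcases (pd9_memx hxy.ne e').1 he' with h4 | h4
        · exact Or.inl ⟨h3, he, h4⟩
        · exact Or.inr ⟨h3, he, h4⟩
      · rintro ⟨e', h3 | h3, rfl⟩
        · exact ⟨h3.2.1, (pd9_memx hxy.ne e').2 (Or.inl h3.2.2)⟩
        · exact ⟨h3.2.1, (pd9_memx hxy.ne e').2 (Or.inr h3.2.2)⟩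
    have hdis : Disjoint {e | e ∈ pd9E G x v ∧ Sym2.map (pd9p hxy.ne) e ∈ F.f w ∧ x ∈ e}
        {e | e ∈ pd9E G x v ∧ Sym2.map (pd9p hxy.ne) e ∈ F.f w ∧ v ∈ e} := by
      rw [Set.disjoint_left]
      rintro e ⟨h3, _, h4⟩ ⟨_, _, h5⟩
      exact h3.2 ((Sym2.mem_and_mem_iff hxy.ne).1 ⟨h4, h5⟩)
    have hio : Set.InjOn (Sym2.map (pd9p hxy.ne))
        ({e | e ∈ pd9E G x v ∧ Sym2.map (pd9p hxy.ne) e ∈ F.f w ∧ x ∈ e} ∪
          {e | e ∈ pd9E G x v ∧ Sym2.map (pd9p hxy.ne) e ∈ F.f w ∧ v ∈ e}) := by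
      refine (pd9_inj hxy.ne hc).mono ?_
      rintro e (h3 | h3)
      · exact h3.1
      · exact h3.1
    rw [h2, hio.ncard_image, Set.ncard_union_eq hdis (Set.toFinite _) (Set.toFinite _)] at h1
    have : {e | e ∈ pd9f G hxy.ne F w₁ w₂ w ∧ v ∈ e} =
        {e | e ∈ {e | e ∈ pd9E G x v ∧ Sym2.map (pd9p hxy.ne) e ∈ F.f w ∧ v ∈ e} ∨
          (e = s(x, v) ∧ (w = w₁ ∨ w = w₂))} := by
      ext e
      simp only [pd9f, Set.mem_ofPred_eq]
      constructor
      · rintro ⟨h1 | h1, h2⟩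
        · exact Or.inl ⟨h1.1, h1.2, h2⟩
        · exact Or.inr h1
      · rintro (h1 | h1)
        · exact ⟨Or.inl ⟨h1.1, h1.2.1⟩, h1.2.2⟩
        · refine ⟨Or.inr h1, ?_⟩
          rw [h1.1]
          simp
    rw [this, pd9_add _ _ (fun h => hxyE h.1)]
    rw [Nat.even_add, hx1] at h1
    rw [← h1]
    tauto
  · have h1 := F.ev w (pd9p hxy.ne v)
    have h2 : {e | e ∈ F.f w ∧ pd9p hxy.ne v ∈ e} =
        Sym2.map (pd9p hxy.ne) '' {e | e ∈ pd9f G hxy.ne F w₁ w₂ w ∧ v ∈ e} := by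
      ext e
      constructor
      · rintro ⟨he, he'⟩
        obtain ⟨e', h3, rfl⟩ := pd9_onto hxy.ne (F.sub w he)
        exact ⟨e', ⟨Or.inl ⟨h3, he⟩, (pd9_mem hxy.ne hvx hvy e').1 he'⟩, rfl⟩
      · rintro ⟨e', ⟨h3 | h3, h4⟩, rfl⟩
        · exact ⟨h3.2, (pd9_mem hxy.ne hvx hvy e').2 h4⟩
        · rw [h3.1] at h4
          rcases Sym2.mem_iff.1 h4 with h5 | h5
          · exact absurd h5 hvx
          · exact absurd h5 hvy
    rw [h2, Set.InjOn.ncard_image] at h1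
    · exact h1
    · refine (pd9_inj hxy.ne hc).mono ?_
      rintro e ⟨h3 | h3, h4⟩
      · exact h3.1
      · rw [h3.1] at h4
        rcases Sym2.mem_iff.1 h4 with h5 | h5
        · exact absurd h5 hvx
        · exact absurd h5 hvy

/-- the cut property if `xy` is not in `B` -/
theorem pd9_cut0 [Finite V] {G : SimpleGraph V} {x y : V} (hxy : G.Adj x y)
    (hc : ∀ u, ¬ (G.Adj x u ∧ G.Adj y u)) {W : Type} (F : Fcs (ctr G x y) W) {w₁ w₂ : W}
    (B : Set (Sym2 V)) (hB : B ⊆ G.edgeSet) (hBxy : s(x, y) ∉ B)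
    (hev : ∀ w, Even (pd9f G hxy.ne F w₁ w₂ w ∩ B).ncard) :
    ∃ X : Set V, ∀ u v, G.Adj u v → (s(u, v) ∈ B ↔ ¬ (u ∈ X ↔ v ∈ X)) := by
  have hBE : B ⊆ pd9E G x y := fun e he => ⟨hB he, fun h => hBxy (h ▸ he)⟩
  have h1 : ∀ w, F.f w ∩ Sym2.map (pd9p hxy.ne) '' B =
      Sym2.map (pd9p hxy.ne) '' (pd9f G hxy.ne F w₁ w₂ w ∩ B) := by
    intro w
    ext e
    constructor
    · rintro ⟨h1, e', h2, rfl⟩
      exact ⟨e', ⟨Or.inl ⟨hBE h2, h1⟩, h2⟩, rfl⟩
    · rintro ⟨e', ⟨h2 | h2, h3⟩, rfl⟩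
      · exact ⟨h2.2, e', h3, rfl⟩
      · exact absurd (h2.1 ▸ h3) hBxy
  obtain ⟨X', hX'⟩ := F.cut (Sym2.map (pd9p hxy.ne) '' B) (by
      rintro _ ⟨e', h2, rfl⟩
      exact pd9_maps hxy.ne (hBE h2)) (by
      intro w
      rw [h1 w, Set.InjOn.ncard_image]
      · exact hev w
      · exact (pd9_inj hxy.ne hc).mono fun e he => hBE he.2)
  refine ⟨{v | pd9p hxy.ne v ∈ X'}, ?_⟩
  intro u v huv
  by_cases h2 : s(u, v) = s(x, y)
  · constructor
    · intro h3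
      exact absurd (h2 ▸ h3) hBxy
    · intro h3
      exfalso
      apply h3
      have : pd9p hxy.ne u = pd9p hxy.ne v := by
        rw [pd9p_eq]
        rcases Sym2.eq_iff.1 h2 with h4 | h4
        · exact Or.inr (Or.inl h4)
        · exact Or.inr (Or.inr h4)
      simp only [Set.mem_ofPred_eq, this]
  · rw [Set.mem_ofPred_eq, Set.mem_ofPred_eq, ← hX' _ _ (pd9_adj hxy.ne huv h2)]
    constructor
    · intro h3
      exact ⟨_, h3, rfl⟩
    · rintro ⟨e', h3, h4⟩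
      have h5 : e' = s(u, v) := pd9_inj hxy.ne hc (hBE h3) ⟨huv, h2⟩ h4
      rw [← h5]
      exact h3

theorem pd9_even_symmDiff {α : Type} [Finite α] (A B : Set α) :
    Even (symmDiff A B).ncard ↔ (Even A.ncard ↔ Even B.ncard) := by
  classical
  have h1 : (symmDiff A B).ncard + 2 * (A ∩ B).ncard = A.ncard + B.ncard := by
    have e1 : (symmDiff A B).ncard = (A \ B).ncard + (B \ A).ncard := by
      rw [Set.symmDiff_def, Set.ncard_union_eq]
      exact disjoint_sdiff_sdiff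
    have e2 := Set.ncard_inter_add_ncard_sdiff_eq_ncard A B (Set.toFinite A)
    have e3 := Set.ncard_inter_add_ncard_sdiff_eq_ncard B A (Set.toFinite B)
    rw [Set.inter_comm B A] at e3
    omega
  have h2 : Even ((symmDiff A B).ncard + 2 * (A ∩ B).ncard) ↔ Even (symmDiff A B).ncard := by
    rw [Nat.even_add]
    simp
  rw [← h2, h1, Nat.even_add]

/-- `x` and `y` adjacent in `G`, without common neighbours; faces of `G / xy`; exactly two faces
`w₁ ≠ w₂` contain an odd number of edges coming from edges at `x`. Then `G` has faces, indexed by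
the same set, such that the faces of `xy` are `w₁` and `w₂`, and an edge `xu` is in the face `w` of
`G` iff its image is. -/
theorem lift_faces [Finite V] {G : SimpleGraph V} {x y : V} (hxy : G.Adj x y)
    (hc : ∀ u, ¬ (G.Adj x u ∧ G.Adj y u)) {W : Type} (F : Fcs (ctr G x y) W) {w₁ w₂ : W}
    (hw : w₁ ≠ w₂)
    (hodd : ∀ w, (Even {u : {v : V // v ≠ y} | G.Adj x u.1 ∧
      s(⟨x, hxy.ne⟩, u) ∈ F.f w}.ncard ↔ (w ≠ w₁ ∧ w ≠ w₂))) :
    ∃ F' : Fcs G W, (∀ w, s(x, y) ∈ F'.f w ↔ (w = w₁ ∨ w = w₂)) ∧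
      (∀ w (u : {v : V // v ≠ y}), G.Adj x u.1 →
        (s(x, u.1) ∈ F'.f w ↔ s(⟨x, hxy.ne⟩, u) ∈ F.f w)) ∧
      (∀ w (u : {v : V // v ≠ y}), G.Adj y u.1 → u.1 ≠ x →
        (s(y, u.1) ∈ F'.f w ↔ s(⟨x, hxy.ne⟩, u) ∈ F.f w)) := by
  have hev := pd9_ev hxy hc F hodd
  refine ⟨⟨pd9f G hxy.ne F w₁ w₂, ?_, ?_, hev, ?_⟩, ?_, ?_, ?_⟩
  · rintro w e (h1 | h1)
    · exact h1.1.1
    · rw [h1.1]
      exact hxy
  · intro e he
    by_cases h1 : e = s(x, y)
    · refine ⟨w₁, w₂, hw, fun w => ?_⟩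
      constructor
      · rintro (h2 | h2)
        · exact absurd h1 h2.1.2
        · exact h2.2
      · intro h2
        exact Or.inr ⟨h1, h2⟩
    · obtain ⟨a, b, hab, h2⟩ := F.two _ (pd9_maps hxy.ne ⟨he, h1⟩)
      refine ⟨a, b, hab, fun w => ?_⟩
      rw [← h2 w]
      constructor
      · rintro (h3 | h3)
        · exact h3.2
        · exact absurd h3.1 h1
      · intro h3
        exact Or.inl ⟨⟨he, h1⟩, h3⟩
  · intro B hB hBev
    by_cases h1 : s(x, y) ∈ B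
    · -- add the star of `x`
      have hsub : symmDiff B {e | e ∈ G.edgeSet ∧ x ∈ e} ⊆ G.edgeSet := by
        intro e he
        rcases he with he | he
        · exact hB he.1
        · exact he.1.1
      have hno : s(x, y) ∉ symmDiff B {e | e ∈ G.edgeSet ∧ x ∈ e} := by
        rintro (he | he)
        · exact he.2 ⟨hxy, by simp⟩
        · exact he.2 h1
      obtain ⟨X, hX⟩ := pd9_cut0 (w₁ := w₁) (w₂ := w₂) hxy hc F _ hsub hno (by
        intro w
        have h2 : pd9f G hxy.ne F w₁ w₂ w ∩ symmDiff B {e | e ∈ G.edgeSet ∧ x ∈ e} =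
            symmDiff (pd9f G hxy.ne F w₁ w₂ w ∩ B)
              {e | e ∈ pd9f G hxy.ne F w₁ w₂ w ∧ x ∈ e} := by
          ext e
          simp only [Set.mem_inter_iff, Set.mem_symmDiff, Set.mem_ofPred_eq]
          have h3 : e ∈ pd9f G hxy.ne F w₁ w₂ w → e ∈ G.edgeSet := by
            rintro (h1 | h1)
            · exact h1.1.1
            · rw [h1.1]
              exact hxy
          tauto
        rw [h2, pd9_even_symmDiff]
        exact iff_of_true (hBev w) (hev w x))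
      refine ⟨symmDiff X {x}, ?_⟩
      intro u v huv
      have h4 := hX u v huv
      have h5 : s(u, v) ∈ symmDiff B {e | e ∈ G.edgeSet ∧ x ∈ e} ↔
          ¬ (s(u, v) ∈ B ↔ (x = u ∨ x = v)) := by
        simp only [Set.mem_symmDiff, Set.mem_ofPred_eq, Sym2.mem_iff]
        have : s(u, v) ∈ G.edgeSet := huv
        tauto
      rw [h5] at h4
      have h6 : ¬ (x = u ∧ x = v) := fun h => huv.ne (h.1.symm.trans h.2)
      simp only [Set.mem_symmDiff, Set.mem_singleton_iff, eq_comm (a := u), eq_comm (a := v)]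
      by_cases h7 : x = u <;> by_cases h8 : x = v <;> simp only [h7, h8] at h4 h6 ⊢ <;> tauto
    · exact pd9_cut0 (w₁ := w₁) (w₂ := w₂) hxy hc F B hB h1 hBev
  · intro w
    constructor
    · rintro (h2 | h2)
      · exact absurd rfl h2.1.2
      · exact h2.2
    · intro h2
      exact Or.inr ⟨rfl, h2⟩
  · rintro w ⟨u, hu⟩ h1
    have h2 : s(x, u) ≠ s(x, y) := by
      intro h3
      have : y ∈ s(x, u) := by rw [h3]; simp
      rcases Sym2.mem_iff.1 this with h4 | h4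
      · exact hxy.ne h4.symm
      · exact hu h4.symm
    constructor
    · rintro (h3 | h3)
      · have := h3.2
        rw [Sym2.map_mk, pd9p_x, pd9p_ne hxy.ne hu] at this
        exact this
      · exact absurd h3.1 h2
    · intro h3
      refine Or.inl ⟨⟨h1, h2⟩, ?_⟩
      rw [Sym2.map_mk, pd9p_x, pd9p_ne hxy.ne hu]
      exact h3
  · rintro w ⟨u, hu⟩ h1 hux
    have h2 : s(y, u) ≠ s(x, y) := by
      intro h3
      have : x ∈ s(y, u) := by rw [h3]; simp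
      rcases Sym2.mem_iff.1 this with h4 | h4
      · exact hxy.ne h4
      · exact hux h4.symm
    constructor
    · rintro (h3 | h3)
      · have := h3.2
        rw [Sym2.map_mk, pd9p_y, pd9p_ne hxy.ne hu] at this
        exact this
      · exact absurd h3.1 h2
    · intro h3
      refine Or.inl ⟨⟨h1, h2⟩, ?_⟩
      rw [Sym2.map_mk, pd9p_y, pd9p_ne hxy.ne hu]
      exact h3

end Pool.Agent.BOND
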