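import Mathlib
import Pool.Agent.BOND.PD4
import Pool.Agent.BOND.PD6
import Pool.Agent.BOND.PD7
import Pool.Agent.BOND.PD8
import Pool.Agent.BOND.PD9

/-! # BOND, module PD10: lifting faces through a contraction -/

set_option autoImplicit false

namespace Pool.Agent.BOND

variable {V : Type}

/-- Face systems can be reindexed. -/
theorem hasFaces_of_fcs {G : SimpleGraph V} {W : Type} [Finite W] (F : Fcs G W) : HasFaces G := by
  obtain ⟨n, ⟨e⟩⟩ := Finite.exists_equiv_fin W
  refine ⟨n, ⟨⟨fun i => F.f (e.symm i), fun i => F.sub _, ?_, fun i => F.ev _, ?_⟩⟩⟩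
  · intro a ha
    obtain ⟨w₁, w₂, h1, h2⟩ := F.two a ha
    refine ⟨e w₁, e w₂, fun h => h1 (e.injective h), fun i => ?_⟩
    rw [h2, Equiv.symm_apply_eq, Equiv.symm_apply_eq]
  · intro B hB h
    refine F.cut B hB fun w => ?_
    have := h (e w)
    rwa [Equiv.symm_apply_apply] at this

theorem pd10_rot {d : ℕ} (i : Fin d) :
    ((finRotate d) i).1 = if i.1 + 1 = d then 0 else i.1 + 1 := by
  obtain ⟨m, rfl⟩ : ∃ m, d = m + 1 := ⟨d - 1, by have := i.2; omega⟩
  rw [finRotate_apply]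
  by_cases h : i = Fin.last m
  · subst h
    simp
  · rw [Fin.val_add_one_of_lt (Fin.lt_last_iff_ne_last.2 h)]
    have : i.1 ≠ m := fun h' => h (Fin.ext h')
    rw [if_neg (by omega)]

/-- The parity count for the faces at the contracted vertex. -/
theorem pd10_odd {d : ℕ} (hd : 3 ≤ d) {W : Type} (w : Fin d → W) (hw : Function.Injective w)
    {p : ℕ} (hp : p + 1 < d) (f : W) :
    Even {i : Fin d | i.1 ≤ p ∧ (f = w i ∨ f = w ((finRotate d).symm i))}.ncard ↔
      (f ≠ w ⟨p, by omega⟩ ∧ f ≠ w ⟨d - 1, by omega⟩) := by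
  by_cases hf : ∃ j, f = w j
  · obtain ⟨j, rfl⟩ := hf
    have h1 : {i : Fin d | i.1 ≤ p ∧ (w j = w i ∨ w j = w ((finRotate d).symm i))} =
        {i : Fin d | i.1 ≤ p ∧ (i = j ∨ i = finRotate d j)} := by
      ext i
      simp only [Set.mem_ofPred_eq, hw.eq_iff, eq_comm (a := j), Equiv.symm_apply_eq]
    have hr := pd10_rot j
    have hj := j.2
    rw [h1, hw.ne_iff, hw.ne_iff]
    have e1 : j ≠ ⟨p, by omega⟩ ↔ j.1 ≠ p := by
      rw [Ne, Fin.ext_iff]
    have e2 : j ≠ ⟨d - 1, by omega⟩ ↔ j.1 ≠ d - 1 := by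
      rw [Ne, Fin.ext_iff]
    rw [e1, e2]
    by_cases c1 : j.1 < p
    · rw [if_neg (by omega)] at hr
      have h2 : {i : Fin d | i.1 ≤ p ∧ (i = j ∨ i = finRotate d j)} = {j, finRotate d j} := by
        ext i
        simp only [Set.mem_ofPred_eq, Set.mem_insert_iff, Set.mem_singleton_iff]
        constructor
        · exact fun h => h.2
        · rintro (rfl | rfl)
          · exact ⟨c1.le, Or.inl rfl⟩
          · exact ⟨by omega, Or.inr rfl⟩
      rw [h2, Set.ncard_pair (by intro h; rw [← h] at hr; omega)]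
      exact iff_of_true (by decide) ⟨by omega, by omega⟩
    · by_cases c2 : j.1 = p
      · rw [if_neg (by omega)] at hr
        have h2 : {i : Fin d | i.1 ≤ p ∧ (i = j ∨ i = finRotate d j)} = {j} := by
          ext i
          simp only [Set.mem_ofPred_eq, Set.mem_singleton_iff]
          constructor
          · rintro ⟨h3, h4 | h4⟩
            · exact h4
            · rw [h4] at h3
              omega
          · rintro rfl
            exact ⟨by omega, Or.inl rfl⟩
        rw [h2, Set.ncard_singleton]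
        exact iff_of_false (by decide) (fun h => h.1 c2)
      · by_cases c3 : j.1 = d - 1
        · rw [if_pos (by omega)] at hr
          have h2 : {i : Fin d | i.1 ≤ p ∧ (i = j ∨ i = finRotate d j)} = {finRotate d j} := by
            ext i
            simp only [Set.mem_ofPred_eq, Set.mem_singleton_iff]
            constructor
            · rintro ⟨h3, h4 | h4⟩
              · rw [h4] at h3
                omega
              · exact h4
            · rintro rfl
              exact ⟨by omega, Or.inr rfl⟩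
          rw [h2, Set.ncard_singleton]
          exact iff_of_false (by decide) (fun h => h.2 c3)
        · rw [if_neg (by omega)] at hr
          have h2 : {i : Fin d | i.1 ≤ p ∧ (i = j ∨ i = finRotate d j)} = ∅ := by
            ext i
            simp only [Set.mem_ofPred_eq, Set.mem_empty_iff_false, iff_false]
            rintro ⟨h3, h4 | h4⟩
            · rw [h4] at h3
              omega
            · rw [h4] at h3
              omega
          rw [h2, Set.ncard_empty]
          exact iff_of_true (by decide) ⟨c2, c3⟩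
  · push Not at hf
    have h2 : {i : Fin d | i.1 ≤ p ∧ (f = w i ∨ f = w ((finRotate d).symm i))} = ∅ := by
      ext i
      simp only [Set.mem_ofPred_eq, Set.mem_empty_iff_false, iff_false]
      rintro ⟨_, h4 | h4⟩
      · exact hf _ h4
      · exact hf _ h4
    rw [h2, Set.ncard_empty]
    exact iff_of_true (by decide) ⟨hf _, hf _⟩

/-- Adding back at most two edges to the two faces of `xy`. -/
theorem pd10_add [Finite V] {G : SimpleGraph V} {W : Type} [Finite W] (F : Fcs G W) {x y a b : V}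
    (hxy : x ≠ y) {w₁ w₂ : W} (hw : w₁ ≠ w₂) (h1 : s(x, y) ∈ F.f w₁) (h2 : s(x, y) ∈ F.f w₂)
    (c0 cp : Prop) (ha : c0 → s(x, a) ∈ F.f w₂ ∧ ¬ G.Adj y a ∧ y ≠ a ∧ x ≠ a)
    (hb : cp → s(y, b) ∈ F.f w₁ ∧ ¬ G.Adj x b ∧ x ≠ b) {G' : SimpleGraph V}
    (hG : ∀ u v, G'.Adj u v ↔ G.Adj u v ∨ (c0 ∧ u ≠ v ∧ s(u, v) = s(y, a)) ∨
      (cp ∧ u ≠ v ∧ s(u, v) = s(x, b))) : HasFaces G' := by
  by_cases h0 : c0
  · obtain ⟨ha1, ha2, ha3, ha4⟩ := ha h0
    obtain ⟨F', f1, f2, f3⟩ := add_tri F ha3 ha2 h2 ha1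
    by_cases hp : cp
    · obtain ⟨hb1, hb2, hb3⟩ := hb hp
      have e1 : s(y, x) ∈ F'.f (some w₁) := by
        rw [f2 w₁ hw, Sym2.eq_swap]
        exact h1
      have e2 : s(y, b) ∈ F'.f (some w₁) := by
        rw [f2 w₁ hw]
        exact hb1
      have e3 : ¬ (G ⊔ SimpleGraph.edge y a).Adj x b := by
        rw [SimpleGraph.sup_adj, SimpleGraph.edge_adj]
        rintro (h | ⟨⟨h, _⟩ | ⟨h, _⟩, _⟩)
        · exact hb2 h
        · exact hxy h
        · exact ha4 h
      obtain ⟨F'', _⟩ := add_tri F' hb3 e3 e1 e2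
      have hGG : G' = G ⊔ SimpleGraph.edge y a ⊔ SimpleGraph.edge x b := by
        ext u v
        rw [hG, SimpleGraph.sup_adj, SimpleGraph.sup_adj, SimpleGraph.edge_adj,
          SimpleGraph.edge_adj, Sym2.eq_iff, Sym2.eq_iff]
        tauto
      rw [hGG]
      exact hasFaces_of_fcs F''
    · have hGG : G' = G ⊔ SimpleGraph.edge y a := by
        ext u v
        rw [hG, SimpleGraph.sup_adj, SimpleGraph.edge_adj, Sym2.eq_iff, Sym2.eq_iff]
        tauto
      rw [hGG]
      exact hasFaces_of_fcs F'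
  · by_cases hp : cp
    · obtain ⟨hb1, hb2, hb3⟩ := hb hp
      obtain ⟨F'', _⟩ := add_tri F (x := y) (y := x) (u := b) (w₀ := w₁) hb3 hb2
        (by rw [Sym2.eq_swap]; exact h1) hb1
      have hGG : G' = G ⊔ SimpleGraph.edge x b := by
        ext u v
        rw [hG, SimpleGraph.sup_adj, SimpleGraph.edge_adj, Sym2.eq_iff, Sym2.eq_iff]
        tauto
      rw [hGG]
      exact hasFaces_of_fcs F''
    · have hGG : G' = G := by
        ext u v
        rw [hG]
        tauto
      rw [hGG]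
      exact hasFaces_of_fcs F

/-- The core of the un-contraction, after the rotation. -/
theorem pd10_core [Finite V] {G : SimpleGraph V} {x y : V} (hxy : G.Adj x y) {W : Type} [Finite W]
    (F : Fcs (ctr G x y) W) {d : ℕ} (hd : 3 ≤ d) (u : Fin d → {v : V // v ≠ y}) (w : Fin d → W)
    (hu : Function.Injective u) (hw : Function.Injective w)
    (hr : Set.range u = {v | (ctr G x y).Adj ⟨x, hxy.ne⟩ v})
    (hs : ∀ i f, s(⟨x, hxy.ne⟩, u i) ∈ F.f f ↔ (f = w i ∨ f = w ((finRotate d).symm i)))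
    {p : ℕ} (hp1 : 1 ≤ p) (hpd : p < d) (hX : ∀ i, G.Adj x (u i).1 ↔ i.1 ≤ p)
    (hY1 : ∀ i, p < i.1 → G.Adj y (u i).1) (hY2 : ∀ i, G.Adj y (u i).1 → p ≤ i.1 ∨ i.1 = 0)
    (hY : ∃ i j, i ≠ j ∧ G.Adj y (u i).1 ∧ G.Adj y (u j).1) : HasFaces G := by
  classical
  have hux : ∀ i, (u i).1 ≠ x := by
    intro i h
    have : u i ∈ Set.range u := ⟨i, rfl⟩
    rw [hr] at this
    exact this.1 (Subtype.ext h.symm)
  have huy : ∀ i, (u i).1 ≠ y := fun i => (u i).2
  set i0 : Fin d := ⟨0, by omega⟩ with hi0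
  set ip : Fin d := ⟨p, hpd⟩ with hip
  set c0 : Prop := G.Adj y (u i0).1 with hc0
  set cp : Prop := G.Adj y (u ip).1 with hcp
  let p' : ℕ := if cp then p - 1 else p
  have hp' : p' = if cp then p - 1 else p := rfl
  set G0 : SimpleGraph V := G.deleteEdges {e | (c0 ∧ e = s(y, (u i0).1)) ∨
    (cp ∧ e = s(x, (u ip).1))} with hG0
  have hG0adj : ∀ a b, G0.Adj a b ↔ G.Adj a b ∧ ¬ ((c0 ∧ s(a, b) = s(y, (u i0).1)) ∨
      (cp ∧ s(a, b) = s(x, (u ip).1))) := by
    intro a b
    rw [hG0, SimpleGraph.deleteEdges_adj]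
    rfl
  have inj : ∀ i j, (u i).1 = (u j).1 ↔ i = j := by
    intro i j
    constructor
    · intro h
      exact hu (Subtype.ext h)
    · rintro rfl
      rfl
  have hX0 : ∀ i, G0.Adj x (u i).1 ↔ i.1 ≤ p' := by
    intro i
    rw [hG0adj, hX i]
    have e1 : ¬ s(x, (u i).1) = s(y, (u i0).1) := by
      rw [Sym2.eq_iff]
      rintro (⟨h, _⟩ | ⟨h, _⟩)
      · exact hxy.ne h
      · exact hux _ h.symm
    have e2 : s(x, (u i).1) = s(x, (u ip).1) ↔ i = ip := by
      rw [Sym2.eq_iff]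
      constructor
      · rintro (⟨_, h⟩ | ⟨h, _⟩)
        · exact (inj _ _).1 h
        · exact absurd h.symm (hux _)
      · rintro rfl
        exact Or.inl ⟨rfl, rfl⟩
    have e3 : i = ip ↔ i.1 = p := by rw [Fin.ext_iff]
    rw [e2, e3, hp']
    by_cases hh : cp
    · rw [if_pos hh]
      constructor
      · rintro ⟨h1, h2⟩
        have : i.1 ≠ p := fun h => h2 (Or.inr ⟨hh, h⟩)
        omega
      · intro h1
        refine ⟨by omega, ?_⟩
        rintro (⟨_, h⟩ | ⟨_, h⟩)
        · exact e1 h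
        · omega
    · rw [if_neg hh]
      constructor
      · exact fun h => h.1
      · intro h1
        refine ⟨h1, ?_⟩
        rintro (⟨_, h⟩ | ⟨h, _⟩)
        · exact e1 h
        · exact hh h
  have hY0 : ∀ i, G0.Adj y (u i).1 ↔ p' < i.1 := by
    intro i
    rw [hG0adj]
    have e1 : ¬ s(y, (u i).1) = s(x, (u ip).1) := by
      rw [Sym2.eq_iff]
      rintro (⟨h, _⟩ | ⟨h, _⟩)
      · exact hxy.ne h.symm
      · exact huy _ h.symm
    have e2 : s(y, (u i).1) = s(y, (u i0).1) ↔ i = i0 := by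
      rw [Sym2.eq_iff]
      constructor
      · rintro (⟨_, h⟩ | ⟨h, _⟩)
        · exact (inj _ _).1 h
        · exact absurd h.symm (huy _)
      · rintro rfl
        exact Or.inl ⟨rfl, rfl⟩
    have e3 : i = i0 ↔ i.1 = 0 := by rw [Fin.ext_iff]
    rw [e2, e3, hp']
    constructor
    · rintro ⟨h1, h2⟩
      have h3 : i.1 ≠ 0 := by
        intro h
        refine h2 (Or.inl ⟨?_, h⟩)
        have : i = i0 := Fin.ext h
        rw [this] at h1
        exact h1
      rcases hY2 i h1 with h4 | h4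
      · by_cases h5 : i.1 = p
        · have : i = ip := Fin.ext h5
          rw [this] at h1
          rw [if_pos h1]
          omega
        · split <;> omega
      · exact absurd h4 h3
    · intro h1
      have h2 : G.Adj y (u i).1 := by
        by_cases hh : cp
        · rw [if_pos hh] at h1
          by_cases h5 : i.1 = p
          · have : i = ip := Fin.ext h5
            rw [this]
            exact hh
          · exact hY1 i (by omega)
        · rw [if_neg hh] at h1
          exact hY1 i h1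
      refine ⟨h2, ?_⟩
      rintro (⟨_, h⟩ | ⟨_, h⟩)
      · omega
      · exact e1 h
  have hp'd : p' + 1 < d := by
    rw [hp']
    by_cases hh : cp
    · rw [if_pos hh]
      omega
    · rw [if_neg hh]
      by_contra hlt
      obtain ⟨i, j, hij, h1, h2⟩ := hY
      have key : ∀ i : Fin d, G.Adj y (u i).1 → i.1 = 0 := by
        intro i hi
        rcases hY2 i hi with h3 | h3
        · exfalso
          have h4 : i = ip := Fin.ext (show i.1 = p by have := i.2; omega)
          rw [h4] at hi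
          exact hh hi
        · exact h3
      exact hij (Fin.ext ((key i h1).trans (key j h2).symm))
  have h0p : 0 ≤ p' := Nat.zero_le _
  have hctr : ctr G0 x y = ctr G x y := by
    have hle : G0 ≤ G := by
      intro a b h
      exact ((hG0adj a b).1 h).1
    have hxa : G0.Adj x (u i0).1 := (hX0 i0).2 (Nat.zero_le _)
    have hyb : cp → G0.Adj y (u ip).1 := by
      intro hh
      refine (hY0 ip).2 ?_
      rw [hp', if_pos hh]
      show p - 1 < p
      omega
    ext a b
    constructor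
    · rintro ⟨h1, h2⟩
      refine ⟨h1, ?_⟩
      rcases h2 with h2 | ⟨h2, h3⟩ | ⟨h2, h3⟩
      · exact Or.inl (hle h2)
      · exact Or.inr (Or.inl ⟨h2, hle h3⟩)
      · exact Or.inr (Or.inr ⟨h2, hle h3⟩)
    · rintro ⟨h1, h2⟩
      refine ⟨h1, ?_⟩
      rcases h2 with h2 | ⟨h2, h3⟩ | ⟨h2, h3⟩
      · by_cases h4 : (c0 ∧ s(a.1, b.1) = s(y, (u i0).1)) ∨ (cp ∧ s(a.1, b.1) = s(x, (u ip).1))
        · rcases h4 with ⟨_, h5⟩ | ⟨h4, h5⟩
          · exfalso
            have : y ∈ s(a.1, b.1) := by rw [h5]; simp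
            rcases Sym2.mem_iff.1 this with h6 | h6
            · exact a.2 h6.symm
            · exact b.2 h6.symm
          · rcases Sym2.eq_iff.1 h5 with ⟨h6, h7⟩ | ⟨h6, h7⟩
            · refine Or.inr (Or.inl ⟨h6, ?_⟩)
              rw [h7]
              exact hyb h4
            · refine Or.inr (Or.inr ⟨h7, ?_⟩)
              rw [h6]
              exact (hyb h4).symm
        · exact Or.inl ((hG0adj _ _).2 ⟨h2, h4⟩)
      · by_cases h4 : (c0 ∧ s(y, b.1) = s(y, (u i0).1)) ∨ (cp ∧ s(y, b.1) = s(x, (u ip).1))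
        · rcases h4 with ⟨_, h5⟩ | ⟨_, h5⟩
          · left
            rcases Sym2.eq_iff.1 h5 with ⟨_, h6⟩ | ⟨h6, _⟩
            · rw [h2, h6]
              exact hxa
            · exact absurd h6.symm (huy _)
          · exfalso
            have : y ∈ s(x, (u ip).1) := by rw [← h5]; simp
            rcases Sym2.mem_iff.1 this with h6 | h6
            · exact hxy.ne h6.symm
            · exact huy _ h6.symm
        · exact Or.inr (Or.inl ⟨h2, (hG0adj _ _).2 ⟨h3, h4⟩⟩)
      · by_cases h4 : (c0 ∧ s(y, a.1) = s(y, (u i0).1)) ∨ (cp ∧ s(y, a.1) = s(x, (u ip).1))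
        · rcases h4 with ⟨_, h5⟩ | ⟨_, h5⟩
          · left
            rcases Sym2.eq_iff.1 h5 with ⟨_, h6⟩ | ⟨h6, _⟩
            · rw [h2, h6]
              exact hxa.symm
            · exact absurd h6.symm (huy _)
          · exfalso
            have : y ∈ s(x, (u ip).1) := by rw [← h5]; simp
            rcases Sym2.mem_iff.1 this with h6 | h6
            · exact hxy.ne h6.symm
            · exact huy _ h6.symm
        · exact Or.inr (Or.inr ⟨h2, ((hG0adj _ _).2 ⟨h3.symm, h4⟩).symm⟩)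
  obtain ⟨F0, hF0⟩ : ∃ F0 : Fcs (ctr G0 x y) W, F0.f = F.f := by
    rw [hctr]
    exact ⟨F, rfl⟩
  have hxy0 : G0.Adj x y := by
    rw [hG0adj]
    refine ⟨hxy, ?_⟩
    rintro (⟨_, h⟩ | ⟨_, h⟩)
    · rcases Sym2.eq_iff.1 h with ⟨h1, _⟩ | ⟨h1, _⟩
      · exact hxy.ne h1
      · exact hux _ h1.symm
    · rcases Sym2.eq_iff.1 h with ⟨_, h1⟩ | ⟨h1, _⟩
      · exact huy _ h1.symm
      · exact hux _ h1.symm
  -- every neighbour of `x` or `y` is some `u i`
  have hall : ∀ v, v ≠ x → v ≠ y → (G.Adj x v ∨ G.Adj y v) → ∃ i, (u i).1 = v := by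
    intro v hvx hvy h
    have : (⟨v, hvy⟩ : {v : V // v ≠ y}) ∈ Set.range u := by
      rw [hr]
      refine ⟨fun h' => hvx (congrArg Subtype.val h').symm, ?_⟩
      rcases h with h | h
      · exact Or.inl h
      · exact Or.inr (Or.inl ⟨rfl, h⟩)
    obtain ⟨i, hi⟩ := this
    exact ⟨i, by rw [hi]⟩
  have hcom : ∀ v, ¬ (G0.Adj x v ∧ G0.Adj y v) := by
    rintro v ⟨h1, h2⟩
    obtain ⟨i, rfl⟩ := hall v h1.ne' h2.ne' (Or.inl ((hG0adj _ _).1 h1).1)
    have h3 := (hX0 i).1 h1
    have h4 := (hY0 i).1 h2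
    omega
  have hodd : ∀ f, (Even {v : {v : V // v ≠ y} | G0.Adj x v.1 ∧
      s(⟨x, hxy0.ne⟩, v) ∈ F0.f f}.ncard ↔
        (f ≠ w ⟨p', by omega⟩ ∧ f ≠ w ⟨d - 1, by omega⟩)) := by
    intro f
    rw [← pd10_odd hd w hw hp'd f]
    have h1 : {v : {v : V // v ≠ y} | G0.Adj x v.1 ∧ s(⟨x, hxy0.ne⟩, v) ∈ F0.f f} =
        u '' {i : Fin d | i.1 ≤ p' ∧ (f = w i ∨ f = w ((finRotate d).symm i))} := by
      ext v
      constructor
      · rintro ⟨h1, h2⟩
        obtain ⟨i, hi⟩ := hall v.1 h1.ne' v.2 (Or.inl ((hG0adj _ _).1 h1).1)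
        have hi' : u i = v := Subtype.ext hi
        subst hi'
        refine ⟨i, ⟨(hX0 i).1 h1, ?_⟩, rfl⟩
        rw [hF0] at h2
        exact (hs i f).1 h2
      · rintro ⟨i, ⟨h1, h2⟩, rfl⟩
        refine ⟨(hX0 i).2 h1, ?_⟩
        rw [hF0]
        exact (hs i f).2 h2
    rw [h1, Set.ncard_image_of_injective _ hu]
  obtain ⟨F1, g1, g2, g3⟩ := lift_faces hxy0 hcom F0 (w₁ := w ⟨p', by omega⟩)
    (w₂ := w ⟨d - 1, by omega⟩) (by
      intro h
      have := congrArg Fin.val (hw h)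
      simp only at this
      omega) hodd
  refine pd10_add F1 hxy.ne (w₁ := w ⟨p', by omega⟩) (w₂ := w ⟨d - 1, by omega⟩) (a := (u i0).1)
    (b := (u ip).1) ?_ ((g1 _).2 (Or.inl rfl)) ((g1 _).2 (Or.inr rfl)) c0 cp ?_ ?_ ?_
  · intro h
    have := congrArg Fin.val (hw h)
    simp only at this
    omega
  · intro h0
    refine ⟨?_, ?_, (huy _).symm, (hux _).symm⟩
    · rw [g2 _ (u i0) ((hX0 i0).2 (Nat.zero_le _)), hF0, hs]
      right
      congr 1
      rw [Equiv.eq_symm_apply]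
      apply Fin.ext
      rw [pd10_rot, if_pos (by simp only; omega)]
    · rw [hY0]
      exact Nat.not_lt_zero _
  · intro hh
    have hlt : p' < ip.1 := by
      rw [hp', if_pos hh]
      show p - 1 < p
      omega
    refine ⟨?_, ?_, (hux _).symm⟩
    · rw [g3 _ (u ip) ((hY0 ip).2 hlt) (hux _), hF0, hs]
      right
      congr 1
      rw [Equiv.eq_symm_apply]
      apply Fin.ext
      rw [pd10_rot, if_neg (by simp only; omega)]
      show p' + 1 = p
      rw [hp', if_pos hh]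
      omega
    · rw [hX0]
      omega
  · intro a b
    rw [hG0adj]
    constructor
    · intro h
      by_cases h4 : (c0 ∧ s(a, b) = s(y, (u i0).1)) ∨ (cp ∧ s(a, b) = s(x, (u ip).1))
      · rcases h4 with ⟨h4, h5⟩ | ⟨h4, h5⟩
        · exact Or.inr (Or.inl ⟨h4, h.ne, h5⟩)
        · exact Or.inr (Or.inr ⟨h4, h.ne, h5⟩)
      · exact Or.inl ⟨h, h4⟩
    · rintro (h | ⟨h4, _, h5⟩ | ⟨h4, _, h5⟩)
      · exact h.1
      · have : s(a, b) ∈ G.edgeSet := by
          rw [h5]
          exact h4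
        exact this
      · have : s(a, b) ∈ G.edgeSet := by
          rw [h5]
          exact (hX ip).2 le_rfl
        exact this

theorem lift [Fintype V] {G : SimpleGraph V} {x y : V} [Fintype {v : V // v ≠ y}] (h3 : C3 G)
    (hxy : G.Adj x y) (h3' : C3 (ctr G x y)) (hF : HasFaces (ctr G x y))
    (h5 : ¬ HasMinor K5 G) (h33 : ¬ HasMinor K33 G) : HasFaces G := by
  obtain ⟨n, ⟨F⟩⟩ := hF
  obtain ⟨d, hd, u, w, Q, hu, hw, hr, hs, huQ, hxQ, hcQ, hdQ, hnQ⟩ := link_ring h3' F ⟨x, hxy.ne⟩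
  have hux : ∀ i, (u i).1 ≠ x := by
    intro i h
    have : u i ∈ Set.range u := ⟨i, rfl⟩
    rw [hr] at this
    exact this.1 (Subtype.ext h.symm)
  -- adjacency away from the contracted vertex
  have hadj : ∀ i j, ∀ a ∈ Q i, ∀ b ∈ Q j, (ctr G x y).Adj a b → G.Adj a.1 b.1 := by
    intro i j a ha b hb hab
    have hax : a.1 ≠ x := by
      intro h
      have : a = ⟨x, hxy.ne⟩ := Subtype.ext h
      rw [this] at ha
      exact hxQ i ha
    have hbx : b.1 ≠ x := by
      intro h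
      have : b = ⟨x, hxy.ne⟩ := Subtype.ext h
      rw [this] at hb
      exact hxQ j hb
    rcases hab.2 with h | ⟨h, _⟩ | ⟨h, _⟩
    · exact h
    · exact absurd h hax
    · exact absurd h hbx
  have hring : Ring G x y d (fun i => Subtype.val '' Q i) := by
    refine ⟨?_, ?_, ?_, ?_, ?_⟩
    · rintro i ⟨a, ha, h⟩
      have : a = ⟨x, hxy.ne⟩ := Subtype.ext h
      rw [this] at ha
      exact hxQ i ha
    · rintro i ⟨a, ha, h⟩
      exact a.2 h
    · intro i
      refine (hcQ i).image Subtype.val ?_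
      intro a ha b hb hab
      exact Or.inr (hadj i i a ha b hb hab)
    · intro i j hij
      rw [Set.disjoint_left]
      rintro _ ⟨a, ha, rfl⟩ ⟨b, hb, h⟩
      have : b = a := Subtype.ext h
      rw [this] at hb
      exact Set.disjoint_left.1 (hdQ i j hij) ha hb
    · intro i
      obtain ⟨a, ha, b, hb, hab⟩ := hnQ i
      exact ⟨a.1, ⟨a, ha, rfl⟩, b.1, ⟨b, hb, rfl⟩, hadj _ _ a ha b hb hab⟩
  have hring' : Ring G y x d (fun i => Subtype.val '' Q i) :=
    ⟨hring.ny, hring.nx, hring.con, hring.disj, hring.nxt⟩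
  have nbx : ∀ i, G.Adj x (u i).1 → Nb G {x} (Subtype.val '' Q i) :=
    fun i h => ⟨x, rfl, (u i).1, ⟨u i, huQ i, rfl⟩, h⟩
  have nby : ∀ i, G.Adj y (u i).1 → Nb G {y} (Subtype.val '' Q i) :=
    fun i h => ⟨y, rfl, (u i).1, ⟨u i, huQ i, rfl⟩, h⟩
  have hall : ∀ v, v ≠ x → v ≠ y → (G.Adj x v ∨ G.Adj y v) → ∃ i, (u i).1 = v := by
    intro v hvx hvy h
    have : (⟨v, hvy⟩ : {v : V // v ≠ y}) ∈ Set.range u := by
      rw [hr]
      refine ⟨fun h' => hvx (congrArg Subtype.val h').symm, ?_⟩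
      rcases h with h | h
      · exact Or.inl h
      · exact Or.inr (Or.inl ⟨rfl, h⟩)
    obtain ⟨i, hi⟩ := this
    exact ⟨i, by rw [hi]⟩
  -- a vertex of degree at least three has two neighbours off a given vertex
  have htwo : ∀ z t : V, ∃ a b, a ≠ b ∧ a ≠ t ∧ b ≠ t ∧ G.Adj z a ∧ G.Adj z b := by
    intro z t
    obtain ⟨a, b, c, hab, hbc, hac, ha, hb, hc⟩ := h3.deg z
    by_cases h1 : a = t
    · exact ⟨b, c, hbc, fun h => hab (h1.trans h.symm), fun h => hac (h1.trans h.symm), hb, hc⟩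
    · by_cases h2 : b = t
      · exact ⟨a, c, hac, h1, fun h => hbc (h2.trans h.symm), ha, hc⟩
      · exact ⟨a, b, hab, h1, h2, ha, hb⟩
  have hX2 : ∃ i j, i ≠ j ∧ G.Adj x (u i).1 ∧ G.Adj x (u j).1 := by
    obtain ⟨a, b, hab, ha, hb, h1, h2⟩ := htwo x y
    obtain ⟨i, hi⟩ := hall a h1.ne' ha (Or.inl h1)
    obtain ⟨j, hj⟩ := hall b h2.ne' hb (Or.inl h2)
    refine ⟨i, j, ?_, by rw [hi]; exact h1, by rw [hj]; exact h2⟩
    rintro rfl
    exact hab (hi.symm.trans hj)
  have hY2 : ∃ i j, i ≠ j ∧ G.Adj y (u i).1 ∧ G.Adj y (u j).1 := by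
    obtain ⟨a, b, hab, ha, hb, h1, h2⟩ := htwo y x
    obtain ⟨i, hi⟩ := hall a ha h1.ne' (Or.inr h1)
    obtain ⟨j, hj⟩ := hall b hb h2.ne' (Or.inr h2)
    refine ⟨i, j, ?_, by rw [hi]; exact h1, by rw [hj]; exact h2⟩
    rintro rfl
    exact hab (hi.symm.trans hj)
  have hXY : ∀ i, G.Adj x (u i).1 ∨ G.Adj y (u i).1 := by
    intro i
    have : u i ∈ Set.range u := ⟨i, rfl⟩
    rw [hr] at this
    rcases this.2 with h | ⟨_, h⟩ | ⟨h, _⟩
    · exact Or.inl h
    · exact Or.inr h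
    · exact absurd h (hux i)
  obtain ⟨m, p, hp1, hpd, k1, k2, k3⟩ := intervals hd (fun i => G.Adj x (u i).1)
    (fun i => G.Adj y (u i).1) hXY hX2 hY2
    (by
      rintro ⟨i, j, k, l, hij, hjk, hkl, h1, h2, h3, h4⟩
      exact h33 (cross_k33 hxy hring hij hjk hkl (nbx i h1) (nby j h2) (nbx k h3) (nby l h4)))
    (by
      rintro ⟨i, j, k, l, hij, hjk, hkl, h1, h2, h3, h4⟩
      exact h33 (cross_k33 hxy.symm hring' hij hjk hkl (nby i h1) (nbx j h2) (nby k h3)
        (nbx l h4)))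
    (by
      rintro ⟨i, j, k, hij, hjk, h1, h2, h3, h4, h5', h6⟩
      exact h5 (cross_k5 hxy hring hij hjk (nbx i h1) (nbx j h2) (nbx k h3) (nby i h4)
        (nby j h5') (nby k h6)))
  have hcomm : ∀ i, ((finRotate d) ^ m) ((finRotate d).symm i) =
      (finRotate d).symm (((finRotate d) ^ m) i) := by
    intro i
    rw [Equiv.eq_symm_apply]
    have h1 : (finRotate d) (((finRotate d) ^ m) ((finRotate d).symm i)) =
        ((finRotate d) * (finRotate d) ^ m) ((finRotate d).symm i) := rfl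
    rw [h1, ← pow_succ', pow_succ, Equiv.Perm.mul_apply, Equiv.apply_symm_apply]
  refine pd10_core hxy F hd (fun i => u (((finRotate d) ^ m) i))
    (fun i => w (((finRotate d) ^ m) i)) (hu.comp (Equiv.injective _)) (hw.comp (Equiv.injective _))
    ?_ ?_ hp1 hpd k1 k2 k3 ?_
  · rw [← hr]
    ext v
    constructor
    · rintro ⟨i, rfl⟩
      exact ⟨_, rfl⟩
    · rintro ⟨i, rfl⟩
      exact ⟨((finRotate d) ^ m).symm i, by simp⟩
  · intro i f
    rw [hs]
    simp only [hcomm]
  · obtain ⟨i, j, hij, h1, h2⟩ := hY2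
    refine ⟨((finRotate d) ^ m).symm i, ((finRotate d) ^ m).symm j, ?_, ?_, ?_⟩
    · intro h
      exact hij (((finRotate d) ^ m).symm.injective h)
    · simpa using h1
    · simpa using h2

end Pool.Agent.BOND
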