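import Mathlib
import Pool.Agent.BOND.PD10
import Pool.Agent.BOND.Ctr1
import Pool.Agent.BOND.Ctr2

/-! # BOND, module PD11: base case and the planarity theorem -/

set_option autoImplicit false

namespace Pool.Agent.BOND

variable {V : Type}

private theorem fin4_others : ∀ k l : Fin 4, k ≠ l → ∃ m n : Fin 4, m ≠ n ∧ m ≠ k ∧ m ≠ l ∧
    n ≠ k ∧ n ≠ l ∧ ∀ x, x = k ∨ x = l ∨ x = m ∨ x = n := by decide

private theorem tri_parity {α : Type} {a b c : α} (hab : a ≠ b) (hac : a ≠ c) (hbc : b ≠ c)
    (B : Set α) (h : Even (({a, b, c} : Set α) ∩ B).ncard) : a ∈ B ↔ ¬ (b ∈ B ↔ c ∈ B) := by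
  classical
  by_cases ha : a ∈ B <;> by_cases hb : b ∈ B <;> by_cases hc : c ∈ B
  · exfalso
    have h1 : ({a, b, c} : Set α) ∩ B = {a, b, c} := by
      apply Set.inter_eq_left.2
      rintro x (rfl | rfl | rfl) <;> assumption
    rw [h1, Set.ncard_eq_three.2 ⟨a, b, c, hab, hac, hbc, rfl⟩] at h
    exact absurd h (by decide)
  · simp [ha, hb, hc]
  · simp [ha, hb, hc]
  · exfalso
    have h1 : ({a, b, c} : Set α) ∩ B = {a} := by
      ext x
      simp only [Set.mem_inter_iff, Set.mem_insert_iff, Set.mem_singleton_iff]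
      constructor
      · rintro ⟨rfl | rfl | rfl, hx⟩
        · rfl
        · exact absurd hx hb
        · exact absurd hx hc
      · rintro rfl
        exact ⟨Or.inl rfl, ha⟩
    rw [h1, Set.ncard_singleton] at h
    exact absurd h (by decide)
  · simp [ha, hb, hc]
  · exfalso
    have h1 : ({a, b, c} : Set α) ∩ B = {b} := by
      ext x
      simp only [Set.mem_inter_iff, Set.mem_insert_iff, Set.mem_singleton_iff]
      constructor
      · rintro ⟨rfl | rfl | rfl, hx⟩
        · exact absurd hx ha
        · rfl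
        · exact absurd hx hc
      · rintro rfl
        exact ⟨Or.inr (Or.inl rfl), hb⟩
    rw [h1, Set.ncard_singleton] at h
    exact absurd h (by decide)
  · exfalso
    have h1 : ({a, b, c} : Set α) ∩ B = {c} := by
      ext x
      simp only [Set.mem_inter_iff, Set.mem_insert_iff, Set.mem_singleton_iff]
      constructor
      · rintro ⟨rfl | rfl | rfl, hx⟩
        · exact absurd hx ha
        · exact absurd hx hb
        · rfl
      · rintro rfl
        exact ⟨Or.inr (Or.inr rfl), hc⟩
    rw [h1, Set.ncard_singleton] at h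
    exact absurd h (by decide)
  · simp [ha, hb, hc]

/-- a 3-connected graph with four vertices is complete -/
private theorem k4_adj [Fintype V] {G : SimpleGraph V} (h3 : C3 G) (p : Fin 4 ≃ V) {k l : Fin 4}
    (hkl : k ≠ l) : G.Adj (p k) (p l) := by
  obtain ⟨m, n, hmn, hmk, hml, hnk, hnl, hall⟩ := fin4_others k l hkl
  have h1 := h3.conn (p m) (p n)
  have h2 : ({v | v ≠ p m ∧ v ≠ p n} : Set V) = {p k} ∪ {p l} := by
    ext v
    obtain ⟨x, rfl⟩ := p.surjective v
    simp only [Set.mem_ofPred_eq, Set.mem_union, Set.mem_singleton_iff, p.injective.eq_iff, ne_eq]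
    constructor
    · rintro ⟨hx1, hx2⟩
      rcases hall x with rfl | rfl | rfl | rfl
      · exact Or.inl rfl
      · exact Or.inr rfl
      · exact absurd rfl hx1
      · exact absurd rfl hx2
    · rintro (rfl | rfl)
      · exact ⟨hmk.symm, hnk.symm⟩
      · exact ⟨hml.symm, hnl.symm⟩
  rw [h2] at h1
  obtain ⟨u, hu, v, hv, huv⟩ := h1.nb_of_union rfl (Set.singleton_nonempty _)
    (Set.singleton_nonempty _) (by
      rw [Set.disjoint_singleton]
      exact fun h => hkl (p.injective h))
  rw [Set.mem_singleton_iff] at hu hv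
  rw [← hu, ← hv]
  exact huv

theorem faces_k4 [Fintype V] {G : SimpleGraph V} (h3 : C3 G) (h4 : Fintype.card V = 4) :
    HasFaces G := by
  classical
  let p : Fin 4 ≃ V := (Fintype.equivFinOfCardEq h4).symm
  have hadj : ∀ {k l : Fin 4}, k ≠ l → G.Adj (p k) (p l) := fun hkl => k4_adj h3 p hkl
  have hpe : ∀ {k l : Fin 4}, k ≠ l → p k ≠ p l := fun hkl h => hkl (p.injective h)
  have hedge : ∀ e ∈ G.edgeSet, ∃ k l, k ≠ l ∧ e = s(p k, p l) := by
    intro e he
    induction e using Sym2.ind with
    | _ u v =>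
      obtain ⟨k, rfl⟩ := p.surjective u
      obtain ⟨l, rfl⟩ := p.surjective v
      exact ⟨k, l, fun h => (G.ne_of_adj he) (by rw [h]), rfl⟩
  refine ⟨4, ⟨⟨fun k => {e | e ∈ G.edgeSet ∧ p k ∉ e}, fun k e he => he.1, ?_, ?_, ?_⟩⟩⟩
  · intro e he
    obtain ⟨k, l, hkl, rfl⟩ := hedge e he
    obtain ⟨m, n, hmn, hmk, hml, hnk, hnl, hall⟩ := fin4_others k l hkl
    refine ⟨m, n, hmn, fun w => ?_⟩
    simp only [Set.mem_ofPred_eq, Sym2.mem_iff, p.injective.eq_iff, not_or]
    constructor
    · rintro ⟨-, h1, h2⟩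
      rcases hall w with rfl | rfl | rfl | rfl
      · exact absurd rfl h1
      · exact absurd rfl h2
      · exact Or.inl rfl
      · exact Or.inr rfl
    · rintro (rfl | rfl)
      · exact ⟨he, hmk, hml⟩
      · exact ⟨he, hnk, hnl⟩
  · intro k v
    obtain ⟨l, rfl⟩ := p.surjective v
    by_cases hkl : k = l
    · subst hkl
      have h1 : {e | e ∈ {e | e ∈ G.edgeSet ∧ p k ∉ e} ∧ p k ∈ e} = ∅ := by
        ext e
        simp only [Set.mem_ofPred_eq, Set.mem_empty_iff_false, iff_false]
        rintro ⟨⟨-, h1⟩, h2⟩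
        exact h1 h2
      rw [h1, Set.ncard_empty]
      exact ⟨0, rfl⟩
    · obtain ⟨m, n, hmn, hmk, hml, hnk, hnl, hall⟩ := fin4_others k l hkl
      have h1 : {e | e ∈ {e | e ∈ G.edgeSet ∧ p k ∉ e} ∧ p l ∈ e} =
          {s(p l, p m), s(p l, p n)} := by
        ext e
        simp only [Set.mem_ofPred_eq, Set.mem_insert_iff, Set.mem_singleton_iff]
        constructor
        · rintro ⟨⟨he, hk⟩, hl⟩
          obtain ⟨w, rfl⟩ := Sym2.mem_iff_exists.1 hl
          obtain ⟨x, rfl⟩ := p.surjective w
          rcases hall x with rfl | rfl | rfl | rfl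
          · exact absurd (Sym2.mem_mk_right _ _) hk
          · exact absurd he (by simp)
          · exact Or.inl rfl
          · exact Or.inr rfl
        · rintro (rfl | rfl)
          · refine ⟨⟨hadj hml.symm, ?_⟩, Sym2.mem_mk_left _ _⟩
            simp only [Sym2.mem_iff, p.injective.eq_iff, not_or]
            exact ⟨hkl, hmk.symm⟩
          · refine ⟨⟨hadj hnl.symm, ?_⟩, Sym2.mem_mk_left _ _⟩
            simp only [Sym2.mem_iff, p.injective.eq_iff, not_or]
            exact ⟨hkl, hnk.symm⟩
      have h2 : s(p l, p m) ≠ s(p l, p n) := by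
        intro h
        rw [Sym2.congr_right] at h
        exact hpe hmn h
      rw [h1, Set.ncard_pair h2]
      exact even_two
  · intro B hB hev
    -- the parity condition
    have key : ∀ l m n : Fin 4, l ≠ m → l ≠ n → m ≠ n →
        (s(p m, p n) ∈ B ↔ ¬ (s(p l, p m) ∈ B ↔ s(p l, p n) ∈ B)) := by
      intro l m n hlm hln hmn
      have h4 : ∀ l m n : Fin 4, l ≠ m → l ≠ n → m ≠ n → ∃ k, k ≠ l ∧ k ≠ m ∧ k ≠ n ∧
          ∀ x, x = k ∨ x = l ∨ x = m ∨ x = n := by decide
      obtain ⟨k, hkl, hkm, hkn, hall⟩ := h4 l m n hlm hln hmn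
      have h1 : {e | e ∈ G.edgeSet ∧ p k ∉ e} = {s(p m, p n), s(p l, p m), s(p l, p n)} := by
        ext e
        simp only [Set.mem_ofPred_eq, Set.mem_insert_iff, Set.mem_singleton_iff]
        constructor
        · rintro ⟨he, hk⟩
          obtain ⟨x, y, hxy, rfl⟩ := hedge e he
          simp only [Sym2.mem_iff, p.injective.eq_iff, not_or] at hk
          rcases hall x with rfl | rfl | rfl | rfl
          · exact absurd rfl hk.1
          · rcases hall y with rfl | rfl | rfl | rfl
            · exact absurd rfl hk.2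
            · exact absurd rfl hxy
            · exact Or.inr (Or.inl rfl)
            · exact Or.inr (Or.inr rfl)
          · rcases hall y with rfl | rfl | rfl | rfl
            · exact absurd rfl hk.2
            · exact Or.inr (Or.inl Sym2.eq_swap)
            · exact absurd rfl hxy
            · exact Or.inl rfl
          · rcases hall y with rfl | rfl | rfl | rfl
            · exact absurd rfl hk.2
            · exact Or.inr (Or.inr Sym2.eq_swap)
            · exact Or.inl Sym2.eq_swap
            · exact absurd rfl hxy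
        · rintro (rfl | rfl | rfl)
          · refine ⟨hadj hmn, ?_⟩
            simp only [Sym2.mem_iff, p.injective.eq_iff, not_or]
            exact ⟨hkm, hkn⟩
          · refine ⟨hadj hlm, ?_⟩
            simp only [Sym2.mem_iff, p.injective.eq_iff, not_or]
            exact ⟨hkl, hkm⟩
          · refine ⟨hadj hln, ?_⟩
            simp only [Sym2.mem_iff, p.injective.eq_iff, not_or]
            exact ⟨hkl, hkn⟩
      have h2 := hev k
      change Even ({e | e ∈ G.edgeSet ∧ p k ∉ e} ∩ B).ncard at h2
      rw [h1] at h2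
      refine tri_parity ?_ ?_ ?_ B h2
      · intro h
        rw [Sym2.eq_iff] at h
        rcases h with ⟨h, -⟩ | ⟨-, h⟩
        · exact hpe hlm h.symm
        · exact hpe hln h.symm
      · intro h
        rw [Sym2.eq_iff] at h
        rcases h with ⟨h, -⟩ | ⟨h, -⟩
        · exact hpe hlm h.symm
        · exact hpe hmn h
      · intro h
        rw [Sym2.congr_right] at h
        exact hpe hmn h
    refine ⟨{v | v = p 0 ∨ s(p 0, v) ∉ B}, ?_⟩
    intro u v huv
    obtain ⟨l, rfl⟩ := p.surjective u
    obtain ⟨m, rfl⟩ := p.surjective v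
    have hlm : l ≠ m := fun h => G.ne_of_adj huv (by rw [h])
    simp only [Set.mem_ofPred_eq, p.injective.eq_iff]
    by_cases hl : l = 0
    · subst hl
      simp [hlm.symm]
    · by_cases hm : m = 0
      · subst hm
        rw [Sym2.eq_swap]
        simp [hlm]
      · have h1 := key 0 l m (Ne.symm hl) (Ne.symm hm) hlm
        simp only [hl, hm, false_or]
        rw [h1]
        tauto

private theorem planar_aux (n : ℕ) : ∀ (V : Type) [Fintype V] (G : SimpleGraph V),
    Fintype.card V = n → C3 G → ¬ HasMinor K5 G → ¬ HasMinor K33 G → HasFaces G := by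
  classical
  induction n using Nat.strong_induction_on with
  | _ n ih =>
  intro V _ G hn h3 h5 h33
  by_cases h4 : Fintype.card V = 4
  · exact faces_k4 h3 h4
  · have hc : 5 ≤ Fintype.card V := by
      have := h3.card
      omega
    obtain ⟨x, y, hxy, h3'⟩ := exists_ctr h3 hc
    have hlt : Fintype.card {v : V // v ≠ y} < n := by
      rw [← hn]
      exact Fintype.card_subtype_lt (x := y) (by simp)
    have hF : HasFaces (ctr G x y) := by
      refine ih _ hlt _ _ rfl ?_ (fun h => h5 (ctr_minor hxy h)) (fun h => h33 (ctr_minor hxy h))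
      convert h3'
    exact lift h3 hxy h3' hF h5 h33

/-- Kuratowski-Wagner: 3-connected graphs without `K5` and `K33` minors have faces. -/
theorem planar [Fintype V] {G : SimpleGraph V} (h3 : C3 G) (h5 : ¬ HasMinor K5 G)
    (h33 : ¬ HasMinor K33 G) : HasFaces G := planar_aux _ V G rfl h3 h5 h33

end Pool.Agent.BOND
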