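import Mathlib
import Pool.Agent.BOND.KM5

/-! # BOND, module WV8: the Wagner graph -/

set_option autoImplicit false

namespace Pool.Agent.BOND

variable {V : Type}

/-- strong form: only 3-connectivity is needed -/
theorem iso_v8' [Fintype V] {G : SimpleGraph V} (h3 : C3 G) (h5 : ¬ HasMinor K5 G)
    (h8 : HasMinor V8 G) : Nonempty (G ≃g V8) := by
  obtain ⟨f, hf⟩ := v8m_of_hasMinor_v8 h8
  obtain ⟨u, hu, v, hv, huv⟩ := hf.adj (0, 1) (by decide)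
  have hH := con_univ_of_conn h3.conn huv
  obtain ⟨g, hg, hc, -⟩ := hf.spanning hH (by norm_num)
  obtain ⟨w, hw, hadj⟩ := Helper19.Wag.lemmaV (fun hx => h5 (hasMinor_k5_of_k5m hx)) hg hc h3.conn
  let e : Fin 8 ≃ V := Equiv.ofBijective w hw
  refine ⟨(⟨e, ?_⟩ : V8 ≃g G).symm⟩
  intro i j
  change G.Adj (w i) (w j) ↔ V8.Adj i j
  rw [hadj]
  have h1 : ∀ i j : Fin 8, (∃ k, j = i + Helper19.Wag.dd k) ↔
      (i ≠ j ∧ ((j = i + 1 ∨ j = i + 4) ∨ (i = j + 1 ∨ i = j + 4))) := by decide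
  rw [h1]
  simp [V8, SimpleGraph.fromRel_adj]

theorem iso_v8 [Fintype V] {G : SimpleGraph V} (h3 : C3 G) (_ht : Tame G)
    (_h4 : ¬ ∃ x y z P Q, Sep3 G x y z P Q) (h5 : ¬ HasMinor K5 G) (h8 : HasMinor V8 G) :
    Nonempty (G ≃g V8) := iso_v8' h3 h5 h8

end Pool.Agent.BOND
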