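import Mathlib
import Pool.Agent.BOND.PD11
import Pool.Agent.BOND.KM5
import Pool.Agent.BOND.WV8

/-! # BOND, module Wagner: Wagner theorem -/

set_option autoImplicit false

namespace Pool.Agent.BOND

theorem wagner {V : Type} [Fintype V] {G : SimpleGraph V} (h3 : C3 G) (ht : Tame G)
    (h5 : ¬ HasMinor K5 G) : HasFaces G ∨ Nonempty (G ≃g V8) := by
  by_cases h8 : HasMinor V8 G
  · exact Or.inr (iso_v8' h3 h5 h8)
  · exact Or.inl (planar h3 h5 (no_k33' h3 ht h5 h8))

end Pool.Agent.BOND
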