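import Mathlib
import Pool.Agent.BOND.Wagner
import Pool.Agent.BND.Cnx

/-! # BOND, module Adapt: Wagner theorem in the form used by the primal side (`BND`) -/

set_option autoImplicit false

namespace Pool.Agent.BOND

variable {V : Type}

theorem con_iff_bnd {G : SimpleGraph V} {S : Set V} : Con G S ↔ BND.Con G S ∧ S.Nonempty :=
  BND.connected_iff_con

/-- transfer of `BND.Con` from `G` to an induced graph -/
theorem bndCon_induce {G : SimpleGraph V} {U : Set V} {S : Set U}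
    (h : BND.Con G (Subtype.val '' S)) : BND.Con (G.induce U) S := by
  intro X hX hX'
  obtain ⟨a, ha, b, hb, hab⟩ := h (Subtype.val '' X)
    (by obtain ⟨v, hv⟩ := hX; exact ⟨v.1, ⟨v, hv.1, rfl⟩, ⟨v, hv.2, rfl⟩⟩)
    (by
      obtain ⟨v, hv⟩ := hX'
      refine ⟨v.1, ⟨v, hv.1, rfl⟩, ?_⟩
      rintro ⟨w, hw, hwv⟩
      exact hv.2 (Subtype.ext hwv ▸ hw))
  obtain ⟨⟨a', ha', rfl⟩, a'', ha'', haa⟩ := ha
  obtain ⟨⟨b', hb', rfl⟩, hb''⟩ := hb
  have : a'' = a' := Subtype.ext haa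
  subst this
  refine ⟨a'', ⟨ha', ha''⟩, b', ⟨hb', fun hh => hb'' ⟨b', hh, rfl⟩⟩, ?_⟩
  simpa using hab

/-- transfer of `BND.Con` from an induced graph to `G` -/
theorem bndCon_of_induce {G : SimpleGraph V} {U : Set V} {S : Set U}
    (h : BND.Con (G.induce U) S) : BND.Con G (Subtype.val '' S) := by
  intro X hX hX'
  obtain ⟨a, ha, b, hb, hab⟩ := h (Subtype.val ⁻¹' X)
    (by obtain ⟨v, ⟨v', hv', rfl⟩, hv⟩ := hX; exact ⟨v', hv', hv⟩)
    (by obtain ⟨v, ⟨v', hv', rfl⟩, hv⟩ := hX'; exact ⟨v', hv', hv⟩)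
  exact ⟨a.1, ⟨⟨a, ha.1, rfl⟩, ha.2⟩, b.1, ⟨⟨b, hb.1, rfl⟩, hb.2⟩, by simpa using hab⟩

theorem c3_induce {G : SimpleGraph V} {U : Set V} [Fintype U] (h : BND.Three G U) :
    C3 (G.induce U) := by
  have hc : Fintype.card U = U.ncard := by
    rw [← Nat.card_eq_fintype_card]; rfl
  refine ⟨by rw [hc]; exact h.card, fun a b => ?_⟩
  rw [con_iff_bnd]
  have hs : Subtype.val '' {v : U | v ≠ a ∧ v ≠ b} = U \ {a.1, b.1} := by
    ext v
    simp only [Set.mem_image, Set.mem_ofPred_eq, Set.mem_sdiff, Set.mem_insert_iff,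
      Set.mem_singleton_iff, not_or]
    constructor
    · rintro ⟨w, ⟨h1, h2⟩, rfl⟩
      exact ⟨w.2, fun hh => h1 (Subtype.ext hh), fun hh => h2 (Subtype.ext hh)⟩
    · rintro ⟨h0, h1, h2⟩
      exact ⟨⟨v, h0⟩, ⟨fun hh => h1 (congrArg Subtype.val hh),
        fun hh => h2 (congrArg Subtype.val hh)⟩, rfl⟩
  refine ⟨bndCon_induce (hs ▸ h.del a.1 b.1), ?_⟩
  classical
  by_contra hcon
  rw [Set.not_nonempty_iff_eq_empty] at hcon
  have hle : (Finset.univ : Finset U) ⊆ {a, b} := by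
    intro v _
    by_contra hv
    simp only [Finset.mem_insert, Finset.mem_singleton, not_or] at hv
    have : v ∈ {v : U | v ≠ a ∧ v ≠ b} := hv
    rw [hcon] at this
    exact this
  have h1 := Finset.card_le_card hle
  have h2 : ({a, b} : Finset U).card ≤ 2 := Finset.card_le_two
  have h3 := h.card
  rw [Finset.card_univ, hc] at h1
  omega

theorem noK5_induce {G : SimpleGraph V} {U : Set V} (h : BND.NoK5 G U) :
    ¬ HasMinor K5 (G.induce U) := by
  rintro ⟨f, hf⟩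
  apply h
  refine ⟨fun i => Subtype.val '' f i, fun i => ?_, fun i j hij => ?_, fun i j hij => ?_⟩
  · have h1 := con_iff_bnd.1 (hf.conn i)
    refine ⟨h1.2.image _, ?_, bndCon_of_induce h1.1⟩
    rintro _ ⟨v, -, rfl⟩
    exact v.2
  · rw [Set.disjoint_left]
    rintro _ ⟨v, hv, rfl⟩ ⟨w, hw, hwv⟩
    have : w = v := Subtype.ext hwv
    subst this
    exact Set.disjoint_left.1 (hf.disj i j hij) hv hw
  · obtain ⟨u, hu, v, hv, huv⟩ := hf.adj i j hij
    exact ⟨u.1, ⟨u, hu, rfl⟩, v.1, ⟨v, hv, rfl⟩, by simpa using huv⟩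

/-- a component of `G[U] - S` from reachability in `dl` -/
theorem isComp_dl {G : SimpleGraph V} {U : Set V} {T : Set U} {a : U} (ha : a ∉ T) :
    BND.IsComp G U (Subtype.val '' T) (Subtype.val '' {v : U | (dl (G.induce U) T).Reachable a v})
    := by
  have hT : ∀ v : U, (dl (G.induce U) T).Reachable a v → v ∉ T := by
    intro v hv
    obtain ⟨p⟩ := hv.symm
    cases p with
    | nil => exact ha
    | cons hadj _ => exact hadj.2.1
  refine ⟨?_, ⟨a.1, a, SimpleGraph.Reachable.refl _, rfl⟩, ?_, ?_⟩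
  · rintro _ ⟨v, hv, rfl⟩
    refine ⟨v.2, ?_⟩
    rintro ⟨w, hw, hwv⟩
    exact hT v hv (Subtype.ext hwv ▸ hw)
  · apply bndCon_of_induce
    have h1 := BND.con_class (dl (G.induce U) T) a
    exact BND.Con.mono_le h1 (fun _ _ h => h.1)
  · rintro _ ⟨v, hv, rfl⟩ d ⟨hdU, hd⟩ hvd
    refine ⟨⟨d, hdU⟩, ?_, rfl⟩
    have h1 : (dl (G.induce U) T).Adj v ⟨d, hdU⟩ :=
      ⟨by simpa using hvd, hT v hv, fun hh => hd ⟨_, hh, rfl⟩⟩
    exact SimpleGraph.Reachable.trans hv h1.reachable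

theorem disj_dl {G : SimpleGraph V} {U : Set V} {T : Set U} {a b : U}
    (h : ¬ (dl (G.induce U) T).Reachable a b) :
    Disjoint (Subtype.val '' {v : U | (dl (G.induce U) T).Reachable a v})
      (Subtype.val '' {v : U | (dl (G.induce U) T).Reachable b v}) := by
  rw [Set.disjoint_left]
  rintro _ ⟨v, hv, rfl⟩ ⟨w, hw, hwv⟩
  have : w = v := Subtype.ext hwv
  subst this
  exact h (SimpleGraph.Reachable.trans hv (SimpleGraph.Reachable.symm hw))

theorem hub_of_not_tame {G : SimpleGraph V} {U : Set V} (h : ¬ Tame (G.induce U)) :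
    ∃ S C0 C1 C2, BND.IsHub G U S C0 C1 C2 := by
  unfold Tame at h
  push Not at h
  obtain ⟨x, y, z, hxy, hyz, hxz, a, b, c, ha, hb, hc, h1, h2, h3⟩ := h
  refine ⟨Subtype.val '' ({x, y, z} : Set U), _, _, _, ⟨?_, ?_, isComp_dl ha, isComp_dl hb,
    isComp_dl hc, disj_dl h1, disj_dl h3, disj_dl h2⟩⟩
  · rintro _ ⟨v, -, rfl⟩
    exact v.2
  · rw [Set.ncard_image_of_injective _ Subtype.val_injective]
    exact Set.ncard_eq_three.2 ⟨x, y, z, hxy, hxz, hyz, rfl⟩

theorem v8_adj (i j : Fin 8) : V8.Adj i j ↔ (i - j = 1 ∨ j - i = 1 ∨ i - j = 4) := by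
  simp only [V8, SimpleGraph.fromRel_adj]
  revert i j
  decide

theorem isV8_of_iso {G : SimpleGraph V} {U : Set V} (e : G.induce U ≃g V8) : BND.IsV8 G U := by
  refine ⟨fun i => (e.symm i).1, ?_, ?_, ?_⟩
  · intro i j hij
    exact e.symm.injective (Subtype.ext hij)
  · ext v
    constructor
    · rintro ⟨i, rfl⟩
      exact (e.symm i).2
    · intro hv
      exact ⟨e ⟨v, hv⟩, by simp⟩
  · intro i j
    rw [← v8_adj]
    have := e.symm.map_rel_iff (a := i) (b := j)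
    rw [← this]
    simp

/-- **Wagner's theorem** in the form used by the primal side. -/
theorem wagner_bnd (V : Type) [Finite V] (G : SimpleGraph V) (U : Set V) (h3 : BND.Three G U)
    (h5 : BND.NoK5 G U) :
    HasFaces (G.induce U) ∨ (∃ S C0 C1 C2, BND.IsHub G U S C0 C1 C2) ∨ BND.IsV8 G U := by
  classical
  have := Fintype.ofFinite U
  by_cases ht : Tame (G.induce U)
  · rcases wagner (c3_induce h3) ht (noK5_induce h5) with h | ⟨⟨e⟩⟩
    · exact Or.inl h
    · exact Or.inr (Or.inr (isV8_of_iso e))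
  · exact Or.inr (Or.inl (hub_of_not_tame ht))

end Pool.Agent.BOND
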