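import Mathlib
import Pool.Agent.BOND.Adapt
import Pool.Agent.BND.Dual

/-! # BOND, module Adapt2: from face systems to the dual pairs of the primal side -/

set_option autoImplicit false

namespace Pool.Agent.BOND

variable {V : Type}

/-- A set of edges which is even at every vertex meets every cut evenly. -/
theorem even_cross [Finite V] {G : SimpleGraph V} {c : Set (Sym2 V)} (hc : c ⊆ G.edgeSet)
    (hev : ∀ v, Even {e | e ∈ c ∧ v ∈ e}.ncard) (X : Set V) {B : Set (Sym2 V)}
    (hB : ∀ u v, G.Adj u v → (s(u, v) ∈ B ↔ ¬ (u ∈ X ↔ v ∈ X))) : Even (c ∩ B).ncard := by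
  classical
  have := Fintype.ofFinite V
  have h1 : Even (∑ v ∈ X.toFinset, (c.toFinset.filter (fun e => v ∈ e)).card) := by
    apply Finset.even_sum
    intro v _
    have := hev v
    rw [Set.ncard_eq_toFinset_card'] at this
    have e1 : c.toFinset.filter (fun e => v ∈ e) = Set.toFinset {e | e ∈ c ∧ v ∈ e} := by
      ext e
      simp
    rw [e1]
    exact this
  have h2 : (∑ v ∈ X.toFinset, (c.toFinset.filter (fun e => v ∈ e)).card) =
      ∑ e ∈ c.toFinset, (X.toFinset.filter (fun v => v ∈ e)).card := by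
    simp only [Finset.card_filter]
    exact Finset.sum_comm
  have h3 : ∀ e ∈ c.toFinset, (Odd (X.toFinset.filter (fun v => v ∈ e)).card ↔ e ∈ B) := by
    intro e
    induction e using Sym2.ind with
    | _ a b =>
    intro he
    have hab : G.Adj a b := hc (Set.mem_toFinset.1 he)
    rw [hB a b hab]
    have hne := hab.ne
    have hcard : (X.toFinset.filter (fun v => v ∈ s(a, b))).card =
        (if a ∈ X then 1 else 0) + (if b ∈ X then 1 else 0) := by
      have : X.toFinset.filter (fun v => v ∈ s(a, b)) =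
          (if a ∈ X then {a} else ∅) ∪ (if b ∈ X then {b} else ∅) := by
        ext v
        simp only [Finset.mem_filter, Set.mem_toFinset, Sym2.mem_iff, Finset.mem_union]
        constructor
        · rintro ⟨hv, rfl | rfl⟩
          · left; simp [hv]
          · right; simp [hv]
        · rintro (h | h)
          · by_cases ha : a ∈ X
            · simp only [ha, if_true, Finset.mem_singleton] at h
              exact ⟨h ▸ ha, Or.inl h⟩
            · simp [ha] at h
          · by_cases hb : b ∈ X
            · simp only [hb, if_true, Finset.mem_singleton] at h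
              exact ⟨h ▸ hb, Or.inr h⟩
            · simp [hb] at h
      rw [this, Finset.card_union_of_disjoint]
      · by_cases ha : a ∈ X <;> by_cases hb : b ∈ X <;> simp [ha, hb]
      · by_cases ha : a ∈ X <;> by_cases hb : b ∈ X <;> simp [ha, hb, hne]
    rw [hcard]
    by_cases ha : a ∈ X <;> by_cases hb : b ∈ X <;> simp [ha, hb]
  rw [h2] at h1
  rw [← Nat.not_odd_iff_even, Finset.odd_sum_iff_odd_card_odd, Nat.not_odd_iff_even] at h1
  rw [Set.ncard_eq_toFinset_card']
  have e2 : (c ∩ B).toFinset =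
      c.toFinset.filter (fun e => Odd (X.toFinset.filter (fun v => v ∈ e)).card) := by
    ext e
    simp only [Set.mem_toFinset, Set.mem_inter_iff, Finset.mem_filter]
    constructor
    · rintro ⟨he, heB⟩
      exact ⟨he, (h3 e (Set.mem_toFinset.2 he)).2 heB⟩
    · rintro ⟨he, heB⟩
      exact ⟨he, (h3 e (Set.mem_toFinset.2 he)).1 heB⟩
  rw [e2]
  exact h1

/-- The graph `G` restricted to `U` (same vertex type). -/
def res (G : SimpleGraph V) (U : Set V) : SimpleGraph V where
  Adj u v := G.Adj u v ∧ u ∈ U ∧ v ∈ U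
  symm := ⟨fun _ _ h => ⟨h.1.symm, h.2.2, h.2.1⟩⟩
  loopless := ⟨fun _ h => h.1.ne rfl⟩

theorem res_eq {G : SimpleGraph V} {U : Set V} (h : ∀ u v, G.Adj u v → u ∈ U ∧ v ∈ U) :
    res G U = G := by
  ext u v
  exact ⟨fun h' => h'.1, fun h' => ⟨h', h u v h'⟩⟩

/-- A face system of `G[U]` is a dual pair of `res G U`. -/
theorem hasDual_of_faces [Finite V] {G : SimpleGraph V} {U : Set V}
    (h : HasFaces (G.induce U)) : BND.HasDual (res G U) := by
  obtain ⟨n, ⟨F⟩⟩ := h
  have hinj : Function.Injective (Sym2.map (Subtype.val : U → V)) :=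
    Sym2.map.injective Subtype.val_injective
  refine ⟨n, fun w => Sym2.map Subtype.val '' F.f w, ?_, ?_, ?_⟩
  · rintro w _ ⟨e, he, rfl⟩
    induction e using Sym2.ind with
    | _ a b =>
      have := F.sub w he
      exact ⟨by simpa using this, a.2, b.2⟩
  · intro e
    induction e using Sym2.ind with
    | _ a b =>
      intro he
      obtain ⟨hab, ha, hb⟩ : G.Adj a b ∧ a ∈ U ∧ b ∈ U := he
      obtain ⟨w₁, w₂, hw, hw'⟩ := F.two s(⟨a, ha⟩, ⟨b, hb⟩) (by simpa using hab)
      refine ⟨w₁, w₂, hw, fun w => ?_⟩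
      rw [← hw' w]
      constructor
      · rintro ⟨e', he', hee⟩
        have : e' = s(⟨a, ha⟩, ⟨b, hb⟩) := hinj (by rw [hee]; simp)
        rw [← this]; exact he'
      · intro hh
        exact ⟨_, hh, by simp⟩
  · intro B hB
    have hkey : ∀ w, (Sym2.map Subtype.val '' F.f w ∩ B).ncard =
        (F.f w ∩ (Sym2.map Subtype.val ⁻¹' B)).ncard := by
      intro w
      rw [← Set.image_inter_preimage, Set.ncard_image_of_injective _ hinj]
    simp only [hkey]
    constructor
    · intro hev
      obtain ⟨X, hX⟩ := F.cut (Sym2.map Subtype.val ⁻¹' B) (by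
        intro e
        induction e using Sym2.ind with
        | _ a b =>
          intro he
          have := hB he
          simpa using this.1) hev
      refine ⟨Subtype.val '' X, ?_⟩
      rintro u v ⟨huv, hu, hv⟩
      have h1 := hX ⟨u, hu⟩ ⟨v, hv⟩ (by simpa using huv)
      have h2 : s(u, v) ∈ B ↔ s((⟨u, hu⟩ : U), (⟨v, hv⟩ : U)) ∈ Sym2.map Subtype.val ⁻¹' B := by
        simp
      rw [h2, h1]
      simp [hu, hv]
    · rintro ⟨X, hX⟩ w
      apply even_cross (F.sub w) (F.ev w) (Subtype.val ⁻¹' X)
      intro u v huv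
      have h1 := hX u.1 v.1 ⟨by simpa using huv, u.2, v.2⟩
      simpa using h1

/-- **Wagner's theorem** for the primal side, with dual pairs. -/
theorem wagner_dual (V : Type) [Finite V] (G : SimpleGraph V) (U : Set V) (h3 : BND.Three G U)
    (h5 : BND.NoK5 G U) :
    BND.HasDual (res G U) ∨ (∃ S C0 C1 C2, BND.IsHub G U S C0 C1 C2) ∨ BND.IsV8 G U := by
  rcases wagner_bnd V G U h3 h5 with h | h
  · exact Or.inl (hasDual_of_faces h)
  · exact Or.inr h

end Pool.Agent.BOND
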