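import Mathlib
import Pool.Agent.BOND.Defs

/-! # BOND, module FD: from faces to a dual multigraph -/

set_option autoImplicit false

namespace Pool.Agent.BOND

variable {V : Type}

/-- empty faces can be dropped -/
theorem Fcs.prune {G : SimpleGraph V} {W : Type} (F : Fcs G W) :
    ∃ F' : Fcs G {w : W // (F.f w).Nonempty}, ∀ w, F'.f w = F.f w.1 := by sorry

/-- faces give an algebraic dual multigraph: its vertices are the faces -/
theorem Fcs.dual [Fintype V] {G : SimpleGraph V} [Fintype G.edgeSet] {W : Type} (F : Fcs G W) :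
    ∃ D : MG W G.edgeSet, (mg G).IsDual D ∧
      ∀ e w, (e.1 ∈ F.f w ↔ (D.s e = w ∨ D.t e = w)) ∧ D.s e ≠ D.t e := by sorry

end Pool.Agent.BOND
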