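import Mathlib
import Pool.Agent.BOND.PD0

/-! # BOND, module GL1: a triangle that does not separate is a face -/

set_option autoImplicit false

namespace Pool.Agent.BOND

variable {V : Type}

theorem tri_face [Fintype V] {G : SimpleGraph V} {W : Type} [Finite W] (h3 : C3 G) (F : Fcs G W)
    {x y z : V} (hxy : G.Adj x y) (hyz : G.Adj y z) (hxz : G.Adj x z)
    (hc : Con G {v | v ≠ x ∧ v ≠ y ∧ v ≠ z}) : ∃ w, F.f w = {s(x, y), s(y, z), s(x, z)} := by
  sorry

end Pool.Agent.BOND
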