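import Mathlib
import Pool.Agent.BOND.C3A

/-! # BOND, module GL2: deleting edges -/

set_option autoImplicit false

namespace Pool.Agent.BOND

variable {V : Type}

theorem del_edge [Fintype V] {G G' : SimpleGraph V} (hF : HasFaces G) (hle : G' ≤ G)
    (h3 : C3 G') : HasFaces G' := by sorry

end Pool.Agent.BOND
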