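import Mathlib
import Pool.Agent.BOND.Min

/-! # BOND, module Tri: the tripod lemma -/

set_option autoImplicit false

namespace Pool.Agent.BOND

variable {V : Type}

theorem tripod [Finite V] {G : SimpleGraph V} {A : Set V} (hA : Con G A) (r : Fin 3 → V)
    (hr : ∀ i, r i ∈ A) :
    (∃ t ∈ A, ∀ i j, i ≠ j → ∀ S, Con G S → S ⊆ A \ {t} → r i ∈ S → r j ∉ S) ∨
    ∃ X : Fin 3 → Set V, (∀ i, Con G (X i)) ∧ (∀ i j, i ≠ j → Disjoint (X i) (X j)) ∧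
      (∀ i j, i ≠ j → Nb G (X i) (X j)) ∧ (∀ i, r i ∈ X i) ∧ (⋃ i, X i) = A := by sorry

end Pool.Agent.BOND
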