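import Mathlib
import Pool.Agent.BOND.Tri
import Pool.Agent.BOND.C3A

/-! # BOND, module Pce1: rooted triangle in a side of a 3-separation -/

set_option autoImplicit false

namespace Pool.Agent.BOND

variable {V : Type}

theorem Sep3.symm {G : SimpleGraph V} {x y z : V} {P Q : Set V} (h : Sep3 G x y z P Q) :
    Sep3 G x y z Q P := by sorry

/-- rooted triangle in a side of a 3-separation -/
theorem rooted_triangle [Fintype V] {G : SimpleGraph V} (h3 : C3 G) {x y z : V} {P Q : Set V}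
    (h : Sep3 G x y z P Q) :
    ∃ X Y Z : Set V, Con G X ∧ Con G Y ∧ Con G Z ∧ x ∈ X ∧ y ∈ Y ∧ z ∈ Z ∧
      X ⊆ P ∪ {x} ∧ Y ⊆ P ∪ {y} ∧ Z ⊆ P ∪ {z} ∧ Disjoint X Y ∧ Disjoint Y Z ∧ Disjoint X Z ∧
      Nb G X Y ∧ Nb G Y Z ∧ Nb G X Z := by sorry

end Pool.Agent.BOND
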