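import Mathlib
import Pool.Agent.BOND.Pce1

/-! # BOND, module Pce2: the pieces of a 3-separation -/

set_option autoImplicit false

namespace Pool.Agent.BOND

variable {V : Type}

theorem pc_k5 [Fintype V] {G : SimpleGraph V} (h3 : C3 G) {x y z : V} {P Q : Set V}
    (h : Sep3 G x y z P Q) (h5 : ¬ HasMinor K5 G) : ¬ HasMinor K5 (pc G x y z P) := by sorry

theorem pc_c3 [Fintype V] {G : SimpleGraph V} (h3 : C3 G) {x y z : V} {P Q : Set V}
    [Fintype {v : V // v ∈ P ∨ v = x ∨ v = y ∨ v = z}]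
    (h : Sep3 G x y z P Q) : C3 (pc G x y z P) := by sorry

theorem pc_tame [Fintype V] {G : SimpleGraph V} (h3 : C3 G) (ht : Tame G) {x y z : V}
    {P Q : Set V} (h : Sep3 G x y z P Q) : Tame (pc G x y z P) := by sorry

end Pool.Agent.BOND
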