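import Mathlib
import Pool.Agent.BOND.GL1
import Pool.Agent.BOND.GL2
import Pool.Agent.BOND.Pce2

/-! # BOND, module GL3: gluing along a triangle -/

set_option autoImplicit false

namespace Pool.Agent.BOND

variable {V : Type}

theorem glue [Fintype V] {G : SimpleGraph V} (h3 : C3 G) {x y z : V} {P Q : Set V}
    (h : Sep3 G x y z P Q) (hP : HasFaces (pc G x y z P)) (hQ : HasFaces (pc G x y z Q)) :
    HasFaces G := by sorry

end Pool.Agent.BOND
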