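import Mathlib
import Pool.Agent.BOND.Min

/-! # BOND, module KM1: K33 models: K5 criteria -/

set_option autoImplicit false

namespace Pool.Agent.BOND

variable {V : Type}

/-- five disjoint connected sets, pairwise adjacent -/
theorem k5_of_parts {G : SimpleGraph V} {P0 P1 P2 P3 P4 : Set V} (c0 : Con G P0) (c1 : Con G P1)
    (c2 : Con G P2) (c3 : Con G P3) (c4 : Con G P4) (d01 : Disjoint P0 P1) (d02 : Disjoint P0 P2)
    (d03 : Disjoint P0 P3) (d04 : Disjoint P0 P4) (d12 : Disjoint P1 P2) (d13 : Disjoint P1 P3)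
    (d14 : Disjoint P1 P4) (d23 : Disjoint P2 P3) (d24 : Disjoint P2 P4) (d34 : Disjoint P3 P4)
    (n01 : Nb G P0 P1) (n02 : Nb G P0 P2) (n03 : Nb G P0 P3) (n04 : Nb G P0 P4)
    (n12 : Nb G P1 P2) (n13 : Nb G P1 P3) (n14 : Nb G P1 P4) (n23 : Nb G P2 P3)
    (n24 : Nb G P2 P4) (n34 : Nb G P3 P4) : HasMinor K5 G := by
  refine ⟨![P0, P1, P2, P3, P4], ⟨?_, ?_, ?_⟩⟩
  · intro i
    fin_cases i <;> assumption
  · intro i j hij
    fin_cases i <;> fin_cases j <;> first | exact absurd rfl hij | assumption | (apply Disjoint.symm; assumption)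
  · intro i j hij
    fin_cases i <;> fin_cases j <;> first | exact absurd rfl hij.ne | assumption | (apply Nb.symm; assumption)

theorem km_of_minor [Finite V] {G : SimpleGraph V} (hG : G.Connected) (h : HasMinor K33 G) :
    ∃ A B, KM G A B := by
  obtain ⟨f, hf⟩ := h
  obtain ⟨g, hg, -, hcov⟩ := hf.cover hG
  refine ⟨fun i => g (Sum.inl i), fun i => g (Sum.inr i), ⟨fun i => hg.conn _, fun i => hg.conn _,
    fun i j hij => hg.disj _ _ fun h => hij (Sum.inl.inj h),
    fun i j hij => hg.disj _ _ fun h => hij (Sum.inr.inj h), fun i j => hg.disj _ _ Sum.inl_ne_inr,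
    fun v => ?_, fun i j => hg.adj _ _ ?_⟩⟩
  · obtain ⟨i | i, hi⟩ := hcov v
    · exact Or.inl ⟨i, hi⟩
    · exact Or.inr ⟨i, hi⟩
  · simp [K33]

theorem KM.swap {G : SimpleGraph V} {A B : Fin 3 → Set V} (h : KM G A B) : KM G B A :=
  ⟨h.cb, h.ca, h.db, h.da, fun i j => (h.dab j i).symm, fun v => (h.cov v).symm,
    fun i j => (h.ab j i).symm⟩

/-- the third index -/
theorem km1_third : ∀ i j : Fin 3, i ≠ j → ∃ m, m ≠ i ∧ m ≠ j := by decide

theorem k5_of_two {G : SimpleGraph V} {A B : Fin 3 → Set V} (h : KM G A B) {i j k l : Fin 3}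
    (hij : i ≠ j) (hA : Nb G (A i) (A j)) (hkl : k ≠ l) (hB : Nb G (B k) (B l)) :
    HasMinor K5 G := by
  obtain ⟨m, hmi, hmj⟩ := km1_third i j hij
  obtain ⟨n, hnk, hnl⟩ := km1_third k l hkl
  have dB : ∀ k n, k ≠ n → Disjoint (B k) (A m ∪ B n) := fun k n hk =>
    Set.disjoint_union_right.2 ⟨(h.dab m k).symm, h.db k n hk⟩
  have dA : ∀ i n, i ≠ m → Disjoint (A i) (A m ∪ B n) := fun i n hi =>
    Set.disjoint_union_right.2 ⟨h.da i m hi, h.dab i n⟩
  exact k5_of_parts (h.ca i) (h.ca j) (h.cb k) (h.cb l) ((h.ca m).union_nb (h.cb n) (h.ab m n))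
    (h.da i j hij) (h.dab i k) (h.dab i l) (dA i n hmi.symm) (h.dab j k) (h.dab j l)
    (dA j n hmj.symm) (h.db k l hkl) (dB k n hnk.symm) (dB l n hnl.symm) hA (h.ab i k) (h.ab i l)
    ((h.ab i n).mono subset_rfl Set.subset_union_right) (h.ab j k) (h.ab j l)
    ((h.ab j n).mono subset_rfl Set.subset_union_right) hB
    ((h.ab m k).symm.mono subset_rfl Set.subset_union_left)
    ((h.ab m l).symm.mono subset_rfl Set.subset_union_left)

/-- the case of a split of a part which is not one of the two adjacent parts -/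
theorem km1_fs_out {G : SimpleGraph V} {A B : Fin 3 → Set V} (h : KM G A B) {i j k : Fin 3}
    (hij : i ≠ j) (hki : k ≠ i) (hkj : k ≠ j) (hA : Nb G (A i) (A j)) (hF : FS G (A k) B) :
    HasMinor K5 G := by
  obtain ⟨C, D, cC, cD, dCD, hCD, u, p, q, hup, huq, hpq, nCu, nDu, nCp, nDq⟩ := hF
  have hCA : C ⊆ A k := hCD ▸ Set.subset_union_left
  have hDA : D ⊆ A k := hCD ▸ Set.subset_union_right
  have nCD : Nb G C D := (h.ca k).nb_of_union hCD cC.nonempty cD.nonempty dCD
  have d1 : ∀ x y, Disjoint (A x) (B y) := h.dab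
  have dCB : ∀ y, Disjoint C (B y) := fun y => (h.dab k y).mono_left hCA
  have dDB : ∀ y, Disjoint D (B y) := fun y => (h.dab k y).mono_left hDA
  have dAC : ∀ x, x ≠ k → Disjoint (A x) C := fun x hx => (h.da x k hx).mono_right hCA
  have dAD : ∀ x, x ≠ k → Disjoint (A x) D := fun x hx => (h.da x k hx).mono_right hDA
  exact k5_of_parts (P0 := A i) (P1 := A j) (P2 := B u) (P3 := B p ∪ C) (P4 := D ∪ B q)
    (h.ca i) (h.ca j) (h.cb u) ((h.cb p).union_nb cC nCp.symm) (cD.union_nb (h.cb q) nDq)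
    (h.da i j hij) (d1 i u) (Set.disjoint_union_right.2 ⟨d1 i p, dAC i hki.symm⟩)
    (Set.disjoint_union_right.2 ⟨dAD i hki.symm, d1 i q⟩) (d1 j u)
    (Set.disjoint_union_right.2 ⟨d1 j p, dAC j hkj.symm⟩)
    (Set.disjoint_union_right.2 ⟨dAD j hkj.symm, d1 j q⟩)
    (Set.disjoint_union_right.2 ⟨h.db u p hup, (dCB u).symm⟩)
    (Set.disjoint_union_right.2 ⟨(dDB u).symm, h.db u q huq⟩)
    (Set.disjoint_union_left.2 ⟨Set.disjoint_union_right.2 ⟨(dDB p).symm, h.db p q hpq⟩,
      Set.disjoint_union_right.2 ⟨dCD, dCB q⟩⟩)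
    hA (h.ab i u) ((h.ab i p).mono subset_rfl Set.subset_union_left)
    ((h.ab i q).mono subset_rfl Set.subset_union_right) (h.ab j u)
    ((h.ab j p).mono subset_rfl Set.subset_union_left)
    ((h.ab j q).mono subset_rfl Set.subset_union_right)
    (nCu.symm.mono subset_rfl Set.subset_union_right)
    (nDu.symm.mono subset_rfl Set.subset_union_left)
    (nCD.mono Set.subset_union_right Set.subset_union_left)

/-- the case of a split `(C, D)` of a part with a neighbour of the other part in `D` -/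
theorem km1_fs_in {G : SimpleGraph V} {A B : Fin 3 → Set V} (h : KM G A B) {i j : Fin 3}
    (hij : i ≠ j) {C D : Set V} (cC : Con G C) (cD : Con G D) (dCD : Disjoint C D)
    (hCD : C ∪ D = A i) {u p q : Fin 3} (hup : u ≠ p) (huq : u ≠ q) (hpq : p ≠ q)
    (nCu : Nb G C (B u)) (nDu : Nb G D (B u)) (nCp : Nb G C (B p)) (nDq : Nb G D (B q))
    (nD : Nb G D (A j)) : HasMinor K5 G := by
  obtain ⟨m, hmi, hmj⟩ := km1_third i j hij
  have hCA : C ⊆ A i := hCD ▸ Set.subset_union_left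
  have hDA : D ⊆ A i := hCD ▸ Set.subset_union_right
  have nCD : Nb G C D := (h.ca i).nb_of_union hCD cC.nonempty cD.nonempty dCD
  have dCB : ∀ y, Disjoint C (B y) := fun y => (h.dab i y).mono_left hCA
  have dDB : ∀ y, Disjoint D (B y) := fun y => (h.dab i y).mono_left hDA
  have dCA : ∀ x, x ≠ i → Disjoint C (A x) := fun x hx => (h.da i x hx.symm).mono_left hCA
  have dDA : ∀ x, x ≠ i → Disjoint D (A x) := fun x hx => (h.da i x hx.symm).mono_left hDA
  exact k5_of_parts (P0 := D) (P1 := A j) (P2 := B u) (P3 := B p ∪ C) (P4 := A m ∪ B q)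
    cD (h.ca j) (h.cb u) ((h.cb p).union_nb cC nCp.symm) ((h.ca m).union_nb (h.cb q) (h.ab m q))
    (dDA j hij.symm) (dDB u) (Set.disjoint_union_right.2 ⟨dDB p, dCD.symm⟩)
    (Set.disjoint_union_right.2 ⟨dDA m hmi, dDB q⟩) (h.dab j u)
    (Set.disjoint_union_right.2 ⟨h.dab j p, (dCA j hij.symm).symm⟩)
    (Set.disjoint_union_right.2 ⟨h.da j m hmj.symm, h.dab j q⟩)
    (Set.disjoint_union_right.2 ⟨h.db u p hup, (dCB u).symm⟩)
    (Set.disjoint_union_right.2 ⟨(h.dab m u).symm, h.db u q huq⟩)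
    (Set.disjoint_union_left.2 ⟨Set.disjoint_union_right.2 ⟨(h.dab m p).symm, h.db p q hpq⟩,
      Set.disjoint_union_right.2 ⟨dCA m hmi, dCB q⟩⟩)
    nD nDu (nCD.symm.mono subset_rfl Set.subset_union_right)
    (nDq.mono subset_rfl Set.subset_union_right) (h.ab j u)
    ((h.ab j p).mono subset_rfl Set.subset_union_left)
    ((h.ab j q).mono subset_rfl Set.subset_union_right)
    (nCu.symm.mono subset_rfl Set.subset_union_right)
    ((h.ab m u).symm.mono subset_rfl Set.subset_union_left)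
    ((h.ab m p).symm.mono Set.subset_union_left Set.subset_union_left)

theorem k5_of_fs {G : SimpleGraph V} {A B : Fin 3 → Set V} (h : KM G A B) {i j k : Fin 3}
    (hij : i ≠ j) (hA : Nb G (A i) (A j)) (hF : FS G (A k) B) : HasMinor K5 G := by
  have key : ∀ i j : Fin 3, i ≠ j → Nb G (A i) (A j) → FS G (A i) B → HasMinor K5 G := by
    intro i j hij hA hF
    obtain ⟨C, D, cC, cD, dCD, hCD, u, p, q, hup, huq, hpq, nCu, nDu, nCp, nDq⟩ := hF
    obtain ⟨x, hx, y, hy, hxy⟩ := hA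
    rw [← hCD] at hx
    rcases hx with hx | hx
    · exact km1_fs_in h hij cD cC dCD.symm (by rw [Set.union_comm]; exact hCD) huq hup hpq.symm
        nDu nCu nDq nCp ⟨x, hx, y, hy, hxy⟩
    · exact km1_fs_in h hij cC cD dCD hCD hup huq hpq nCu nDu nCp nDq ⟨x, hx, y, hy, hxy⟩
  by_cases hki : k = i
  · subst hki
    exact key k j hij hA hF
  · by_cases hkj : k = j
    · subst hkj
      exact key k i hij.symm hA.symm hF
    · exact km1_fs_out h hij hki hkj hA hF

end Pool.Agent.BOND
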