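import Mathlib
import Pool.Agent.BOND.KM1

/-! # BOND, module KM2: both sides have an F-split -/

set_option autoImplicit false

namespace Pool.Agent.BOND

variable {V : Type}

/-- eight disjoint connected sets -/
private structure Oct (G : SimpleGraph V) (P : Fin 8 → Set V) : Prop where
  con : ∀ i, Con G (P i)
  disj : ∀ i j, i ≠ j → Disjoint (P i) (P j)

private theorem oct_k5 {G : SimpleGraph V} {P : Fin 8 → Set V} (hP : Oct G P)
    (a b : Fin 5 → Fin 8) (h1 : ∀ i, a i = b i ∨ Nb G (P (a i)) (P (b i)))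
    (h2 : ∀ i j, i ≠ j → a i ≠ a j ∧ a i ≠ b j ∧ b i ≠ b j)
    (h3 : ∀ i j, i < j → Nb G (P (a i)) (P (a j)) ∨ Nb G (P (a i)) (P (b j)) ∨
      Nb G (P (b i)) (P (a j)) ∨ Nb G (P (b i)) (P (b j))) : HasMinor K5 G := by
  have key : ∀ i j, i < j → Nb G (P (a i) ∪ P (b i)) (P (a j) ∪ P (b j)) := by
    intro i j hij
    rcases h3 i j hij with h | h | h | h
    · exact h.mono Set.subset_union_left Set.subset_union_left
    · exact h.mono Set.subset_union_left Set.subset_union_right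
    · exact h.mono Set.subset_union_right Set.subset_union_left
    · exact h.mono Set.subset_union_right Set.subset_union_right
  refine ⟨fun i => P (a i) ∪ P (b i), ?_, ?_, ?_⟩
  · intro i
    rcases h1 i with h | h
    · rw [h, Set.union_self]; exact hP.con _
    · exact (hP.con _).union_nb (hP.con _) h
  · intro i j hij
    obtain ⟨e1, e2, e3⟩ := h2 i j hij
    obtain ⟨-, e4, -⟩ := h2 j i hij.symm
    rw [Set.disjoint_union_left, Set.disjoint_union_right, Set.disjoint_union_right]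
    exact ⟨⟨hP.disj _ _ e1, hP.disj _ _ e2⟩, hP.disj _ _ e4.symm, hP.disj _ _ e3⟩
  · intro i j hij
    have hne : i ≠ j := by simpa using hij
    rcases lt_or_gt_of_ne hne with h | h
    · exact key i j h
    · exact (key j i h).symm

private theorem oct_v8 {G : SimpleGraph V} {P : Fin 8 → Set V} (hP : Oct G P)
    (σ : Fin 8 → Fin 8) (hσ : Function.Injective σ)
    (h1 : ∀ i, Nb G (P (σ i)) (P (σ (i + 1)))) (h2 : ∀ i, Nb G (P (σ i)) (P (σ (i + 4)))) :
    HasMinor V8 G := by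
  refine ⟨fun i => P (σ i), fun i => hP.con _, fun i j hij => hP.disj _ _ (hσ.ne hij), ?_⟩
  intro i j hij
  rw [V8, SimpleGraph.fromRel_adj] at hij
  rcases hij.2 with (h | h) | (h | h)
  · rw [h]; exact h1 i
  · rw [h]; exact h2 i
  · rw [h]; exact (h1 j).symm
  · rw [h]; exact (h2 j).symm

/-- `(M)`: the Wagner graph -/
private theorem oct_m {G : SimpleGraph V} {P : Fin 8 → Set V} (hP : Oct G P)
    (h01 : Nb G (P 0) (P 1)) (h23 : Nb G (P 2) (P 3)) (h46 : Nb G (P 4) (P 6))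
    (h47 : Nb G (P 4) (P 7)) (h56 : Nb G (P 5) (P 6)) (h57 : Nb G (P 5) (P 7))
    (h02 : Nb G (P 0) (P 2)) (h13 : Nb G (P 1) (P 3)) (h06 : Nb G (P 0) (P 6))
    (h17 : Nb G (P 1) (P 7)) (h24 : Nb G (P 2) (P 4)) (h35 : Nb G (P 3) (P 5)) :
    HasMinor V8 G := by
  refine oct_v8 hP ![0, 1, 7, 4, 2, 3, 5, 6] (by decide) ?_ ?_
  · intro i
    fin_cases i
    · exact h01
    · exact h17
    · exact h47.symm
    · exact h24.symm
    · exact h23
    · exact h35
    · exact h56
    · exact h06.symm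
  · intro i
    fin_cases i
    · exact h02
    · exact h13
    · exact h57.symm
    · exact h46
    · exact h02.symm
    · exact h13.symm
    · exact h57
    · exact h46.symm

/-- the other perfect matching -/
private theorem oct_m' {G : SimpleGraph V} {P : Fin 8 → Set V} (hP : Oct G P)
    (h01 : Nb G (P 0) (P 1)) (h23 : Nb G (P 2) (P 3)) (h46 : Nb G (P 4) (P 6))
    (h47 : Nb G (P 4) (P 7)) (h56 : Nb G (P 5) (P 6)) (h57 : Nb G (P 5) (P 7))
    (h03 : Nb G (P 0) (P 3)) (h12 : Nb G (P 1) (P 2)) (h06 : Nb G (P 0) (P 6))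
    (h17 : Nb G (P 1) (P 7)) (h24 : Nb G (P 2) (P 4)) (h35 : Nb G (P 3) (P 5)) :
    HasMinor V8 G := by
  refine oct_v8 hP ![0, 1, 7, 5, 3, 2, 4, 6] (by decide) ?_ ?_
  · intro i
    fin_cases i
    · exact h01
    · exact h17
    · exact h57.symm
    · exact h35.symm
    · exact h23.symm
    · exact h24
    · exact h46
    · exact h06.symm
  · intro i
    fin_cases i
    · exact h03
    · exact h12
    · exact h47.symm
    · exact h56
    · exact h03.symm
    · exact h12.symm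
    · exact h47
    · exact h56.symm

private theorem oct_hh {G : SimpleGraph V} {P : Fin 8 → Set V} (hP : Oct G P)
    (h01 : Nb G (P 0) (P 1)) (h23 : Nb G (P 2) (P 3)) (h46 : Nb G (P 4) (P 6))
    (h47 : Nb G (P 4) (P 7)) (h56 : Nb G (P 5) (P 6)) (h57 : Nb G (P 5) (P 7))
    (h06 : Nb G (P 0) (P 6)) (h17 : Nb G (P 1) (P 7)) (h24 : Nb G (P 2) (P 4))
    (h35 : Nb G (P 3) (P 5))
    (h0 : Nb G (P 0) (P 2) ∨ Nb G (P 0) (P 3)) (h1 : Nb G (P 1) (P 2) ∨ Nb G (P 1) (P 3))
    (h2 : Nb G (P 0) (P 2) ∨ Nb G (P 1) (P 2)) (h3 : Nb G (P 0) (P 3) ∨ Nb G (P 1) (P 3)) :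
    HasMinor V8 G := by
  by_cases hm : Nb G (P 0) (P 2) ∧ Nb G (P 1) (P 3)
  · exact oct_m hP h01 h23 h46 h47 h56 h57 hm.1 hm.2 h06 h17 h24 h35
  · have hm' : Nb G (P 0) (P 3) ∧ Nb G (P 1) (P 2) := by tauto
    exact oct_m' hP h01 h23 h46 h47 h56 h57 hm'.1 hm'.2 h06 h17 h24 h35

private theorem oct_hp {G : SimpleGraph V} {P : Fin 8 → Set V} (hP : Oct G P)
    (h01 : Nb G (P 0) (P 1)) (h23 : Nb G (P 2) (P 3)) (h46 : Nb G (P 4) (P 6))
    (h47 : Nb G (P 4) (P 7)) (h56 : Nb G (P 5) (P 6)) (h57 : Nb G (P 5) (P 7))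
    (h06 : Nb G (P 0) (P 6)) (h17 : Nb G (P 1) (P 7)) (h24 : Nb G (P 2) (P 4))
    (h34 : Nb G (P 3) (P 4)) (h35 : Nb G (P 3) (P 5))
    (h0 : Nb G (P 0) (P 2) ∨ Nb G (P 0) (P 3)) (h1 : Nb G (P 1) (P 2) ∨ Nb G (P 1) (P 3))
    (h2 : Nb G (P 0) (P 2) ∨ Nb G (P 1) (P 2)) : HasMinor K5 G ∨ HasMinor V8 G := by
  by_cases h3 : Nb G (P 0) (P 3) ∨ Nb G (P 1) (P 3)
  · exact Or.inr (oct_hh hP h01 h23 h46 h47 h56 h57 h06 h17 h24 h35 h0 h1 h2 h3)
  · have h02 : Nb G (P 0) (P 2) := by tauto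
    have h12 : Nb G (P 1) (P 2) := by tauto
    refine Or.inl (oct_k5 hP ![0, 1, 2, 4, 3] ![6, 7, 2, 4, 5] ?_ (by decide) ?_)
    · intro i
      fin_cases i
      · exact Or.inr h06
      · exact Or.inr h17
      · exact Or.inl rfl
      · exact Or.inl rfl
      · exact Or.inr h35
    · intro i j hij
      fin_cases i <;> fin_cases j <;> first | exact absurd hij (by decide) | skip
      · exact Or.inl h01
      · exact Or.inl h02
      · exact Or.inr (Or.inr (Or.inl h46.symm))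
      · exact Or.inr (Or.inr (Or.inr h56.symm))
      · exact Or.inl h12
      · exact Or.inr (Or.inr (Or.inl h47.symm))
      · exact Or.inr (Or.inr (Or.inr h57.symm))
      · exact Or.inl h24
      · exact Or.inl h23
      · exact Or.inl h34.symm

private theorem oct_pp {G : SimpleGraph V} {P : Fin 8 → Set V} (hP : Oct G P)
    (h01 : Nb G (P 0) (P 1)) (h23 : Nb G (P 2) (P 3)) (h46 : Nb G (P 4) (P 6))
    (h47 : Nb G (P 4) (P 7)) (h56 : Nb G (P 5) (P 6)) (h57 : Nb G (P 5) (P 7))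
    (h06 : Nb G (P 0) (P 6)) (h16 : Nb G (P 1) (P 6)) (h17 : Nb G (P 1) (P 7))
    (h24 : Nb G (P 2) (P 4)) (h34 : Nb G (P 3) (P 4)) (h35 : Nb G (P 3) (P 5))
    (h0 : Nb G (P 0) (P 2) ∨ Nb G (P 0) (P 3)) (h2 : Nb G (P 0) (P 2) ∨ Nb G (P 1) (P 2)) :
    HasMinor K5 G := by
  by_cases h02 : Nb G (P 0) (P 2)
  · refine oct_k5 hP ![4, 6, 0, 1, 3] ![4, 6, 2, 7, 5] ?_ (by decide) ?_
    · intro i
      fin_cases i
      · exact Or.inl rfl
      · exact Or.inl rfl
      · exact Or.inr h02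
      · exact Or.inr h17
      · exact Or.inr h35
    · intro i j hij
      fin_cases i <;> fin_cases j <;> first | exact absurd hij (by decide) | skip
      · exact Or.inl h46
      · exact Or.inr (Or.inl h24.symm)
      · exact Or.inr (Or.inl h47)
      · exact Or.inl h34.symm
      · exact Or.inl h06.symm
      · exact Or.inl h16.symm
      · exact Or.inr (Or.inl h56.symm)
      · exact Or.inl h01
      · exact Or.inr (Or.inr (Or.inl h23))
      · exact Or.inr (Or.inr (Or.inr h57.symm))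
  · have h03 : Nb G (P 0) (P 3) := by tauto
    have h12 : Nb G (P 1) (P 2) := by tauto
    refine oct_k5 hP ![4, 6, 0, 1, 5] ![4, 6, 3, 2, 7] ?_ (by decide) ?_
    · intro i
      fin_cases i
      · exact Or.inl rfl
      · exact Or.inl rfl
      · exact Or.inr h03
      · exact Or.inr h12
      · exact Or.inr h57
    · intro i j hij
      fin_cases i <;> fin_cases j <;> first | exact absurd hij (by decide) | skip
      · exact Or.inl h46
      · exact Or.inr (Or.inl h34.symm)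
      · exact Or.inr (Or.inl h24.symm)
      · exact Or.inr (Or.inl h47)
      · exact Or.inl h06.symm
      · exact Or.inl h16.symm
      · exact Or.inl h56.symm
      · exact Or.inl h01
      · exact Or.inr (Or.inr (Or.inl h35))
      · exact Or.inr (Or.inl h17)

/-- the eight parts -/
private theorem mk_oct {G : SimpleGraph V} {A B : Fin 3 → Set V} (h : KM G A B)
    {i x y j z w : Fin 3} (hix : i ≠ x) (hiy : i ≠ y) (hxy : x ≠ y) (hjz : j ≠ z) (hjw : j ≠ w)
    (hzw : z ≠ w) {C D C' D' : Set V} (hC : Con G C) (hD : Con G D) (hCD : Disjoint C D)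
    (hA : C ∪ D = A i) (hC' : Con G C') (hD' : Con G D') (hCD' : Disjoint C' D')
    (hB : C' ∪ D' = B j) : Oct G ![C, D, C', D', A x, A y, B z, B w] := by
  have sC : C ⊆ A i := hA ▸ Set.subset_union_left
  have sD : D ⊆ A i := hA ▸ Set.subset_union_right
  have sC' : C' ⊆ B j := hB ▸ Set.subset_union_left
  have sD' : D' ⊆ B j := hB ▸ Set.subset_union_right
  have e1 := (h.dab i j).mono sC sC'
  have e2 := (h.dab i j).mono sC sD'
  have e3 := (h.dab i j).mono sD sC'
  have e4 := (h.dab i j).mono sD sD'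
  have e5 := (h.da i x hix).mono sC le_rfl
  have e6 := (h.da i y hiy).mono sC le_rfl
  have e7 := (h.da i x hix).mono sD le_rfl
  have e8 := (h.da i y hiy).mono sD le_rfl
  have e9 := (h.db j z hjz).mono sC' le_rfl
  have e10 := (h.db j w hjw).mono sC' le_rfl
  have e11 := (h.db j z hjz).mono sD' le_rfl
  have e12 := (h.db j w hjw).mono sD' le_rfl
  have e13 := (h.dab i z).mono sC le_rfl
  have e14 := (h.dab i w).mono sC le_rfl
  have e15 := (h.dab i z).mono sD le_rfl
  have e16 := (h.dab i w).mono sD le_rfl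
  have e17 := (h.dab x j).mono le_rfl sC'
  have e18 := (h.dab x j).mono le_rfl sD'
  have e19 := (h.dab y j).mono le_rfl sC'
  have e20 := (h.dab y j).mono le_rfl sD'
  have e21 := h.dab x z
  have e22 := h.dab x w
  have e23 := h.dab y z
  have e24 := h.dab y w
  have e25 := h.da x y hxy
  have e26 := h.db z w hzw
  constructor
  · intro k
    fin_cases k
    · exact hC
    · exact hD
    · exact hC'
    · exact hD'
    · exact h.ca x
    · exact h.ca y
    · exact h.cb z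
    · exact h.cb w
  · intro k l hkl
    fin_cases k <;> fin_cases l <;>
      first
      | exact absurd rfl hkl
      | (show Disjoint _ _; first | assumption | (apply Disjoint.symm; assumption))

private theorem nb_union_left {G : SimpleGraph V} {S T U : Set V} (h : Nb G (S ∪ T) U) :
    Nb G S U ∨ Nb G T U := by
  obtain ⟨u, hu, v, hv, huv⟩ := h
  rcases hu with hu | hu
  · exact Or.inl ⟨u, hu, v, hv, huv⟩
  · exact Or.inr ⟨u, hu, v, hv, huv⟩

private theorem nb_union_right {G : SimpleGraph V} {S T U : Set V} (h : Nb G U (S ∪ T)) :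
    Nb G U S ∨ Nb G U T := by
  obtain ⟨u, hu, v, hv, huv⟩ := h
  rcases hv with hv | hv
  · exact Or.inl ⟨u, hu, v, hv, huv⟩
  · exact Or.inr ⟨u, hu, v, hv, huv⟩

/-- an explicit F-split -/
private structure FSd (G : SimpleGraph V) (A : Set V) (B : Fin 3 → Set V) (C D : Set V)
    (h p q : Fin 3) : Prop where
  cC : Con G C
  cD : Con G D
  disj : Disjoint C D
  un : C ∪ D = A
  hp : h ≠ p
  hq : h ≠ q
  pq : p ≠ q
  Ch : Nb G C (B h)
  Dh : Nb G D (B h)
  Cp : Nb G C (B p)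
  Dq : Nb G D (B q)

private theorem FSd.flip {G : SimpleGraph V} {A : Set V} {B : Fin 3 → Set V} {C D : Set V}
    {h p q : Fin 3} (F : FSd G A B C D h p q) : FSd G A B D C h q p :=
  ⟨F.cD, F.cC, F.disj.symm, by rw [Set.union_comm]; exact F.un, F.hq, F.hp, F.pq.symm, F.Dh, F.Ch,
    F.Dq, F.Cp⟩

private theorem FSd.cd {G : SimpleGraph V} {A : Set V} {B : Fin 3 → Set V} {C D : Set V}
    {h p q : Fin 3} (F : FSd G A B C D h p q) (hA : Con G A) : Nb G C D :=
  hA.nb_of_union F.un F.cC.nonempty F.cD.nonempty F.disj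

private theorem case_hh {G : SimpleGraph V} {A B : Fin 3 → Set V} (K : KM G A B)
    {C D C' D' : Set V} {h p q h' p' q' : Fin 3} (F : FSd G (A h') B C D h p q)
    (F' : FSd G (B h) A C' D' h' p' q') : HasMinor V8 G := by
  have hO := mk_oct K F'.hp F'.hq F'.pq F.hp F.hq F.pq F.cC F.cD F.disj F.un F'.cC F'.cD F'.disj F'.un
  have n0 := F.Ch; rw [← F'.un] at n0
  have n1 := F.Dh; rw [← F'.un] at n1
  have n2 := F'.Ch; rw [← F.un] at n2
  have n3 := F'.Dh; rw [← F.un] at n3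
  exact oct_hh hO (F.cd (K.ca _)) (F'.cd (K.cb _)) (K.ab _ _) (K.ab _ _) (K.ab _ _) (K.ab _ _)
    F.Cp F.Dq F'.Cp F'.Dq (nb_union_right n0) (nb_union_right n1)
    ((nb_union_right n2).imp Nb.symm Nb.symm) ((nb_union_right n3).imp Nb.symm Nb.symm)

private theorem case_hp {G : SimpleGraph V} {A B : Fin 3 → Set V} (K : KM G A B)
    {C D C' D' : Set V} {h p q h' p' q' : Fin 3} (F : FSd G (A p') B C D h p q)
    (F' : FSd G (B h) A C' D' h' p' q') : HasMinor K5 G ∨ HasMinor V8 G := by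
  have hO := mk_oct K F'.hp.symm F'.pq F'.hq F.hp F.hq F.pq F.cC F.cD F.disj F.un F'.cC F'.cD
    F'.disj F'.un
  have n0 := F.Ch; rw [← F'.un] at n0
  have n1 := F.Dh; rw [← F'.un] at n1
  have n2 := F'.Cp; rw [← F.un] at n2
  exact oct_hp hO (F.cd (K.ca _)) (F'.cd (K.cb _)) (K.ab _ _) (K.ab _ _) (K.ab _ _) (K.ab _ _)
    F.Cp F.Dq F'.Ch F'.Dh F'.Dq (nb_union_right n0) (nb_union_right n1)
    ((nb_union_right n2).imp Nb.symm Nb.symm)

private theorem case_pp {G : SimpleGraph V} {A B : Fin 3 → Set V} (K : KM G A B)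
    {C D C' D' : Set V} {h p q h' p' q' : Fin 3} (F : FSd G (A p') B C D h p q)
    (F' : FSd G (B p) A C' D' h' p' q') : HasMinor K5 G := by
  have hO := mk_oct K F'.hp.symm F'.pq F'.hq F.hp.symm F.pq F.hq F.cC F.cD F.disj F.un F'.cC F'.cD
    F'.disj F'.un
  have n0 := F.Cp; rw [← F'.un] at n0
  have n2 := F'.Cp; rw [← F.un] at n2
  exact oct_pp hO (F.cd (K.ca _)) (F'.cd (K.cb _)) (K.ab _ _) (K.ab _ _) (K.ab _ _) (K.ab _ _)
    F.Ch F.Dh F.Dq F'.Ch F'.Dh F'.Dq (nb_union_right n0) ((nb_union_right n2).imp Nb.symm Nb.symm)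

private theorem three {h p q j : Fin 3} (h1 : h ≠ p) (h2 : h ≠ q) (h3 : p ≠ q) :
    j = h ∨ j = p ∨ j = q := by
  revert h p q j; decide

theorem both_fs {G : SimpleGraph V} {A B : Fin 3 → Set V} (h : KM G A B) {i j : Fin 3}
    (hA : FS G (A i) B) (hB : FS G (B j) A) : HasMinor K5 G ∨ HasMinor V8 G := by
  obtain ⟨C, D, a1, a2, a3, a4, h0, p, q, a5, a6, a7, a8, a9, a10, a11⟩ := hA
  obtain ⟨C', D', b1, b2, b3, b4, h0', p', q', b5, b6, b7, b8, b9, b10, b11⟩ := hB
  have F : FSd G (A i) B C D h0 p q := ⟨a1, a2, a3, a4, a5, a6, a7, a8, a9, a10, a11⟩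
  have F' : FSd G (B j) A C' D' h0' p' q' := ⟨b1, b2, b3, b4, b5, b6, b7, b8, b9, b10, b11⟩
  rcases three (j := j) a5 a6 a7 with hj | hj | hj <;>
    rcases three (j := i) b5 b6 b7 with hi | hi | hi <;> subst hj <;> subst hi
  · exact Or.inr (case_hh h F F')
  · exact case_hp h F F'
  · exact case_hp h F F'.flip
  · exact case_hp h.swap F' F
  · exact Or.inl (case_pp h F F')
  · exact Or.inl (case_pp h F F'.flip)
  · exact case_hp h.swap F' F.flip
  · exact Or.inl (case_pp h F.flip F')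
  · exact Or.inl (case_pp h F.flip F'.flip)

end Pool.Agent.BOND
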