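import Mathlib
import Pool.Agent.BOND.KM2

/-! # BOND, module KM3: extremal models: single attachments -/

set_option autoImplicit false

namespace Pool.Agent.BOND

variable {V : Type}

private theorem three3 {h p q j : Fin 3} (h1 : h ≠ p) (h2 : h ≠ q) (h3 : p ≠ q) :
    j = h ∨ j = p ∨ j = q := by
  revert h p q j; decide

private theorem others (j : Fin 3) : ∃ p q : Fin 3, j ≠ p ∧ j ≠ q ∧ p ≠ q := by
  revert j; decide

private theorem nbL {G : SimpleGraph V} {S T U : Set V} (h : Nb G (S ∪ T) U) :
    Nb G S U ∨ Nb G T U := by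
  obtain ⟨u, hu, v, hv, huv⟩ := h
  rcases hu with hu | hu
  · exact Or.inl ⟨u, hu, v, hv, huv⟩
  · exact Or.inr ⟨u, hu, v, hv, huv⟩

private theorem nbR {G : SimpleGraph V} {S T U : Set V} (h : Nb G U (S ∪ T)) :
    Nb G U S ∨ Nb G U T := by
  obtain ⟨u, hu, v, hv, huv⟩ := h
  rcases hv with hv | hv
  · exact Or.inl ⟨u, hu, v, hv, huv⟩
  · exact Or.inr ⟨u, hu, v, hv, huv⟩

theorem nn_exists {G : SimpleGraph V} {A B : Fin 3 → Set V} (h : KM G A B)
    (h5 : ¬ HasMinor K5 G) (h8 : ¬ HasMinor V8 G) : ∃ A' B', NN G A' B' := by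
  by_cases hA : Ind G A
  · by_cases hB : Ind G B
    · by_cases hFA : ∀ i, ¬ FS G (A i) B
      · exact ⟨A, B, h, hB, hFA⟩
      · by_cases hFB : ∀ i, ¬ FS G (B i) A
        · exact ⟨B, A, h.swap, hA, hFB⟩
        · push Not at hFA hFB
          obtain ⟨i, hi⟩ := hFA
          obtain ⟨j, hj⟩ := hFB
          rcases both_fs h hi hj with h' | h'
          · exact absurd h' h5
          · exact absurd h' h8
    · unfold Ind at hB
      push Not at hB
      obtain ⟨i, j, hij, hn⟩ := hB
      exact ⟨B, A, h.swap, fun k l hkl hn' => h5 (k5_of_two h.swap hij hn hkl hn'),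
        fun k hF => h5 (k5_of_fs h.swap hij hn hF)⟩
  · unfold Ind at hA
    push Not at hA
    obtain ⟨i, j, hij, hn⟩ := hA
    exact ⟨A, B, h, fun k l hkl hn' => h5 (k5_of_two h hij hn hkl hn'),
      fun k hF => h5 (k5_of_fs h hij hn hF)⟩

/-- data of an F-split -/
private structure FD (G : SimpleGraph V) (A : Set V) (B : Fin 3 → Set V) (C D : Set V)
    (h p q : Fin 3) : Prop where
  cC : Con G C
  cD : Con G D
  disj : Disjoint C D
  un : C ∪ D = A
  hp : h ≠ p
  hq : h ≠ q
  pq : p ≠ q
  Ch : Nb G C (B h)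
  Dh : Nb G D (B h)
  Cp : Nb G C (B p)
  Dq : Nb G D (B q)

private theorem FD.flip {G : SimpleGraph V} {A : Set V} {B : Fin 3 → Set V} {C D : Set V}
    {h p q : Fin 3} (F : FD G A B C D h p q) : FD G A B D C h q p :=
  ⟨F.cD, F.cC, F.disj.symm, by rw [Set.union_comm]; exact F.un, F.hq, F.hp, F.pq.symm, F.Dh, F.Ch,
    F.Dq, F.Cp⟩

private theorem FD.fs {G : SimpleGraph V} {A : Set V} {B : Fin 3 → Set V} {C D : Set V}
    {h p q : Fin 3} (F : FD G A B C D h p q) : FS G A B :=
  ⟨C, D, F.cC, F.cD, F.disj, F.un, h, p, q, F.hp, F.hq, F.pq, F.Ch, F.Dh, F.Cp, F.Dq⟩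

/-- the set `S` is added to the first part -/
private theorem FD.add {G : SimpleGraph V} {A S : Set V} {B B' : Fin 3 → Set V} {C D : Set V}
    {h p q : Fin 3} (F : FD G A B' C D h p q) (hS : Con G S) (hd : Disjoint S A)
    (hSC : Nb G C S) (Ch : Nb G (C ∪ S) (B h)) (Dh : Nb G D (B h)) (Cp : Nb G (C ∪ S) (B p))
    (Dq : Nb G D (B q)) : FS G (A ∪ S) B := by
  have hdC : Disjoint S C := hd.mono_right (F.un ▸ Set.subset_union_left)
  have hdD : Disjoint S D := hd.mono_right (F.un ▸ Set.subset_union_right)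
  refine ⟨C ∪ S, D, F.cC.union_nb hS hSC, F.cD, ?_, ?_, h, p, q, F.hp, F.hq, F.pq, Ch, Dh, Cp, Dq⟩
  · rw [Set.disjoint_union_left]; exact ⟨F.disj, hdD⟩
  · rw [← F.un]
    ext x; simp only [Set.mem_union]; tauto

/-- the same for the original family -/
private theorem FD.add' {G : SimpleGraph V} {A S : Set V} {B : Fin 3 → Set V} {C D : Set V}
    {h p q : Fin 3} (F : FD G A B C D h p q) (hS : Con G S) (hd : Disjoint S A)
    (hSC : Nb G C S) : FS G (A ∪ S) B :=
  F.add hS hd hSC (F.Ch.mono Set.subset_union_left le_rfl) F.Dh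
    (F.Cp.mono Set.subset_union_left le_rfl) F.Dq

/-- A part `A i` is the union of `S` (adjacent to `B j` only) and `R` (adjacent to all `B l`). -/
private structure Red (G : SimpleGraph V) (A B : Fin 3 → Set V) (i j : Fin 3) (R S : Set V) :
    Prop where
  cR : Con G R
  cS : Con G S
  disj : Disjoint S R
  un : R ∪ S = A i
  sj : Nb G S (B j)
  sl : ∀ l, l ≠ j → ¬ Nb G S (B l)
  rl : ∀ l, Nb G R (B l)

private theorem Red.rs {G : SimpleGraph V} {A B : Fin 3 → Set V} {i j : Fin 3} {R S : Set V}
    (r : Red G A B i j R S) (hA : Con G (A i)) : Nb G R S :=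
  hA.nb_of_union r.un r.cR.nonempty r.cS.nonempty r.disj.symm

/-- new first side -/
private def nA (A : Fin 3 → Set V) (i : Fin 3) (R : Set V) (x : Fin 3) : Set V :=
  if x = i then R else A x

/-- new second side -/
private def nB (B : Fin 3 → Set V) (j : Fin 3) (S : Set V) (x : Fin 3) : Set V :=
  if x = j then B j ∪ S else B x

private theorem nB_self (B : Fin 3 → Set V) (j : Fin 3) (S : Set V) : nB B j S j = B j ∪ S := by
  simp [nB]

private theorem nB_ne (B : Fin 3 → Set V) {j x : Fin 3} (h : x ≠ j) (S : Set V) :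
    nB B j S x = B x := by
  simp [nB, h]

private theorem Red.km {G : SimpleGraph V} {A B : Fin 3 → Set V} {i j : Fin 3} {R S : Set V}
    (r : Red G A B i j R S) (h : KM G A B) : KM G (nA A i R) (nB B j S) := by
  have sR : R ⊆ A i := r.un ▸ Set.subset_union_left
  have sS : S ⊆ A i := r.un ▸ Set.subset_union_right
  refine ⟨?_, ?_, ?_, ?_, ?_, ?_, ?_⟩
  · intro x; unfold nA; split_ifs with hx
    · exact r.cR
    · exact h.ca x
  · intro x; unfold nB; split_ifs with hx
    · exact (h.cb j).union_nb r.cS r.sj.symm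
    · exact h.cb x
  · intro x y hxy; unfold nA; split_ifs with hx hy hy
    · exact absurd (hx.trans hy.symm) hxy
    · exact (h.da i y (fun e => hy e.symm)).mono_left sR
    · exact (h.da x i hx).mono_right sR
    · exact h.da x y hxy
  · intro x y hxy; unfold nB; split_ifs with hx hy hy
    · exact absurd (hx.trans hy.symm) hxy
    · rw [Set.disjoint_union_left]
      exact ⟨h.db j y (fun e => hy e.symm), (h.dab i y).mono_left sS⟩
    · rw [Set.disjoint_union_right]
      exact ⟨h.db x j hx, ((h.dab i x).mono_left sS).symm⟩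
    · exact h.db x y hxy
  · intro x y; unfold nA nB; split_ifs with hx hy hy
    · rw [Set.disjoint_union_right]
      exact ⟨(h.dab i j).mono_left sR, r.disj.symm⟩
    · exact (h.dab i y).mono_left sR
    · rw [Set.disjoint_union_right]
      exact ⟨h.dab x j, (h.da x i hx).mono_right sS⟩
    · exact h.dab x y
  · intro v
    rcases h.cov v with ⟨x, hx⟩ | ⟨x, hx⟩
    · by_cases hxi : x = i
      · subst hxi
        rw [← r.un] at hx
        rcases hx with hx | hx
        · exact Or.inl ⟨x, by simpa [nA] using hx⟩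
        · exact Or.inr ⟨j, by rw [nB_self]; exact Or.inr hx⟩
      · exact Or.inl ⟨x, by simpa [nA, hxi] using hx⟩
    · refine Or.inr ⟨x, ?_⟩
      unfold nB; split_ifs with hxj
      · left; rw [← hxj]; exact hx
      · exact hx
  · intro x y; unfold nA nB; split_ifs with hx hy hy
    · exact (r.rl j).mono le_rfl Set.subset_union_left
    · exact r.rl y
    · exact (h.ab x j).mono le_rfl Set.subset_union_left
    · exact h.ab x y

private theorem Red.ind {G : SimpleGraph V} {A B : Fin 3 → Set V} {i j : Fin 3} {R S : Set V}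
    (r : Red G A B i j R S) (h : Ind G B) : Ind G (nB B j S) := by
  intro x y hxy; unfold nB; split_ifs with hx hy hy
  · exact absurd (hx.trans hy.symm) hxy
  · intro hn
    rcases nbL hn with hn | hn
    · exact h j y (fun e => hy e.symm) hn
    · exact r.sl y hy hn
  · intro hn
    rcases nbR hn with hn | hn
    · exact h x j hx hn
    · exact r.sl x hx hn.symm
  · exact h x y hxy

/-- moving `S` to another part of the first side gives `K5` -/
private theorem Red.move {G : SimpleGraph V} {A B : Fin 3 → Set V} {i j : Fin 3} {R S : Set V}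
    (r : Red G A B i j R S) (h : KM G A B) {k : Fin 3} (hki : k ≠ i) (hkS : Nb G (A k) S)
    (hF : FS G (A k ∪ S) B) : HasMinor K5 G := by
  have sR : R ⊆ A i := r.un ▸ Set.subset_union_left
  have sS : S ⊆ A i := r.un ▸ Set.subset_union_right
  let A2 : Fin 3 → Set V := fun x => if x = k then A k ∪ S else if x = i then R else A x
  have hA2k : A2 k = A k ∪ S := by simp [A2]
  have hA2i : A2 i = R := by simp [A2, hki.symm]
  have hK : KM G A2 B := by
    refine ⟨?_, h.cb, ?_, h.db, ?_, ?_, ?_⟩
    · intro x; simp only [A2]; split_ifs with h1 h2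
      · exact (h.ca k).union_nb r.cS hkS
      · exact r.cR
      · exact h.ca x
    · intro x y hxy; simp only [A2]
      by_cases hx : x = k
      · rw [if_pos hx]
        have hy : y ≠ k := fun e => hxy (hx.trans e.symm)
        rw [if_neg hy, Set.disjoint_union_left]
        by_cases hy' : y = i
        · rw [if_pos hy']
          exact ⟨(h.da k i hki).mono_right sR, r.disj⟩
        · rw [if_neg hy']
          exact ⟨h.da k y hy.symm, (h.da i y (Ne.symm hy')).mono_left sS⟩
      · rw [if_neg hx]
        by_cases hy : y = k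
        · rw [if_pos hy, Set.disjoint_union_right]
          by_cases hx' : x = i
          · rw [if_pos hx']
            exact ⟨(h.da i k hki.symm).mono_left sR, r.disj.symm⟩
          · rw [if_neg hx']
            exact ⟨h.da x k hx, (h.da x i hx').mono_right sS⟩
        · rw [if_neg hy]
          by_cases hx' : x = i
          · have hy' : y ≠ i := fun e => hxy (hx'.trans e.symm)
            rw [if_pos hx', if_neg hy']
            exact (h.da i y (Ne.symm hy')).mono_left sR
          · rw [if_neg hx']
            by_cases hy' : y = i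
            · rw [if_pos hy']; exact (h.da x i hx').mono_right sR
            · rw [if_neg hy']; exact h.da x y hxy
    · intro x y; simp only [A2]; split_ifs with h1 h2
      · rw [Set.disjoint_union_left]
        exact ⟨h.dab k y, (h.dab i y).mono_left sS⟩
      · exact (h.dab i y).mono_left sR
      · exact h.dab x y
    · intro v
      rcases h.cov v with ⟨x, hx⟩ | hx
      · by_cases hxi : x = i
        · subst hxi
          rw [← r.un] at hx
          rcases hx with hx | hx
          · exact Or.inl ⟨x, by rw [hA2i]; exact hx⟩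
          · exact Or.inl ⟨k, by rw [hA2k]; exact Or.inr hx⟩
        · by_cases hxk : x = k
          · exact Or.inl ⟨k, by rw [hA2k, ← hxk]; exact Or.inl hx⟩
          · exact Or.inl ⟨x, by simpa [A2, hxk, hxi] using hx⟩
      · exact Or.inr hx
    · intro x y; simp only [A2]; split_ifs with h1 h2
      · exact (h.ab k y).mono Set.subset_union_left le_rfl
      · exact r.rl y
      · exact h.ab x y
  refine k5_of_fs hK hki ?_ (k := k) (by rw [hA2k]; exact hF)
  rw [hA2k, hA2i]
  exact (r.rs (h.ca i)).symm.mono Set.subset_union_right le_rfl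

/-- an F-split of `R` with respect to the new second side -/
private theorem Red.core1 {G : SimpleGraph V} {A B : Fin 3 → Set V} {i j : Fin 3} {R S : Set V}
    (r : Red G A B i j R S) (hA : Con G (A i)) {C D : Set V} {h p q : Fin 3}
    (F : FD G R (nB B j S) C D h p q) (hh : h = j ∨ p = j) : FS G (A i) B := by
  rw [← r.un]
  have e1 : Nb G C S ∨ Nb G D S := nbL (by rw [F.un]; exact r.rs hA)
  have e2 : Nb G C (B j) ∨ Nb G D (B j) := nbL (by rw [F.un]; exact r.rl j)
  have fCh := F.Ch
  have fDh := F.Dh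
  have fCp := F.Cp
  have fDq := F.Dq
  rcases hh with hh | hh
  · subst hh
    rw [nB_self] at fCh fDh
    rw [nB_ne B F.hp.symm] at fCp
    rw [nB_ne B F.hq.symm] at fDq
    by_cases hC : Nb G C (B h)
    · by_cases hD : Nb G D (B h)
      · have F0 : FD G R B C D h p q :=
          ⟨F.cC, F.cD, F.disj, F.un, F.hp, F.hq, F.pq, hC, hD, fCp, fDq⟩
        rcases e1 with e | e
        · exact F0.add' r.cS r.disj e
        · exact F0.flip.add' r.cS r.disj e
      · have e : Nb G D S := (nbR fDh).resolve_left hD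
        exact F.flip.add r.cS r.disj e (r.sj.mono Set.subset_union_right le_rfl) hC
          (fDq.mono Set.subset_union_left le_rfl) fCp
    · have e : Nb G C S := (nbR fCh).resolve_left hC
      exact F.add r.cS r.disj e (r.sj.mono Set.subset_union_right le_rfl) (e2.resolve_left hC)
        (fCp.mono Set.subset_union_left le_rfl) fDq
  · subst hh
    rw [nB_ne B F.hp] at fCh fDh
    rw [nB_self] at fCp
    rw [nB_ne B F.pq.symm] at fDq
    by_cases hC : Nb G C S
    · exact F.add r.cS r.disj hC (fCh.mono Set.subset_union_left le_rfl) fDh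
        (r.sj.mono Set.subset_union_right le_rfl) fDq
    · have F0 : FD G R B C D h p q :=
        ⟨F.cC, F.cD, F.disj, F.un, F.hp, F.hq, F.pq, fCh, fDh, (nbR fCp).resolve_right hC, fDq⟩
      exact F0.flip.add' r.cS r.disj (e1.resolve_left hC)

/-- an F-split of another part with respect to the new second side -/
private theorem Red.core2 {G : SimpleGraph V} {A B : Fin 3 → Set V} {i j : Fin 3} {R S : Set V}
    (r : Red G A B i j R S) (hK : KM G A B) {k : Fin 3} (hki : k ≠ i) {C D : Set V}
    {h p q : Fin 3} (F : FD G (A k) (nB B j S) C D h p q) (hh : h = j ∨ p = j) :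
    FS G (A k) B ∨ HasMinor K5 G := by
  have e2 : Nb G C (B j) ∨ Nb G D (B j) := nbL (by rw [F.un]; exact hK.ab k j)
  have sS : S ⊆ A i := r.un ▸ Set.subset_union_right
  have hd : Disjoint S (A k) := (hK.da i k hki.symm).mono_left sS
  have kC : Nb G C S → Nb G (A k) S := fun e => e.mono (F.un ▸ Set.subset_union_left) le_rfl
  have kD : Nb G D S → Nb G (A k) S := fun e => e.mono (F.un ▸ Set.subset_union_right) le_rfl
  have fCh := F.Ch
  have fDh := F.Dh
  have fCp := F.Cp
  have fDq := F.Dq
  rcases hh with hh | hh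
  · subst hh
    rw [nB_self] at fCh fDh
    rw [nB_ne B F.hp.symm] at fCp
    rw [nB_ne B F.hq.symm] at fDq
    by_cases hC : Nb G C (B h)
    · by_cases hD : Nb G D (B h)
      · have F0 : FD G (A k) B C D h p q :=
          ⟨F.cC, F.cD, F.disj, F.un, F.hp, F.hq, F.pq, hC, hD, fCp, fDq⟩
        exact Or.inl F0.fs
      · have e : Nb G D S := (nbR fDh).resolve_left hD
        exact Or.inr (r.move hK hki (kD e) (F.flip.add r.cS hd e
          (r.sj.mono Set.subset_union_right le_rfl) hC
          (fDq.mono Set.subset_union_left le_rfl) fCp))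
    · have e : Nb G C S := (nbR fCh).resolve_left hC
      exact Or.inr (r.move hK hki (kC e) (F.add r.cS hd e
        (r.sj.mono Set.subset_union_right le_rfl) (e2.resolve_left hC)
        (fCp.mono Set.subset_union_left le_rfl) fDq))
  · subst hh
    rw [nB_ne B F.hp] at fCh fDh
    rw [nB_self] at fCp
    rw [nB_ne B F.pq.symm] at fDq
    by_cases hC : Nb G C (B p)
    · have F0 : FD G (A k) B C D h p q :=
        ⟨F.cC, F.cD, F.disj, F.un, F.hp, F.hq, F.pq, fCh, fDh, hC, fDq⟩
      exact Or.inl F0.fs
    · have e : Nb G C S := (nbR fCp).resolve_left hC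
      exact Or.inr (r.move hK hki (kC e) (F.add r.cS hd e
        (fCh.mono Set.subset_union_left le_rfl) fDh
        (r.sj.mono Set.subset_union_right le_rfl) fDq))

private theorem Red.nn {G : SimpleGraph V} {A B : Fin 3 → Set V} {i j : Fin 3} {R S : Set V}
    (r : Red G A B i j R S) (h5 : ¬ HasMinor K5 G) (h : NN G A B) :
    NN G (nA A i R) (nB B j S) := by
  refine ⟨r.km h.km, r.ind h.ind, ?_⟩
  rintro k ⟨C, D, c1, c2, c3, c4, h0, p, q, c5, c6, c7, c8, c9, c10, c11⟩
  have F : FD G (nA A i R k) (nB B j S) C D h0 p q :=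
    ⟨c1, c2, c3, c4, c5, c6, c7, c8, c9, c10, c11⟩
  by_cases hk : k = i
  · have e : nA A i R k = R := by simp [nA, hk]
    rw [e] at F
    apply h.ff i
    rcases three3 (j := j) c5 c6 c7 with hj | hj | hj
    · exact r.core1 (h.km.ca i) F (Or.inl hj.symm)
    · exact r.core1 (h.km.ca i) F (Or.inr hj.symm)
    · exact r.core1 (h.km.ca i) F.flip (Or.inr hj.symm)
  · have e : nA A i R k = A k := by simp [nA, hk]
    rw [e] at F
    have : FS G (A k) B ∨ HasMinor K5 G := by
      rcases three3 (j := j) c5 c6 c7 with hj | hj | hj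
      · exact r.core2 h.km hk F (Or.inl hj.symm)
      · exact r.core2 h.km hk F (Or.inr hj.symm)
      · exact r.core2 h.km hk F.flip (Or.inr hj.symm)
    rcases this with h' | h'
    · exact h.ff k h'
    · exact h5 h'

private theorem Red.false [Finite V] {G : SimpleGraph V} {A B : Fin 3 → Set V} {i j : Fin 3}
    {R S : Set V} (r : Red G A B i j R S) (h5 : ¬ HasMinor K5 G) (h : NN G A B)
    (hm : ∀ A' B', NN G A' B' → am A ≤ am A') : False := by
  have h1 := hm _ _ (r.nn h5 h)
  have sS : S ⊆ A i := r.un ▸ Set.subset_union_right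
  have sR : R ⊆ A i := r.un ▸ Set.subset_union_left
  have h2 : am (nA A i R) < am A := by
    unfold am
    apply Set.ncard_lt_ncard _ (Set.toFinite _)
    rw [Set.ssubset_iff_of_subset]
    · obtain ⟨s, hs⟩ := r.cS.nonempty
      refine ⟨s, Set.mem_iUnion.2 ⟨i, sS hs⟩, ?_⟩
      rw [Set.mem_iUnion]
      rintro ⟨k, hk⟩
      unfold nA at hk
      split_ifs at hk with hki
      · exact Set.disjoint_left.1 r.disj hs hk
      · exact Set.disjoint_left.1 (h.km.da k i hki) hk (sS hs)
    · apply Set.iUnion_subset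
      intro k x hx
      unfold nA at hx
      rw [Set.mem_iUnion]
      split_ifs at hx with hki
      · exact ⟨i, sR hx⟩
      · exact ⟨k, hx⟩
  omega

/-- single attachments in a minimal model -/
theorem single [Finite V] {G : SimpleGraph V} {A B : Fin 3 → Set V} (h5 : ¬ HasMinor K5 G)
    (h : NN G A B) (hm : ∀ A' B', NN G A' B' → am A ≤ am A') {i j : Fin 3} {s s' : V}
    (hs : s ∈ A i) (hs' : s' ∈ A i) (hn : Nb G {s} (B j)) (hn' : Nb G {s'} (B j)) : s = s' := by
  by_contra hne
  obtain ⟨C, D, hC, hD, hd, hu, hsC, hsD⟩ := (h.km.ca i).split hs hs' hne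
  have nC : Nb G C (B j) := hn.mono (Set.singleton_subset_iff.2 hsC) le_rfl
  have nD : Nb G D (B j) := hn'.mono (Set.singleton_subset_iff.2 hsD) le_rfl
  obtain ⟨p, q, hp, hq, hpq⟩ := others j
  have n1 : ¬ (Nb G C (B p) ∧ Nb G D (B q)) := fun e =>
    h.ff i ⟨C, D, hC, hD, hd, hu, j, p, q, hp, hq, hpq, nC, nD, e.1, e.2⟩
  have n2 : ¬ (Nb G C (B q) ∧ Nb G D (B p)) := fun e =>
    h.ff i ⟨C, D, hC, hD, hd, hu, j, q, p, hq, hp, hpq.symm, nC, nD, e.1, e.2⟩
  have mp : Nb G C (B p) ∨ Nb G D (B p) := nbL (by rw [hu]; exact h.km.ab i p)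
  have mq : Nb G C (B q) ∨ Nb G D (B q) := nbL (by rw [hu]; exact h.km.ab i q)
  have hall : ∀ l, l = j ∨ l = p ∨ l = q := fun l => three3 hp hq hpq
  by_cases hCp : Nb G C (B p)
  · have hDq : ¬ Nb G D (B q) := fun e => n1 ⟨hCp, e⟩
    have hCq : Nb G C (B q) := mq.resolve_right hDq
    have hDp : ¬ Nb G D (B p) := fun e => n2 ⟨hCq, e⟩
    refine Red.false (R := C) (S := D) (j := j) ⟨hC, hD, hd.symm, hu, nD, ?_, ?_⟩ h5 h hm
    · intro l hl
      rcases hall l with e | e | e
      · exact absurd e hl
      · rw [e]; exact hDp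
      · rw [e]; exact hDq
    · intro l
      rcases hall l with e | e | e
      · rw [e]; exact nC
      · rw [e]; exact hCp
      · rw [e]; exact hCq
  · have hDp : Nb G D (B p) := mp.resolve_left hCp
    have hCq : ¬ Nb G C (B q) := fun e => n2 ⟨e, hDp⟩
    have hDq : Nb G D (B q) := mq.resolve_left hCq
    refine Red.false (R := D) (S := C) (j := j)
      ⟨hD, hC, hd, by rw [Set.union_comm]; exact hu, nC, ?_, ?_⟩ h5 h hm
    · intro l hl
      rcases hall l with e | e | e
      · exact absurd e hl
      · rw [e]; exact hCp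
      · rw [e]; exact hCq
    · intro l
      rcases hall l with e | e | e
      · rw [e]; exact nD
      · rw [e]; exact hDp
      · rw [e]; exact hDq

end Pool.Agent.BOND
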