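import Mathlib
import Pool.Agent.BOND.KM3

/-! # BOND, module KM4: the leg lemma -/

set_option autoImplicit false

namespace Pool.Agent.BOND

variable {V : Type}

theorem leg [Finite V] {G : SimpleGraph V} {A B : Fin 3 → Set V} (h5 : ¬ HasMinor K5 G)
    (h8 : ¬ HasMinor V8 G) (h : NN G A B) (hm : ∀ A' B', NN G A' B' → am A ≤ am A')
    {i k : Fin 3} {C D : Set V} (hC : Con G C) (hD : Con G D) (hCD : Disjoint C D)
    (hA : C ∪ D = A i) (hk : Nb G C (B k)) (hl : ∀ l, l ≠ k → ¬ Nb G C (B l)) :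
    ∀ l, l ≠ i → ¬ Nb G C (A l) := by sorry

end Pool.Agent.BOND
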